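import Pool.Agent.RSM.Stmts

/-! # Module BDR: the boundary case `D` even, `2 n = D (D - 1)` -/

set_option linter.unusedSectionVars false
set_option linter.unusedVariables false

namespace Pool.Agent.RSM

open Finset Pool.Agent.ResSpec Pool.Agent.ResSpec.LargeMod

universe u

namespace BDR_

variable {V : Type u} [Fintype V] [DecidableEq V] {G : SimpleGraph V} [DecidableRel G.Adj]
  {n D : ℕ} {Q : V → V → ℤ} {T : V → ℤ}

/-- no `M0` vertices -/
theorem noM0 (X : Ctx n D G Q T) (h2n : (2 : ℤ) * n = D * (D - 1)) (hev : Even D) (u : V) :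
    ¬ M0 n D G T u := by
  intro hu
  have h3 := X.n3
  have h4 := X.D3
  obtain ⟨hT, hbe⟩ := X.M0_T hu
  have key : ∀ x, G.Adj u x → al G Q n u x = n - 1 := by
    intro x hx
    have hQ := X.M0_edge hu hx
    have h1 := X.L3 hQ
    rw [hT, ad_of_adj hx] at h1
    have hb := be_nonneg (G := G) (Q := Q) (n := n) (D := D) u x
    have hg := ga_nonneg (G := G) (Q := Q) (n := n) (D := D) u x
    have hdeg := X.deg u x
    rw [ad_of_adj hx, hu.2.2] at hdeg
    have hg0 : ga G Q n D u x = 0 := by
      by_contra hne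
      have hgpos : 0 < ga G Q n D u x := lt_of_le_of_ne hg (Ne.symm hne)
      have e1 : ((D : ℤ) - 1) ∣ 2 * ga G Q n D u x := by
        refine ⟨D - be G Q n D u x - 2 * ga G Q n D u x, ?_⟩
        linear_combination h1 + h2n
      have hcop : IsCoprime ((D : ℤ) - 1) 2 := by
        obtain ⟨e, he⟩ := hev
        refine ⟨-1, (e : ℤ), ?_⟩
        rw [he]; push_cast; ring
      have e2 : ((D : ℤ) - 1) ∣ ga G Q n D u x := hcop.dvd_of_dvd_mul_left e1
      have e3 := Int.le_of_dvd hgpos e2
      nlinarith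
    rw [hg0] at h1 hdeg
    have hb' : ((D : ℤ) - 1) * (be G Q n D u x - D) = 0 := by linear_combination h1 + h2n
    rcases mul_eq_zero.1 hb' with h5 | h5
    · exfalso; linarith
    · linarith
  have hcard : (G.neighborFinset u).card = n + D := by
    have := hu.2.2
    rw [← SimpleGraph.card_neighborFinset_eq_degree] at this
    exact_mod_cast this
  refine too_many X.core X.hn (G.neighborFinset u) (by rw [hcard]; have := X.hD3; omega) ?_
  intro x hx
  rw [SimpleGraph.mem_neighborFinset] at hx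
  have h1 := key x hx
  have hQ := X.M0_edge hu hx
  have hsub : insert u (nb G Q (2 * n) u x) ⊆ pa Q n x := by
    intro z hz
    rw [mem_pa]
    rcases Finset.mem_insert.1 hz with rfl | hz
    · exact ⟨hx.ne', by rw [X.symm]; exact hQ⟩
    · have h2 := (mem_nb.1 hz).2
      have hne : z ≠ x := X.ne_of_a h2
      exact ⟨hne.symm, by rw [X.symm]; exact h2⟩
  have hnot : u ∉ nb G Q (2 * n) u x := by
    intro hz
    exact absurd (mem_nb.1 hz).1 (G.loopless.irrefl u)
  have hle := Finset.card_le_card hsub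
  rw [Finset.card_insert_of_notMem hnot] at hle
  have h5 : ((nb G Q (2 * n) u x).card : ℤ) = n - 1 := h1
  have : (n : ℤ) ≤ (pa Q n x).card := by
    have : (((nb G Q (2 * n) u x).card + 1 : ℕ) : ℤ) ≤ (pa Q n x).card := by exact_mod_cast hle
    push_cast at this
    linarith
  exact_mod_cast this

/-- the multiple of `D ^ 2 - 1` -/
theorem x_zero (h2n : (2 : ℤ) * n = D * (D - 1)) (hev : Even D) (hD : (3 : ℤ) ≤ D) (d : ℤ)
    (h0 : 0 ≤ 2 * ((n : ℤ) + D) * n - (2 * n + D - 1) * d)
    (h1 : 2 * ((n : ℤ) + D) * n - (2 * n + D - 1) * d ≤ 2 * n) :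
    2 * ((n : ℤ) + D) * n - (2 * n + D - 1) * d = 0 := by
  obtain ⟨e, he⟩ := hev
  have he' : (D : ℤ) = 2 * e := by rw [he]; push_cast; ring
  have hn : (n : ℤ) = e * (2 * e - 1) := by rw [he'] at h2n; linarith
  have e1 : 2 * ((n : ℤ) + D) * n - (2 * n + D - 1) * d = (4 * (e : ℤ) ^ 2 - 1) * (2 * e ^ 2 - d) := by
    rw [he', hn]; ring
  rw [e1] at h0 h1 ⊢
  have he2 : (2 : ℤ) ≤ e := by
    by_contra hc
    push Not at hc
    omega
  have hpos : 0 < 4 * (e : ℤ) ^ 2 - 1 := by nlinarith
  have h2 : 0 ≤ 2 * (e : ℤ) ^ 2 - d := by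
    by_contra hc
    push Not at hc
    nlinarith
  have h3 : 2 * (e : ℤ) ^ 2 - d ≤ 0 := by
    by_contra hc
    push Not at hc
    have : 1 ≤ 2 * (e : ℤ) ^ 2 - d := hc
    have h4 : (4 * (e : ℤ) ^ 2 - 1) ≤ (4 * (e : ℤ) ^ 2 - 1) * (2 * e ^ 2 - d) := by nlinarith
    have h5 : (2 : ℤ) * n = 4 * e ^ 2 - 2 * e := by rw [hn]; ring
    linarith
  have h6 : 2 * (e : ℤ) ^ 2 - d = 0 := le_antisymm h3 h2
  rw [h6, mul_zero]

/-- `M2` vertices: `T = 0` and no `a`-edges -/
theorem M2_zero (X : Ctx n D G Q T) (h2n : (2 : ℤ) * n = D * (D - 1)) (hev : Even D) {w : V}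
    (hw : M2 n D G T w) : T w = 0 ∧ al G Q n w w = 0 := by
  have h3 := X.n3
  have h4 := X.D3
  obtain ⟨h0, hT, hd⟩ := hw
  have hw' : M2 n D G T w := ⟨h0, hT, hd⟩
  have hE := X.Teq hT
  have hE' := X.Teq' hT
  have hal := al_nonneg (G := G) (Q := Q) (n := n) w w
  have hbe := be_nonneg (G := G) (Q := Q) (n := n) (D := D) w w
  have hahub : ∀ v, G.Adj w v → Q w v = 2 * n → T v < 0 := fun v hv h => X.M2_a_hub hw' hv h
  by_cases hC : ∃ y, Q w y = 2 * n + 2 * D
  · obtain ⟨y, hy⟩ := hC
    have h1 := X.L1 hy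
    have hna : ¬ G.Adj w y := fun hadj => X.not_c hadj hT hy
    rw [ad_of_not hna] at h1
    have hb := be_nonneg (G := G) (Q := Q) (n := n) (D := D) w y
    have ha := al_nonneg (G := G) (Q := Q) (n := n) w y
    -- `d_a ≤ be + al`
    have hle : al G Q n w w ≤ be G Q n D w y + al G Q n w y := by
      have hsub : nb G Q (2 * n) w w ⊆ nb G Q (2 * n + D - 1) w y ∪ nb G Q (2 * n) w y := by
        intro z hz
        obtain ⟨hz1, hz2⟩ := mem_nb.1 hz
        have hz3 : T z < 0 := hahub z hz1 (by rw [X.symm]; exact hz2)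
        have hzy : z ≠ y := by
          rintro rfl
          exact hna hz1
        rw [Finset.mem_union, mem_nb, mem_nb]
        rcases X.vals hzy with h5 | h5 | h5
        · right; exact ⟨hz1, h5⟩
        · left; exact ⟨hz1, h5⟩
        · exact absurd h5 (X.hub_not_c hz3)
      have := (Finset.card_le_card hsub).trans (Finset.card_union_le _ _)
      unfold al be
      exact_mod_cast this
    have hTge : ((D : ℤ) + 1) * al G Q n w w ≤ T w := by
      have : ((D : ℤ) + 1) * al G Q n w w ≤ (D + 1) * (be G Q n D w y + al G Q n w y) :=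
        mul_le_mul_of_nonneg_left hle (by linarith)
      nlinarith
    have hx0 : 0 ≤ 2 * ((n : ℤ) + D) * n - (2 * n + D - 1) * G.degree w := by nlinarith
    have hx1 : 2 * ((n : ℤ) + D) * n - (2 * n + D - 1) * G.degree w ≤ 2 * n := by nlinarith
    have hx := x_zero h2n hev h4 _ hx0 hx1
    have h6 : al G Q n w w = 0 := by
      have : T w = (D - 1) * al G Q n w w := by linarith
      nlinarith
    refine ⟨?_, h6⟩
    rw [h6] at hE'
    linarith
  · push Not at hC
    have hj : (2 : ℤ) ≤ n + D - G.degree w := by linarith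
    have hbpos : 0 < be G Q n D w w := by
      by_contra hc
      have : be G Q n D w w = 0 := le_antisymm (not_lt.1 hc) hbe
      rw [this] at hE
      nlinarith
    have hcee : ∀ y, G.Adj w y → Q w y = 2 * n + D - 1 → 2 * (n : ℤ) < T y := by
      intro y hy hQ
      by_contra hc
      push Not at hc
      obtain ⟨z, _, _, hz⟩ := X.exists_c hy.symm hc (by rw [X.symm]; exact hQ)
      exact hC z (by rw [X.symm]; exact hz)
    have hA : ∀ v, Q w v ≠ 2 * n := by
      intro v hv
      by_cases hadj : G.Adj w v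
      · have hvT := hahub v hadj hv
        have h1 := X.L3 hv
        rw [ad_of_adj hadj] at h1
        have hle : be G Q n D w w ≤ be G Q n D w v := by
          have hsub : nb G Q (2 * n + D - 1) w w ⊆ nb G Q (2 * n + D - 1) w v := by
            intro z hz
            obtain ⟨hz1, hz2⟩ := mem_nb.1 hz
            have hz3 := hcee z hz1 (by rw [X.symm]; exact hz2)
            rw [mem_nb]
            refine ⟨hz1, ?_⟩
            have hzv : z ≠ v := by
              rintro rfl
              linarith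
            rcases X.vals hzv with h5 | h5 | h5
            · exact absurd h5 (X.cee_not_a hz3)
            · exact h5
            · exact absurd h5 (X.hub_not_c' hvT)
          have := Finset.card_le_card hsub
          unfold be
          exact_mod_cast this
        have hg := X.ga_mul_nonneg' w v
        have h5 : ((D : ℤ) - 1) * be G Q n D w w ≤ (D - 1) * be G Q n D w v :=
          mul_le_mul_of_nonneg_left hle (by linarith)
        nlinarith
      · obtain ⟨_, h6⟩ := X.zero_a h0 hv hadj
        obtain ⟨y, hy1, hy2⟩ := be_pos_iff.1 hbpos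
        have hy3 := hcee y hy1 (by rw [X.symm]; exact hy2)
        exact X.cee_not_a hy3 (h6 y hy1)
    have h6 : al G Q n w w = 0 := al_zero_of fun z _ hz => hA z (by rw [X.symm]; exact hz)
    rw [h6] at hE'
    have hx := x_zero h2n hev h4 (G.degree w : ℤ) (by linarith) (by linarith)
    exact ⟨by linarith, h6⟩

end BDR_

open BDR_ in
theorem bdr_proof (hCee : Stmt_Cee.{u}) (hMOne : Stmt_MOne.{u}) (hM1Cee : Stmt_M1Cee.{u}) :
    Stmt_Bdr.{u} := by
  intro V _ _ G _ n D Q T X hK hNB
  have hB : (2 : ℤ) * n = D * (D - 1) ∧ Even D := by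
    by_contra hc
    exact hNB hc
  obtain ⟨h2n, hev⟩ := hB
  have h3 := X.n3
  have h4 := X.D3
  have h0 := noM0 X h2n hev
  -- all middle vertices have `T = 0`
  have hM1 : ∀ w, M1 n D G T w → be G Q n D w w = D ∧ T w = 0 := by
    intro w hw
    have h5 := (hMOne V G n D Q T X w hw).1
    have h6 := (X.M1_T hw).1
    have h7 : T w = (D - 1) * (D - be G Q n D w w) := by rw [h6, h2n]; ring
    have h8 : be G Q n D w w = D := by
      by_contra hne
      have : (D : ℤ) < be G Q n D w w := lt_of_le_of_ne h5 (Ne.symm hne)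
      have h9 := hw.1
      nlinarith
    refine ⟨h8, ?_⟩
    rw [h7, h8]; ring
  have hmid : ∀ w, 0 ≤ T w → T w ≤ 2 * n → T w = 0 := by
    intro w hw0 hw1
    rcases X.mid_cases hw0 hw1 with h | h | h
    · exact absurd h (h0 w)
    · exact (hM1 w h).2
    · exact (M2_zero X h2n hev h).1
  have hnoM1 : ∀ w, ¬ M1 n D G T w := by
    intro w hw
    obtain ⟨hbw, hTw⟩ := hM1 w hw
    have hM := hMOne V G n D Q T X w hw
    have hcee : ∀ y, G.Adj w y → Q w y = 2 * n + D - 1 → 2 * (n : ℤ) < T y := by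
      intro y hy hQ
      by_contra hc
      push Not at hc
      have hy0 := X.mid_b hw.2.1 hy hQ
      have hTy := hmid y hy0 hc
      have hst := X.M1_star hw hy hQ
      have hal := al_nonneg (G := G) (Q := Q) (n := n) w y
      have hga : 0 < ga G Q n D w y := by
        by_contra hg
        have hg' := ga_nonneg (G := G) (Q := Q) (n := n) (D := D) w y
        have : ga G Q n D w y = 0 := le_antisymm (not_lt.1 hg) hg'
        rw [this, hbw] at hst
        nlinarith
      obtain ⟨y', hy1, hy2⟩ := ga_pos_iff.1 hga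
      have h5 := (X.zero_c hTy (by rw [X.symm]; exact hy2)).2 w hy.symm
      exact X.not_c hy1 hw.2.1 h5
    refine hM1Cee V G n D Q T X hK w hw hcee ?_
    intro y z hyz hy hQy hz hQz
    -- `gamma(w, z) = D - 1`
    have hst := X.M1_star hw hz hQz
    rw [X.al_cee (hcee z hz hQz), hbw] at hst
    have hga : ga G Q n D w z = D - 1 := by
      have : ((D : ℤ) + 1) * (ga G Q n D w z - (D - 1)) = 0 := by linear_combination hst
      rcases mul_eq_zero.1 this with h5 | h5
      · exfalso; linarith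
      · linarith
    have hsub : nb G Q (2 * n + 2 * D) w z ⊆ (nb G Q (2 * n + D - 1) w w).erase z := by
      intro x hx
      obtain ⟨hx1, hx2⟩ := mem_nb.1 hx
      rw [Finset.mem_erase, mem_nb]
      refine ⟨X.ne_of_c hx2, hx1, ?_⟩
      rcases X.vals hx1.ne with h5 | h5 | h5
      · exact absurd (by rw [X.symm]; exact hx2) ((hM.2.1 x hx1 h5).1 z hz)
      · rw [X.symm]; exact h5
      · exact absurd h5 (X.not_c hx1 hw.2.1)
    have hzmem : z ∈ nb G Q (2 * n + D - 1) w w := mem_nb.2 ⟨hz, by rw [X.symm]; exact hQz⟩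
    have hcard : ((nb G Q (2 * n + D - 1) w w).erase z).card ≤ (nb G Q (2 * n + 2 * D) w z).card := by
      rw [Finset.card_erase_of_mem hzmem]
      have e1 : ((nb G Q (2 * n + D - 1) w w).card : ℤ) = D := hbw
      have e2 : ((nb G Q (2 * n + 2 * D) w z).card : ℤ) = D - 1 := hga
      omega
    have heq := Finset.eq_of_subset_of_card_le hsub hcard
    have hymem : y ∈ (nb G Q (2 * n + D - 1) w w).erase z := by
      rw [Finset.mem_erase, mem_nb]
      exact ⟨hyz, hy, by rw [X.symm]; exact hQy⟩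
    rw [← heq] at hymem
    exact (mem_nb.1 hymem).2
  -- all `a`-pairs are inside the hubs
  apply hK
  apply finish_of_hub X.core X.hn X.hD
  intro w v hwv hQ
  by_contra hcon
  push Not at hcon
  have hM2 : ∀ z, 0 ≤ T z → T z ≤ 2 * n → T z = 0 ∧ al G Q n z z = 0 := by
    intro z hz0 hz1
    rcases X.mid_cases hz0 hz1 with h | h | h
    · exact absurd h (h0 z)
    · exact absurd h (hnoM1 z)
    · exact M2_zero X h2n hev h
  have hcl : ∀ z, (0 ≤ T z ∧ T z ≤ 2 * n ∧ ∃ v, Q z v = 2 * n) := by
    refine X.closed (fun z => 0 ≤ T z ∧ T z ≤ 2 * n ∧ ∃ v, Q z v = 2 * n) ?_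
      (u := w) ⟨hcon, X.T_le_a hQ, v, hQ⟩
    rintro z y ⟨hz0, hz1, v', hv'⟩ hzy
    obtain ⟨hz2, hz3⟩ := hM2 z hz0 hz1
    have hnoa : ∀ x, G.Adj z x → Q z x ≠ 2 * n := by
      intro x hx hQx
      have : 0 < al G Q n z z := al_pos_iff.2 ⟨x, hx, by rw [X.symm]; exact hQx⟩
      linarith
    have hna : ¬ G.Adj z v' := fun hadj => hnoa v' hadj hv'
    have h5 := (X.zero_a hz0 hv' hna).2 y hzy
    refine ⟨?_, X.T_le_a h5, v', h5⟩
    by_contra hneg
    push Not at hneg
    exact hnoa y hzy (X.edge_hub hz1 hneg hzy)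
  have hsum := X.sum_pos
  rw [Finset.sum_eq_zero fun z _ => (hM2 z (hcl z).1 (hcl z).2.1).1] at hsum
  exact lt_irrefl _ hsum

end Pool.Agent.RSM
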