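import Pool.Agent.ResSpec.Main

/-! # The remaining range of MP_23a9ba_co: basic facts

`m = n + D`, `N = 2 n + D`, `mu = 2 m n - (N - 1) (n + D / 2)`. -/

set_option linter.unusedSectionVars false
set_option linter.unusedVariables false

namespace Pool.Agent.RSM

open Finset Pool.Agent.ResSpec Pool.Agent.ResSpec.LargeMod

universe u

/-- `u`, `v` have the same neighbours outside `{u, v}` -/
def Twin {V : Type u} (G : SimpleGraph V) (u v : V) : Prop :=
  ∀ w, w ≠ u → w ≠ v → (G.Adj w u ↔ G.Adj w v)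

/-- the standing situation: the combinatorial core, the equality case of Cauchy-Schwarz, and
`3 ≤ n`, `3 ≤ D`, `D (D - 1) ≤ 2 n` -/
structure Ctx {V : Type u} [Fintype V] [DecidableEq V] (n D : ℕ) (G : SimpleGraph V)
    [DecidableRel G.Adj] (Q : V → V → ℤ) (T : V → ℤ) : Prop where
  core : Core n D G Q T
  cseq : ∀ u v, u ≠ v →
    Q u v * (G.degree u + G.degree v + 2 * ad G u v) ≤ 4 * ((n : ℤ) + D) * n → Twin G u v
  hn3 : 3 ≤ n
  hD3 : 3 ≤ D
  hDn : (D : ℤ) * (D - 1) ≤ 2 * n

/-- `not on the boundary` -/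
def NB (n D : ℕ) : Prop := ¬ ((2 : ℤ) * n = D * (D - 1) ∧ Even D)

/-- `mu` -/
def mu (n D : ℕ) : ℤ := 2 * (n + D) * n - (2 * n + D - 1) * (n + ((D / 2 : ℕ) : ℤ))

section defs

variable {V : Type u} [Fintype V] [DecidableEq V]

/-- middle vertices of degree `m` -/
def M0 (n D : ℕ) (G : SimpleGraph V) [DecidableRel G.Adj] (T : V → ℤ) (u : V) : Prop :=
  0 ≤ T u ∧ T u ≤ 2 * n ∧ (G.degree u : ℤ) = n + D

/-- middle vertices of degree `m - 1` -/
def M1 (n D : ℕ) (G : SimpleGraph V) [DecidableRel G.Adj] (T : V → ℤ) (u : V) : Prop :=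
  0 ≤ T u ∧ T u ≤ 2 * n ∧ (G.degree u : ℤ) = n + D - 1

/-- middle vertices of degree at most `m - 2` -/
def M2 (n D : ℕ) (G : SimpleGraph V) [DecidableRel G.Adj] (T : V → ℤ) (u : V) : Prop :=
  0 ≤ T u ∧ T u ≤ 2 * n ∧ (G.degree u : ℤ) ≤ n + D - 2

end defs

/-! ### `mu` -/

theorem mu_even {n D e : ℕ} (h : D = 2 * e) : mu n D = n - e * (2 * e - 1) := by
  subst h
  unfold mu
  rw [show 2 * e / 2 = e by omega]
  push_cast
  ring

theorem mu_odd {n D e : ℕ} (h : D = 2 * e + 1) : mu n D = 2 * n - 2 * e ^ 2 := by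
  subst h
  unfold mu
  rw [show (2 * e + 1) / 2 = e by omega]
  push_cast
  ring

namespace Ctx

variable {V : Type u} [Fintype V] [DecidableEq V] {G : SimpleGraph V} [DecidableRel G.Adj]
  {n D : ℕ} {Q : V → V → ℤ} {T : V → ℤ} (X : Ctx n D G Q T)
include X

theorem hn : 2 ≤ n := by have := X.hn3; omega
theorem hD : 2 ≤ D := by have := X.hD3; omega
theorem n3 : (3 : ℤ) ≤ n := by exact_mod_cast X.hn3
theorem D3 : (3 : ℤ) ≤ D := by exact_mod_cast X.hD3

theorem symm (u v : V) : Q u v = Q v u := X.core.symm u v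
theorem diag (u : V) : Q u u = 0 := X.core.diag u
theorem vals {u v : V} (h : u ≠ v) : Q u v = 2 * n ∨ Q u v = 2 * n + D - 1 ∨
    Q u v = 2 * n + 2 * D := X.core.vals u v h

theorem ne_of_a {u v : V} (h : Q u v = 2 * n) : u ≠ v := by
  rintro rfl
  rw [X.diag] at h
  have := X.n3
  linarith

theorem ne_of_b {u v : V} (h : Q u v = 2 * n + D - 1) : u ≠ v := by
  rintro rfl
  rw [X.diag] at h
  have := X.n3
  have := X.D3
  linarith

theorem ne_of_c {u v : V} (h : Q u v = 2 * n + 2 * D) : u ≠ v := by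
  rintro rfl
  rw [X.diag] at h
  have := X.n3
  have := X.D3
  linarith

/-- `c`-pairs -/
theorem L1 {u v : V} (h : Q u v = 2 * n + 2 * D) :
    T u = (2 * n + 2 * D) * ad G u v + (D + 1) * be G Q n D u v + 2 * D * al G Q n u v :=
  X.core.L1 X.hn X.hD (X.ne_of_c h) h

/-- `b`-pairs -/
theorem L2 {u v : V} (h : Q u v = 2 * n + D - 1) :
    T u = (2 * n + D - 1) * ad G u v + (D - 1) * al G Q n u v - (D + 1) * ga G Q n D u v :=
  X.core.L2 X.hn X.hD (X.ne_of_b h) h

/-- `a`-pairs -/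
theorem L3 {u v : V} (h : Q u v = 2 * n) :
    T u = 2 * n * ad G u v - (D - 1) * be G Q n D u v - 2 * D * ga G Q n D u v :=
  X.core.L3 X.hn X.hD (X.ne_of_a h) h

theorem deg (u v : V) :
    (G.degree u : ℤ) = ad G u v + al G Q n u v + be G Q n D u v + ga G Q n D u v :=
  X.core.deg_split X.hn X.hD u v

theorem deg_self (u : V) :
    (G.degree u : ℤ) = al G Q n u u + be G Q n D u u + ga G Q n D u u :=
  X.core.deg_split_self X.hn X.hD u

theorem F0 (u : V) :
    T u = 2 * (n + D) * n - 2 * n * al G Q n u u - (2 * n + D - 1) * be G Q n D u u -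
      (2 * n + 2 * D) * ga G Q n D u u :=
  X.core.F0 X.hn X.hD u

/-- `a`-partners have `T ≤ 2 n` -/
theorem T_le_a {u v : V} (h : Q u v = 2 * n) : T u ≤ 2 * n :=
  X.core.T_le_of_a X.hn X.hD (X.ne_of_a h) h

theorem T_le_a' {u v : V} (h : Q u v = 2 * n) : T v ≤ 2 * n :=
  X.T_le_a (by rw [X.symm]; exact h)

/-- `c`-partners have `0 ≤ T` -/
theorem T_ge_c {u v : V} (h : Q u v = 2 * n + 2 * D) : 0 ≤ T u :=
  X.core.T_nonneg_of_c X.hn X.hD (X.ne_of_c h) h

theorem T_ge_c' {u v : V} (h : Q u v = 2 * n + 2 * D) : 0 ≤ T v :=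
  X.T_ge_c (by rw [X.symm]; exact h)

/-- endpoints of `c`-edges have `2 m ≤ T` -/
theorem T_ge_cadj {u v : V} (huv : G.Adj u v) (h : Q u v = 2 * n + 2 * D) :
    2 * n + 2 * D ≤ T u := X.core.T_ge_of_cadj X.hn X.hD huv h

/-- no `c`-edges at vertices with `T ≤ 2 n` -/
theorem not_c {u v : V} (huv : G.Adj u v) (hT : T u ≤ 2 * n) : Q u v ≠ 2 * n + 2 * D :=
  X.core.not_c_of_adj X.hn X.hD huv hT

theorem ga_self_zero {u : V} (hT : T u ≤ 2 * n) : ga G Q n D u u = 0 :=
  X.core.ga_self_zero X.hn X.hD hT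

/-- pairs of hubs are `a`-pairs -/
theorem hub_hub {u v : V} (huv : u ≠ v) (hu : T u < 0) (hv : T v < 0) : Q u v = 2 * n :=
  X.core.hub_hub X.hn X.hD huv hu hv

theorem hub_not_c {u v : V} (hu : T u < 0) : Q u v ≠ 2 * n + 2 * D := by
  intro h
  have := X.T_ge_c h
  linarith

theorem hub_not_c' {u v : V} (hv : T v < 0) : Q u v ≠ 2 * n + 2 * D := by
  intro h
  have := X.T_ge_c' h
  linarith

/-- an edge between a vertex with `T ≤ 2 n` and a hub is an `a`-edge -/
theorem edge_hub {w v : V} (hT : T w ≤ 2 * n) (hv : T v < 0) (hadj : G.Adj w v) :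
    Q w v = 2 * n := edge_MH X.core X.hn X.hD hT hv hadj

/-- a `b`-edge at a vertex with `T ≤ 2 n` -/
theorem exists_c {u w : V} (huw : G.Adj u w) (hT : T u ≤ 2 * n) (hb : Q u w = 2 * n + D - 1) :
    ∃ z, G.Adj u z ∧ z ≠ w ∧ Q z w = 2 * n + 2 * D :=
  X.core.exists_c_of_b X.hn X.hD huw hT hb

theorem T_nonneg_b {u w : V} (huw : G.Adj u w) (hT : T u ≤ 2 * n)
    (hb : Q u w = 2 * n + D - 1) : 0 ≤ T w := X.core.T_nonneg_of_b X.hn X.hD huw hT hb

/-- `Cee` vertices have no `a`-partner -/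
theorem al_cee {u v : V} (hv : 2 * n < T v) : al G Q n u v = 0 := by
  apply al_zero_of
  intro w _ h
  have := X.T_le_a' h
  linarith

theorem cee_not_a {u v : V} (hu : 2 * n < T u) : Q u v ≠ 2 * n := by
  intro h
  have := X.T_le_a h
  linarith

theorem al_self_cee {u : V} (hu : 2 * n < T u) : al G Q n u u = 0 := X.al_cee hu

theorem ga_hub {w v : V} (hv : T v < 0) : ga G Q n D w v = 0 := by
  apply ga_zero_of
  intro z _ hz
  exact X.hub_not_c' hv hz

/-- `T w = 2 n (m - d) - (D - 1) d_b` for `T w ≤ 2 n` -/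
theorem Teq {u : V} (hT : T u ≤ 2 * n) :
    T u = 2 * n * (n + D - G.degree u) - (D - 1) * be G Q n D u u :=
  LargeMod.Teq X.core X.hn X.hD hT

/-- `T w = 2 m n - (N - 1) d + (D - 1) d_a` for `T w ≤ 2 n` -/
theorem Teq' {u : V} (hT : T u ≤ 2 * n) :
    T u = 2 * (n + D) * n - (2 * n + D - 1) * G.degree u + (D - 1) * al G Q n u u := by
  have h1 := X.Teq hT
  have h2 := X.deg_self u
  rw [X.ga_self_zero hT] at h2
  have h3 : be G Q n D u u = G.degree u - al G Q n u u := by linarith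
  rw [h1, h3]; ring

theorem be_mul_nonneg (u v : V) : 0 ≤ ((D : ℤ) - 1) * be G Q n D u v :=
  mul_nonneg (by have := X.D3; linarith) (be_nonneg _ _)

theorem be_mul_nonneg' (u v : V) : 0 ≤ ((D : ℤ) + 1) * be G Q n D u v :=
  mul_nonneg (by have := X.D3; linarith) (be_nonneg _ _)

theorem al_mul_nonneg (u v : V) : 0 ≤ ((D : ℤ) - 1) * al G Q n u v :=
  mul_nonneg (by have := X.D3; linarith) (al_nonneg _ _)

theorem al_mul_nonneg' (u v : V) : 0 ≤ 2 * (D : ℤ) * al G Q n u v :=
  mul_nonneg (by have := X.D3; linarith) (al_nonneg _ _)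

theorem ga_mul_nonneg (u v : V) : 0 ≤ ((D : ℤ) + 1) * ga G Q n D u v :=
  mul_nonneg (by have := X.D3; linarith) (ga_nonneg _ _)

theorem ga_mul_nonneg' (u v : V) : 0 ≤ 2 * (D : ℤ) * ga G Q n D u v :=
  mul_nonneg (by have := X.D3; linarith) (ga_nonneg _ _)

/-- middle vertices have degree at most `m` -/
theorem deg_le {u : V} (h0 : 0 ≤ T u) (hT : T u ≤ 2 * n) : (G.degree u : ℤ) ≤ n + D := by
  have h1 := X.Teq hT
  have h2 := X.be_mul_nonneg u u
  have h3 := X.n3
  by_contra hcon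
  push Not at hcon
  nlinarith

/-- the cases for a middle vertex -/
theorem mid_cases {u : V} (h0 : 0 ≤ T u) (hT : T u ≤ 2 * n) :
    M0 n D G T u ∨ M1 n D G T u ∨ M2 n D G T u := by
  have h1 := X.deg_le h0 hT
  unfold M0 M1 M2
  rcases lt_or_ge (G.degree u : ℤ) (n + D) with h2 | h2
  · rcases lt_or_ge (G.degree u : ℤ) (n + D - 1) with h3 | h3
    · right; right; exact ⟨h0, hT, by linarith⟩
    · right; left; exact ⟨h0, hT, by linarith⟩
  · left; exact ⟨h0, hT, by linarith⟩

/-- the cases for any vertex -/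
theorem cases5 (u : V) : T u < 0 ∨ M0 n D G T u ∨ M1 n D G T u ∨ M2 n D G T u ∨ 2 * n < T u := by
  rcases lt_or_ge (T u) 0 with h | h
  · left; exact h
  · rcases le_or_gt (T u) (2 * n) with h1 | h1
    · rcases X.mid_cases h h1 with h2 | h2 | h2
      · right; left; exact h2
      · right; right; left; exact h2
      · right; right; right; left; exact h2
    · right; right; right; right; exact h1

/-- `M0`: `T = 0` and `d_b = 0` -/
theorem M0_T {u : V} (h : M0 n D G T u) : T u = 0 ∧ be G Q n D u u = 0 := by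
  obtain ⟨h0, hT, hd⟩ := h
  have h1 := X.Teq hT
  have h2 := be_nonneg (G := G) (Q := Q) (n := n) (D := D) u u
  have h3 := X.D3
  rw [hd] at h1
  have h4 : be G Q n D u u = 0 := by
    by_contra hne
    have : 0 < be G Q n D u u := lt_of_le_of_ne h2 (Ne.symm hne)
    have : 0 < ((D : ℤ) - 1) * be G Q n D u u := mul_pos (by linarith) this
    linarith
  rw [h4] at h1
  exact ⟨by linarith, h4⟩

/-- `M0`: all edges are `a`-edges -/
theorem M0_edge {u w : V} (h : M0 n D G T u) (hw : G.Adj u w) : Q u w = 2 * n := by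
  obtain ⟨h1, h2⟩ := X.M0_T h
  rcases X.vals hw.ne with h3 | h3 | h3
  · exact h3
  · exfalso
    have : 0 < be G Q n D u u := be_pos_iff.2 ⟨w, hw, by rw [X.symm]; exact h3⟩
    linarith
  · exact absurd h3 (X.not_c hw h.2.1)

/-- `M1`: `T w = 2 n - (D - 1) d_b`, `d_a + d_b = m - 1` -/
theorem M1_T {u : V} (h : M1 n D G T u) : T u = 2 * n - (D - 1) * be G Q n D u u ∧
    al G Q n u u + be G Q n D u u = n + D - 1 := by
  obtain ⟨h0, hT, hd⟩ := h
  have h1 := X.Teq hT
  have h2 := X.deg_self u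
  rw [X.ga_self_zero hT] at h2
  rw [hd] at h1 h2
  exact ⟨by rw [h1]; ring, by linarith⟩

/-- (0.2), first half -/
theorem zero_c {u v : V} (hT : T u = 0) (h : Q u v = 2 * n + 2 * D) :
    ¬ G.Adj u v ∧ ∀ w, G.Adj u w → Q w v = 2 * n + 2 * D := by
  have h1 := X.L1 h
  have hb := X.be_mul_nonneg' u v
  have ha := X.al_mul_nonneg' u v
  have h3 := X.n3
  have h4 := X.D3
  have hna : ¬ G.Adj u v := by
    intro hadj
    have := X.T_ge_cadj hadj h
    linarith
  refine ⟨hna, fun w hw => ?_⟩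
  rw [hT, ad_of_not hna] at h1
  have hwv : w ≠ v := by rintro rfl; exact hna hw
  rcases X.vals hwv with h5 | h5 | h5
  · exfalso
    have : 0 < al G Q n u v := al_pos_iff.2 ⟨w, hw, h5⟩
    have : 0 < 2 * (D : ℤ) * al G Q n u v := mul_pos (by linarith) this
    linarith
  · exfalso
    have : 0 < be G Q n D u v := be_pos_iff.2 ⟨w, hw, h5⟩
    have : 0 < ((D : ℤ) + 1) * be G Q n D u v := mul_pos (by linarith) this
    linarith
  · exact h5

/-- (0.2), second half -/
theorem zero_a {u v : V} (h0 : 0 ≤ T u) (h : Q u v = 2 * n) (hna : ¬ G.Adj u v) :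
    T u = 0 ∧ ∀ w, G.Adj u w → Q w v = 2 * n := by
  have h1 := X.L3 h
  have hb := X.be_mul_nonneg u v
  have hg := X.ga_mul_nonneg' u v
  have h3 := X.n3
  have h4 := X.D3
  rw [ad_of_not hna] at h1
  refine ⟨by linarith, fun w hw => ?_⟩
  have hwv : w ≠ v := by rintro rfl; exact hna hw
  rcases X.vals hwv with h5 | h5 | h5
  · exact h5
  · exfalso
    have : 0 < be G Q n D u v := be_pos_iff.2 ⟨w, hw, h5⟩
    have : 0 < ((D : ℤ) - 1) * be G Q n D u v := mul_pos (by linarith) this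
    linarith
  · exfalso
    have : 0 < ga G Q n D u v := ga_pos_iff.2 ⟨w, hw, h5⟩
    have : 0 < 2 * (D : ℤ) * ga G Q n D u v := mul_pos (by linarith) this
    linarith

/-- Cauchy-Schwarz -/
theorem cs {u v : V} (huv : u ≠ v) :
    4 * ((n : ℤ) + D) * n ≤ Q u v * (G.degree u + G.degree v + 2 * ad G u v) :=
  X.core.cs u v huv

/-- closed twins -/
theorem twin_data {u v : V} (hadj : G.Adj u v) (h : Twin G u v) :
    G.degree u = G.degree v ∧ T u = T v ∧ ∀ x, x ≠ u → x ≠ v → Q u x = Q v x := by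
  have hne := hadj.ne
  have hu : G.neighborFinset u = insert v ((G.neighborFinset u).erase v) :=
    (Finset.insert_erase (by simpa using hadj)).symm
  have hv : G.neighborFinset v = insert u ((G.neighborFinset v).erase u) :=
    (Finset.insert_erase (by simpa using hadj.symm)).symm
  have he : (G.neighborFinset u).erase v = (G.neighborFinset v).erase u := by
    ext w
    simp only [Finset.mem_erase, SimpleGraph.mem_neighborFinset]
    constructor
    · rintro ⟨h1, h2⟩
      exact ⟨h2.ne', ((h w h2.ne' h1).1 h2.symm).symm⟩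
    · rintro ⟨h1, h2⟩
      exact ⟨h2.ne', ((h w h1 h2.ne').2 h2.symm).symm⟩
  have hd : G.degree u = G.degree v := by
    rw [← SimpleGraph.card_neighborFinset_eq_degree, ← SimpleGraph.card_neighborFinset_eq_degree,
      hu, hv, Finset.card_insert_of_notMem (by simp), Finset.card_insert_of_notMem (by simp), he]
  have key : ∀ x, x ≠ u → x ≠ v → T u - T v = (G.degree u + 1) * (Q u x - Q v x) := by
    intro x hxu hxv
    rw [X.core.key u x (Ne.symm hxu), X.core.key v x (Ne.symm hxv)]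
    rw [Finset.sum_sub_distrib, Finset.sum_sub_distrib, Finset.sum_const, Finset.sum_const,
      SimpleGraph.card_neighborFinset_eq_degree, SimpleGraph.card_neighborFinset_eq_degree]
    have e1 : ∑ w ∈ G.neighborFinset u, Q w x = Q v x + ∑ w ∈ (G.neighborFinset u).erase v, Q w x :=
      (Finset.add_sum_erase _ _ (by simpa using hadj)).symm
    have e2 : ∑ w ∈ G.neighborFinset v, Q w x = Q u x + ∑ w ∈ (G.neighborFinset v).erase u, Q w x :=
      (Finset.add_sum_erase _ _ (by simpa using hadj.symm)).symm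
    rw [e1, e2, he, ← hd]
    simp only [nsmul_eq_mul]
    ring
  have hT : T u = T v := by
    have k1 := X.core.key u v hne
    have k2 := X.core.key v u hne.symm
    have t1 := X.core.tdef u
    have t2 := X.core.tdef v
    rw [Finset.sum_sub_distrib, Finset.sum_const, SimpleGraph.card_neighborFinset_eq_degree]
      at k1 k2
    have e1 : ∑ w ∈ G.neighborFinset u, Q w v = Q v v + ∑ w ∈ (G.neighborFinset u).erase v, Q w v :=
      (Finset.add_sum_erase _ _ (by simpa using hadj)).symm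
    have e2 : ∑ w ∈ G.neighborFinset v, Q w u = Q u u + ∑ w ∈ (G.neighborFinset v).erase u, Q w u :=
      (Finset.add_sum_erase _ _ (by simpa using hadj.symm)).symm
    have e3 : ∑ w ∈ G.neighborFinset u, Q u w = Q u v + ∑ w ∈ (G.neighborFinset u).erase v, Q u w :=
      (Finset.add_sum_erase _ _ (by simpa using hadj)).symm
    have e4 : ∑ w ∈ G.neighborFinset v, Q v w = Q v u + ∑ w ∈ (G.neighborFinset v).erase u, Q v w :=
      (Finset.add_sum_erase _ _ (by simpa using hadj.symm)).symm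
    have e5 : ∑ w ∈ (G.neighborFinset u).erase v, Q u w =
        ∑ w ∈ (G.neighborFinset v).erase u, Q w u := by
      rw [he]; exact Finset.sum_congr rfl fun w _ => X.symm _ _
    have e6 : ∑ w ∈ (G.neighborFinset v).erase u, Q v w =
        ∑ w ∈ (G.neighborFinset u).erase v, Q w v := by
      rw [he]; exact Finset.sum_congr rfl fun w _ => X.symm _ _
    rw [e1, X.diag] at k1
    rw [e2, X.diag] at k2
    rw [e3, e5] at t1
    rw [e4, e6] at t2
    rw [← hd, X.symm v u] at k2
    rw [X.symm v u] at t2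
    simp only [nsmul_eq_mul] at k1 k2
    linarith
  refine ⟨hd, hT, fun x hxu hxv => ?_⟩
  have h1 := key x hxu hxv
  rw [hT, sub_self] at h1
  have h2 : (G.degree u : ℤ) + 1 ≠ 0 := by positivity
  rcases mul_eq_zero.1 h1.symm with h3 | h3
  · exact absurd h3 h2
  · linarith

/-- (0.1) an `a`-edge with both ends nonnegative: the degrees are `m` or `m - 1`, and if both are
`m - 1` then the ends are closed twins -/
theorem a_edge {u v : V} (hadj : G.Adj u v) (h : Q u v = 2 * n) (hu : 0 ≤ T u) (hv : 0 ≤ T v) :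
    (M0 n D G T u ∧ M0 n D G T v) ∨ (M0 n D G T u ∧ M1 n D G T v) ∨
    (M1 n D G T u ∧ M0 n D G T v) ∨ (M1 n D G T u ∧ M1 n D G T v ∧ Twin G u v) := by
  have huT := X.T_le_a h
  have hvT := X.T_le_a' h
  have h1 := X.cs hadj.ne
  have hd1 := X.deg_le hu huT
  have hd2 := X.deg_le hv hvT
  rw [h, ad_of_adj hadj] at h1
  have h3 := X.n3
  have h4 : 2 * ((n : ℤ) + D) - 2 ≤ G.degree u + G.degree v := by nlinarith
  have heq : (G.degree u : ℤ) + G.degree v = 2 * ((n : ℤ) + D) - 2 → Twin G u v := by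
    intro h5
    apply X.cseq u v hadj.ne
    rw [h, ad_of_adj hadj, h5]
    nlinarith
  unfold M0 M1
  have c1 : (G.degree u : ℤ) = n + D ∨ (G.degree u : ℤ) = n + D - 1 ∨
      (G.degree u : ℤ) = n + D - 2 := by omega
  rcases c1 with c1 | c1 | c1
  · have c2 : (G.degree v : ℤ) = n + D ∨ (G.degree v : ℤ) = n + D - 1 ∨
      (G.degree v : ℤ) = n + D - 2 := by omega
    rcases c2 with c2 | c2 | c2
    · left; exact ⟨⟨hu, huT, c1⟩, hv, hvT, c2⟩
    · right; left; exact ⟨⟨hu, huT, c1⟩, hv, hvT, c2⟩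
    · exfalso
      have := (X.twin_data hadj (heq (by rw [c1, c2]; ring))).1
      rw [this] at c1
      linarith
  · have c2 : (G.degree v : ℤ) = n + D ∨ (G.degree v : ℤ) = n + D - 1 := by omega
    rcases c2 with c2 | c2
    · right; right; left; exact ⟨⟨hu, huT, c1⟩, hv, hvT, c2⟩
    · right; right; right
      exact ⟨⟨hu, huT, c1⟩, ⟨hv, hvT, c2⟩, heq (by rw [c1, c2]; ring)⟩
  · exfalso
    have c2 : (G.degree v : ℤ) = n + D := by omega
    have := (X.twin_data hadj (heq (by rw [c1, c2]; ring))).1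
    rw [this] at c1
    linarith

/-- (0.1) `a`-neighbours of `M2` vertices are hubs -/
theorem M2_a_hub {u v : V} (hu : M2 n D G T u) (hadj : G.Adj u v) (h : Q u v = 2 * n) :
    T v < 0 := by
  by_contra hcon
  push Not at hcon
  have hd := hu.2.2
  rcases X.a_edge hadj h hu.1 hcon with h1 | h1 | h1 | h1
  · have := h1.1.2.2; linarith
  · have := h1.1.2.2; linarith
  · have := h1.1.2.2; linarith
  · have := h1.1.2.2; linarith

/-- (0.3) -/
theorem T_ne {u : V} (h : T u = 2 * n + D - 1) : (2 : ℤ) * n = D * (D - 1) ∧ Even D := by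
  have h3 := X.n3
  have h4 := X.D3
  have h5 := X.hDn
  have hal : al G Q n u u = 0 := X.al_self_cee (by linarith)
  have hga : ga G Q n D u u = 0 := by
    apply ga_zero_of
    intro w hw hQ
    have := X.T_ge_cadj hw (by rw [X.symm]; exact hQ)
    linarith
  have hF := X.F0 u
  rw [hal, hga, h] at hF
  set d := be G Q n D u u with hd
  have e1 : (2 * (n : ℤ) + D - 1) * (2 * n + D + 1 - 2 * (d + 1)) = D ^ 2 - 1 := by linarith
  have e2 : (D : ℤ) ^ 2 - 1 ≤ 2 * n + D - 1 := by linarith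
  have e3 : (0 : ℤ) < D ^ 2 - 1 := by nlinarith
  have e4 : 0 < 2 * (n : ℤ) + D + 1 - 2 * (d + 1) := by
    by_contra hc
    push Not at hc
    nlinarith
  have e5 : 2 * (n : ℤ) + D + 1 - 2 * (d + 1) = 1 := by
    by_contra hc
    have : 2 ≤ 2 * (n : ℤ) + D + 1 - 2 * (d + 1) := by omega
    nlinarith
  rw [e5] at e1
  refine ⟨by linarith, ?_⟩
  have : Even (D : ℤ) := ⟨d + 1 - n, by linarith⟩
  exact_mod_cast this

/-- (0.3) with `NB` -/
theorem T_ne' (hNB : NB n D) (u : V) : T u ≠ 2 * n + D - 1 := fun h => hNB (X.T_ne h)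

/-- (0.4) two `Cee` vertices form a `c`-pair -/
theorem cee_cee (hNB : NB n D) {u v : V} (huv : u ≠ v) (hu : 2 * n < T u) (hv : 2 * n < T v) :
    Q u v = 2 * n + 2 * D := by
  have h3 := X.n3
  have h4 := X.D3
  rcases X.vals huv with h | h | h
  · exact absurd h (X.cee_not_a hu)
  · exfalso
    have h1 := X.L2 h
    rw [X.al_cee hv] at h1
    have hg := ga_nonneg (G := G) (Q := Q) (n := n) (D := D) u v
    have hg' := X.ga_mul_nonneg u v
    rcases ad_cases (G := G) u v with ⟨ha, _⟩ | ⟨ha, _⟩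
    · rw [ha] at h1; linarith
    · rw [ha] at h1
      have hg0 : ga G Q n D u v = 0 := by
        by_contra hne
        have : 1 ≤ ga G Q n D u v := by
          have := lt_of_le_of_ne hg (Ne.symm hne)
          linarith
        nlinarith
      rw [hg0] at h1
      exact X.T_ne' hNB u (by linarith)
  · exact h

/-- a set closed under adjacency and non-empty is everything -/
theorem closed (P : V → Prop) (h : ∀ u v, P u → G.Adj u v → P v) {u : V} (hu : P u) (v : V) :
    P v := closed_univ X.core.conn P h hu v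

/-- both ends of a `c`-edge are in `Cee` -/
theorem c_edge_cee {u v : V} (hadj : G.Adj u v) (h : Q u v = 2 * n + 2 * D) :
    2 * n < T u ∧ 2 * n < T v := by
  have h1 := X.T_ge_cadj hadj h
  have h2 := X.T_ge_cadj hadj.symm (by rw [X.symm]; exact h)
  have h3 := X.D3
  exact ⟨by linarith, by linarith⟩

/-- `T` at a `Cee` vertex -/
theorem cee_T {u : V} (hu : 2 * n < T u) :
    (G.degree u : ℤ) = be G Q n D u u + ga G Q n D u u ∧
    T u = (D + 1) * (n - ga G Q n D u u) - (2 * n + D - 1) * (G.degree u - n) := by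
  have h1 := X.F0 u
  have h2 := X.deg_self u
  rw [X.al_self_cee hu] at h1 h2
  have h3 : be G Q n D u u = G.degree u - ga G Q n D u u := by linarith
  refine ⟨by linarith, ?_⟩
  rw [h1, h3]; ring

/-- a vertex with `T ≤ 2 n` or more generally: at a `b`-neighbour `y` of an `M1` vertex `w`
`(D + 1) γ(w,y) = (D - 1) (1 + d_b(w) + α(w,y))` -/
theorem M1_star {w y : V} (hw : M1 n D G T w) (hadj : G.Adj w y) (hb : Q w y = 2 * n + D - 1) :
    (D + 1) * ga G Q n D w y = (D - 1) * (1 + be G Q n D w w + al G Q n w y) := by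
  have h1 := X.L2 hb
  have h2 := (X.M1_T hw).1
  rw [ad_of_adj hadj] at h1
  linarith

/-- `b`-neighbours of a vertex with `T ≤ 2 n` are not hubs -/
theorem mid_b {w y : V} (hT : T w ≤ 2 * n) (hadj : G.Adj w y) (hb : Q w y = 2 * n + D - 1) :
    0 ≤ T y := X.T_nonneg_b hadj hT hb

theorem sum_pos : 0 < ∑ u, T u := by
  rw [X.core.sumT]
  have h3 := X.n3
  have h4 := X.D3
  positivity

end Ctx

end Pool.Agent.RSM
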