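import Pool.Agent.RSM.Stmts

/-! # Module CEE: a `Cee` vertex with a `b`-neighbour has degree at least `n + 1` -/

set_option linter.unusedSectionVars false
set_option linter.unusedVariables false

namespace Pool.Agent.RSM

open Finset Pool.Agent.ResSpec Pool.Agent.ResSpec.LargeMod

universe u

namespace CEE_

variable {V : Type u} [Fintype V] [DecidableEq V] {G : SimpleGraph V} [DecidableRel G.Adj]
  {n D : ℕ} {Q : V → V → ℤ} {T : V → ℤ} (X : Ctx n D G Q T)
include X

theorem al_le {u w : V} (hu : 2 * n < T u) (hadj : G.Adj u w) (hb : Q u w = 2 * n + D - 1) :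
    al G Q n u w ≤ be G Q n D u u - 1 := by
  have hsub : nb G Q (2 * n) u w ⊆ (nb G Q (2 * n + D - 1) u u).erase w := by
    intro z hz
    rw [mem_nb] at hz
    rw [Finset.mem_erase, mem_nb]
    refine ⟨?_, hz.1, ?_⟩
    · rintro rfl
      exact X.ne_of_a hz.2 rfl
    · rcases X.vals hz.1.ne' with h | h | h
      · exact absurd (by rw [X.symm]; exact h) (X.cee_not_a (v := z) hu)
      · exact h
      · have := (X.c_edge_cee hz.1.symm h).1
        exact absurd hz.2 (X.cee_not_a this)
  have hmem : w ∈ nb G Q (2 * n + D - 1) u u := by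
    rw [mem_nb]; exact ⟨hadj, by rw [X.symm]; exact hb⟩
  have h1 := Finset.card_le_card hsub
  rw [Finset.card_erase_of_mem hmem] at h1
  have hpos : 0 < (nb G Q (2 * n + D - 1) u u).card := Finset.card_pos.2 ⟨w, hmem⟩
  unfold al be
  omega

theorem star {u w : V} (hu : 2 * n < T u) (hadj : G.Adj u w) (hb : Q u w = 2 * n + D - 1) :
    ((D : ℤ) + 1) * ga G Q n D u w ≤ 2 * (n + D - 1) * (G.degree u - n) + 2 * ga G Q n D u u := by
  have h1 := X.L2 hb
  rw [ad_of_adj hadj] at h1
  obtain ⟨h2, h3⟩ := X.cee_T hu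
  have h4 := al_le X hu hadj hb
  have hD := X.D3
  have h5 : ((D : ℤ) - 1) * al G Q n u w ≤ (D - 1) * (be G Q n D u u - 1) :=
    mul_le_mul_of_nonneg_left h4 (by linarith)
  have h6 : be G Q n D u u = G.degree u - ga G Q n D u u := by linarith
  rw [h6] at h5
  nlinarith

/-- the case `d = n`, some `c`-edge -/
theorem case_pos {u : V} (hu : 2 * n < T u) (hd : (G.degree u : ℤ) = n)
    (hg : 0 < ga G Q n D u u) : False := by
  have h3 := X.n3
  have h4 := X.D3
  obtain ⟨e1, e2⟩ := X.cee_T hu
  rw [hd] at e1 e2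
  have key : ∀ u' ∈ nb G Q (2 * n + 2 * D) u u, (2 * (n : ℤ) + 2 * D) ≤
      (D + 1) * (((nb G Q (2 * n + D - 1) u u).filter
        (fun z => Q z u' = 2 * n + 2 * D)).card : ℤ) := by
    intro u' hu'
    have hu'2 := hu'
    rw [mem_nb] at hu'
    have hc : Q u u' = 2 * n + 2 * D := by rw [X.symm]; exact hu'.2
    have hT' := (X.c_edge_cee hu'.1.symm hu'.2).1
    have f1 := X.L1 hc
    rw [ad_of_adj hu'.1, X.al_cee hT'] at f1
    have f2 := X.deg u u'
    rw [ad_of_adj hu'.1, X.al_cee hT', hd] at f2
    have hsub : nb G Q (2 * n + 2 * D) u u' ⊆ (nb G Q (2 * n + 2 * D) u u).erase u' ∪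
        (nb G Q (2 * n + D - 1) u u).filter (fun z => Q z u' = 2 * n + 2 * D) := by
      intro z hz
      rw [mem_nb] at hz
      rw [Finset.mem_union, Finset.mem_erase, mem_nb, Finset.mem_filter, mem_nb]
      rcases X.vals hz.1.ne' with h | h | h
      · exact absurd (by rw [X.symm]; exact h) (X.cee_not_a (v := z) hu)
      · right; exact ⟨⟨hz.1, h⟩, hz.2⟩
      · left; exact ⟨X.ne_of_c hz.2, hz.1, h⟩
    have f3 := (Finset.card_le_card hsub).trans (Finset.card_union_le _ _)
    rw [Finset.card_erase_of_mem hu'2] at f3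
    have hpos : 0 < (nb G Q (2 * n + 2 * D) u u).card := Finset.card_pos.2 ⟨u', hu'2⟩
    have f4 : ga G Q n D u u' ≤ ga G Q n D u u - 1 +
        (((nb G Q (2 * n + D - 1) u u).filter (fun z => Q z u' = 2 * n + 2 * D)).card : ℤ) := by
      unfold ga
      omega
    have f5 : ((D : ℤ) + 1) * ga G Q n D u u' ≤ (D + 1) * (ga G Q n D u u - 1 +
        (((nb G Q (2 * n + D - 1) u u).filter (fun z => Q z u' = 2 * n + 2 * D)).card : ℤ)) :=
      mul_le_mul_of_nonneg_left f4 (by linarith)
    have f6 : be G Q n D u u' = n - 1 - ga G Q n D u u' := by linarith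
    rw [f6] at f1
    nlinarith
  have hsum1 : ga G Q n D u u * (2 * (n : ℤ) + 2 * D) ≤
      (D + 1) * ∑ u' ∈ nb G Q (2 * n + 2 * D) u u,
        (((nb G Q (2 * n + D - 1) u u).filter (fun z => Q z u' = 2 * n + 2 * D)).card : ℤ) := by
    rw [Finset.mul_sum]
    calc ga G Q n D u u * (2 * (n : ℤ) + 2 * D)
        = ∑ u' ∈ nb G Q (2 * n + 2 * D) u u, (2 * (n : ℤ) + 2 * D) := by
          rw [Finset.sum_const, nsmul_eq_mul]; rfl
      _ ≤ _ := Finset.sum_le_sum key
  have hswap : ∑ u' ∈ nb G Q (2 * n + 2 * D) u u,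
        (((nb G Q (2 * n + D - 1) u u).filter (fun z => Q z u' = 2 * n + 2 * D)).card : ℤ) =
      ∑ z ∈ nb G Q (2 * n + D - 1) u u,
        (((nb G Q (2 * n + 2 * D) u u).filter (fun u' => Q z u' = 2 * n + 2 * D)).card : ℤ) := by
    simp only [Finset.card_filter, Nat.cast_sum]
    exact Finset.sum_comm
  have hsum2 : (D + 1) * ∑ z ∈ nb G Q (2 * n + D - 1) u u,
        (((nb G Q (2 * n + 2 * D) u u).filter (fun u' => Q z u' = 2 * n + 2 * D)).card : ℤ) ≤
      be G Q n D u u * (2 * ga G Q n D u u) := by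
    rw [Finset.mul_sum]
    calc _ ≤ ∑ z ∈ nb G Q (2 * n + D - 1) u u, (2 * ga G Q n D u u) := by
          refine Finset.sum_le_sum fun z hz => ?_
          rw [mem_nb] at hz
          have g1 := star X hu hz.1 (by rw [X.symm]; exact hz.2)
          rw [hd, sub_self, mul_zero, zero_add] at g1
          have hsub : (nb G Q (2 * n + 2 * D) u u).filter (fun u' => Q z u' = 2 * n + 2 * D) ⊆
              nb G Q (2 * n + 2 * D) u z := by
            intro y hy
            rw [Finset.mem_filter, mem_nb] at hy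
            rw [mem_nb]
            exact ⟨hy.1.1, by rw [X.symm]; exact hy.2⟩
          have g2 := Finset.card_le_card hsub
          have g3 : (((nb G Q (2 * n + 2 * D) u u).filter
              (fun u' => Q z u' = 2 * n + 2 * D)).card : ℤ) ≤ ga G Q n D u z := by
            unfold ga
            exact_mod_cast g2
          have g4 := mul_le_mul_of_nonneg_left g3 (show (0 : ℤ) ≤ (D : ℤ) + 1 by linarith)
          linarith
      _ = _ := by rw [Finset.sum_const, nsmul_eq_mul]; rfl
  rw [hswap] at hsum1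
  have hb : be G Q n D u u = n - ga G Q n D u u := by linarith
  rw [hb] at hsum2
  nlinarith

/-- the case `d = n`, no `c`-edge: the graph is complete bipartite -/
theorem case_zero {u : V} (hK : NotK n D G) (hu : 2 * n < T u) (hd : (G.degree u : ℤ) = n)
    (hg : ga G Q n D u u = 0) : False := by
  have h3 := X.n3
  have h4 := X.D3
  obtain ⟨e1, e2⟩ := X.cee_T hu
  rw [hd, hg] at e1 e2
  have hTu : T u = (D + 1) * n := by rw [e2]; ring
  have hnb : ∀ w, G.Adj u w → Q u w = 2 * n + D - 1 := by
    intro w hw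
    rcases X.vals hw.ne with h | h | h
    · exact absurd h (X.cee_not_a hu)
    · exact h
    · exfalso
      have : 0 < ga G Q n D u u := ga_pos_iff.2 ⟨w, hw, by rw [X.symm]; exact h⟩
      linarith
  have hal : ∀ w, G.Adj u w → al G Q n u w = n - 1 := by
    intro w hw
    have g1 := star X hu hw (hnb w hw)
    rw [hd, hg, sub_self, mul_zero, mul_zero, zero_add] at g1
    have g2 := X.ga_mul_nonneg u w
    have g3 := X.L2 (hnb w hw)
    rw [ad_of_adj hw, hTu] at g3
    have g4 : ((D : ℤ) - 1) * al G Q n u w = (D - 1) * (n - 1) := by linarith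
    exact mul_left_cancel₀ (by linarith) g4
  set S := G.neighborFinset u with hS
  have hScard : S.card = n := by
    have : ((S.card : ℕ) : ℤ) = n := by
      rw [hS, SimpleGraph.card_neighborFinset_eq_degree]; exact hd
    exact_mod_cast this
  have hmem : ∀ w, w ∈ S ↔ G.Adj u w := fun w => by rw [hS, SimpleGraph.mem_neighborFinset]
  have hnbe : ∀ w ∈ S, nb G Q (2 * n) u w = S.erase w := by
    intro w hw
    apply Finset.eq_of_subset_of_card_le
    · intro z hz
      rw [mem_nb] at hz
      rw [Finset.mem_erase, hmem]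
      exact ⟨X.ne_of_a hz.2, hz.1⟩
    · rw [Finset.card_erase_of_mem hw, hScard]
      have := hal w ((hmem w).1 hw)
      unfold al at this
      omega
  have hA : ∀ x ∈ S, ∀ v ∈ S, x ≠ v → Q x v = 2 * n := by
    intro x hx v hv hxv
    have : x ∈ nb G Q (2 * n) u v := by
      rw [hnbe v hv, Finset.mem_erase]; exact ⟨hxv, hx⟩
    rw [mem_nb] at this
    exact this.2
  have hpaS : ∀ w ∈ S, n - 1 ≤ (pa Q n w).card := by
    intro w hw
    have hsub : S.erase w ⊆ pa Q n w := by
      intro z hz
      rw [Finset.mem_erase] at hz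
      rw [mem_pa]
      exact ⟨hz.1.symm, hA w hw z hz.2 hz.1.symm⟩
    have := Finset.card_le_card hsub
    rw [Finset.card_erase_of_mem hw, hScard] at this
    exact this
  have hpaO : ∀ s, s ∉ S → (pa Q n s).card = 0 := by
    have hsplit : (∑ s ∈ S, (pa Q n s).card) + ∑ s ∈ Sᶜ, (pa Q n s).card = n * (n - 1) := by
      rw [Finset.sum_add_sum_compl, sum_pa X.core]
    have h5 : n * (n - 1) ≤ ∑ s ∈ S, (pa Q n s).card := by
      calc n * (n - 1) = ∑ s ∈ S, (n - 1) := by rw [Finset.sum_const, hScard, smul_eq_mul]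
        _ ≤ _ := Finset.sum_le_sum hpaS
    have h6 : ∑ s ∈ Sᶜ, (pa Q n s).card = 0 := by omega
    intro s hs
    exact (Finset.sum_eq_zero_iff.1 h6) s (Finset.mem_compl.2 hs)
  have hain : ∀ x v, Q x v = 2 * n → x ∈ S := by
    intro x v h
    by_contra hx
    have h1 := hpaO x hx
    have h2 : v ∈ pa Q n x := by rw [mem_pa]; exact ⟨X.ne_of_a h, h⟩
    rw [Finset.card_eq_zero] at h1
    rw [h1] at h2
    simp at h2
  have hain' : ∀ x v, Q x v = 2 * n → v ∈ S := fun x v h => hain v x (by rw [X.symm]; exact h)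
  have hB : ∀ s ∈ S, ∀ v, v ∉ S → Q s v = 2 * n + D - 1 := by
    intro s hs v hv
    by_cases hvu : v = u
    · rw [hvu, X.symm]; exact hnb s ((hmem s).1 hs)
    have hna : ¬ G.Adj u v := fun h => hv ((hmem v).2 h)
    have hal0 : al G Q n u v = 0 := by
      apply al_zero_of
      intro w _ h
      exact hv (hain' w v h)
    have hc : Q u v = 2 * n + 2 * D := by
      rcases X.vals (Ne.symm hvu) with h | h | h
      · exact absurd h (X.cee_not_a hu)
      · exfalso
        have f1 := X.L2 h
        rw [ad_of_not hna, hal0] at f1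
        have := X.ga_mul_nonneg u v
        linarith
      · exact h
    have f1 := X.L1 hc
    rw [ad_of_not hna, hal0, hTu] at f1
    have f2 : ((D : ℤ) + 1) * n = (D + 1) * be G Q n D u v := by linarith
    have f3 : (n : ℤ) = be G Q n D u v := mul_left_cancel₀ (by linarith) f2
    have f4 : nb G Q (2 * n + D - 1) u v = S := by
      apply Finset.eq_of_subset_of_card_le
      · intro z hz
        rw [mem_nb] at hz
        rw [hmem]
        exact hz.1
      · rw [hScard]
        unfold be at f3
        omega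
    have f5 : s ∈ nb G Q (2 * n + D - 1) u v := by rw [f4]; exact hs
    rw [mem_nb] at f5
    exact f5.2
  have hScomp : Sᶜ.card = n + D := by
    rw [Finset.card_compl, X.core.card, hScard]
    omega
  have hC : ∀ x, x ∉ S → ∀ v, v ∉ S → x ≠ v → Q x v = 2 * n + 2 * D := by
    have hsub : (Finset.univ : Finset (V × V)).filter
        (fun p => p.1 ≠ p.2 ∧ Q p.1 p.2 = 2 * n + 2 * D) ⊆ Sᶜ.offDiag := by
      rintro ⟨x, v⟩ hp
      rw [Finset.mem_filter] at hp
      obtain ⟨_, hne, hQ⟩ := hp
      simp only at hne hQ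
      rw [Finset.mem_offDiag]
      refine ⟨?_, ?_, hne⟩
      · rw [Finset.mem_compl]
        intro hx
        by_cases hv : v ∈ S
        · have := hA x hx v hv hne
          linarith
        · have := hB x hx v hv
          linarith
      · rw [Finset.mem_compl]
        intro hv
        by_cases hx : x ∈ S
        · have := hA x hx v hv hne
          linarith
        · have := hB v hv x hx
          rw [X.symm] at this
          linarith
    have heq := Finset.eq_of_subset_of_card_le hsub (by
      rw [X.core.cntC, Finset.offDiag_card, hScomp]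
      rw [Nat.mul_sub_one])
    intro x hx v hv hxv
    have : (x, v) ∈ Sᶜ.offDiag := by
      rw [Finset.mem_offDiag]
      exact ⟨Finset.mem_compl.2 hx, Finset.mem_compl.2 hv, hxv⟩
    rw [← heq, Finset.mem_filter] at this
    exact this.2.2
  exact hK (fin_proof V G n D Q T X.hn X.hD X.core S hScard hA hB hC)

end CEE_

open CEE_ in
theorem cee_proof : Stmt_Cee.{u} := by
  intro V _ _ G _ n D Q T X hK u w hu hadj hb
  by_contra hcon
  push Not at hcon
  have h3 := X.n3
  have h4 := X.D3
  have hgn := ga_nonneg (G := G) (Q := Q) (n := n) (D := D) u u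
  rcases lt_or_ge (G.degree u : ℤ) n with hlt | hge
  · have h1 := star X hu hadj hb
    have h2 := X.ga_mul_nonneg u w
    obtain ⟨e1, e2⟩ := X.cee_T hu
    have hbn := be_nonneg (G := G) (Q := Q) (n := n) (D := D) u u
    nlinarith
  · have hd : (G.degree u : ℤ) = n := by linarith [Int.lt_add_one_iff.1 hcon]
    rcases lt_or_ge 0 (ga G Q n D u u) with hg | hg
    · exact case_pos X hu hd hg
    · exact case_zero X hK hu hd (le_antisymm hg hgn)

end Pool.Agent.RSM
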