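import Pool.Agent.RSM.Stmts

/-! # Module CNT: the counts when every vertex is a hub or in `M2` -/

set_option linter.unusedSectionVars false
set_option linter.unusedVariables false

namespace Pool.Agent.RSM

open Finset Pool.Agent.ResSpec Pool.Agent.ResSpec.LargeMod

universe u

namespace CNT_

/-- the situation of this module -/
structure Si {V : Type u} [Fintype V] [DecidableEq V] (n D : ℕ) (G : SimpleGraph V)
    [DecidableRel G.Adj] (Q : V → V → ℤ) (T : V → ℤ) : Prop where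
  ctx : Ctx n D G Q T
  all : ∀ u, T u < 0 ∨ M2 n D G T u
  deg : ∀ w, M2 n D G T w → (G.degree w : ℤ) = n + ((D / 2 : ℕ) : ℤ)
  tw : ∀ w, M2 n D G T w → T w = mu n D + (D - 1) * al G Q n w w
  two_al : ∀ w, M2 n D G T w → 2 * al G Q n w w ≤ mu n D
  pos : 0 < mu n D
  apart : ∀ w, M2 n D G T w → ∀ v, Q w v = 2 * n → G.Adj w v ∧ T v < 0

variable {V : Type u} [Fintype V] [DecidableEq V] {G : SimpleGraph V} [DecidableRel G.Adj]
  {n D : ℕ} {Q : V → V → ℤ} {T : V → ℤ}

namespace Si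

variable (S : Si n D G Q T)
include S

theorem m2 {w : V} (hw : w ∈ Ms T n) : M2 n D G T w := by
  rcases S.all w with h | h
  · exfalso; linarith [(mem_Ms.1 hw).1]
  · exact h

theorem ks : Ks T n = ∅ := by
  rw [Finset.eq_empty_iff_forall_notMem]
  intro z hz
  rw [mem_Ks] at hz
  have hn := S.ctx.n3
  rcases S.all z with h | h
  · linarith
  · linarith [h.2.1]

theorem sum2 (f : V → ℤ) : ∑ z, f z = ∑ z ∈ Hs T, f z + ∑ z ∈ Ms T n, f z := by
  rw [sum3 (T := T) (n := n), S.ks]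
  simp

theorem card2 : ((Hs T).card : ℤ) + (Ms T n).card = 2 * n + D := by
  have h1 := card3 (T := T) (n := n)
  rw [S.ks, S.ctx.core.card] at h1
  push_cast at h1
  simp only [Finset.card_empty] at h1
  push_cast at h1
  linarith

theorem ai_MM {z w : V} (hz : z ∈ Ms T n) (hw : w ∈ Ms T n) : ai Q n z w = 0 := by
  unfold ai
  rw [if_neg]
  intro h
  have h1 := (S.apart z (S.m2 hz) w h).2
  linarith [(mem_Ms.1 hw).1]

theorem Tpos {w : V} (hw : w ∈ Ms T n) : 0 < T w := by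
  have h1 := S.tw w (S.m2 hw)
  have h2 := S.pos
  have h3 := S.ctx.al_mul_nonneg w w
  linarith

theorem ai_MH {w v : V} (hw : w ∈ Ms T n) (hv : v ∈ Hs T) : ai Q n w v = ad G w v := by
  unfold ai
  rcases ad_cases (G := G) w v with ⟨h, h'⟩ | ⟨h, h'⟩
  · rw [h, if_neg]
    intro hQ
    exact h' (S.apart w (S.m2 hw) v hQ).1
  · rw [h, if_pos]
    exact S.ctx.edge_hub (mem_Ms.1 hw).2 (mem_Hs.1 hv) h'

/-- for `w` in `Mid`: number of hub neighbours is `al w w` -/
theorem al_self {w : V} (hw : w ∈ Ms T n) : al G Q n w w = ∑ z ∈ Hs T, ad G w z := by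
  rw [al_eq_sum, S.sum2]
  have h1 : ∑ z ∈ Ms T n, ad G w z * ai Q n z w = 0 := by
    apply Finset.sum_eq_zero
    intro z hz
    rw [S.ai_MM hz hw, mul_zero]
  rw [h1, add_zero]
  refine Finset.sum_congr rfl fun z hz => ?_
  rw [ai_comm S.ctx.core S.ctx.hn S.ctx.hD, S.ai_MH hw hz, ad_sq]

/-- `al w v` for `v` a hub, arbitrary `w` -/
theorem al_hub (w : V) {v : V} (hv : v ∈ Hs T) :
    al G Q n w v = ∑ z ∈ Hs T, ad G w z - ad G w v + ∑ z ∈ Ms T n, ad G w z * ad G z v := by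
  rw [al_eq_sum, S.sum2]
  have h1 : ∑ z ∈ Ms T n, ad G w z * ai Q n z v = ∑ z ∈ Ms T n, ad G w z * ad G z v := by
    refine Finset.sum_congr rfl fun z hz => ?_
    rw [S.ai_MH hz hv]
  have h3 : ∑ z ∈ Hs T, ad G w z * ai Q n z v = ∑ z ∈ Hs T, ad G w z - ad G w v := by
    have : ∀ z ∈ Hs T, ad G w z * ai Q n z v = ad G w z - (if z = v then ad G w v else 0) := by
      intro z hz
      rw [ai_HH S.ctx.core S.ctx.hn S.ctx.hD hz hv]
      by_cases h : z = v
      · subst h; simp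
      · simp [h]
    rw [Finset.sum_congr rfl this, Finset.sum_sub_distrib, Finset.sum_ite_eq' (Hs T) v, if_pos hv]
  rw [h1, h3]

/-- S8 -/
theorem S8 {w v : V} (hw : w ∈ Ms T n) (hv : v ∈ Hs T) :
    (D - 1) * ∑ z ∈ Ms T n, ad G w z * ad G z v =
      ad G w v * (2 * n * (n + D - 1 - (n + ((D / 2 : ℕ) : ℤ)))) + (1 - ad G w v) * mu n D := by
  have hwT := mem_Ms.1 hw
  have hvT := mem_Hs.1 hv
  have hne : w ≠ v := by
    rintro rfl; linarith [hwT.1]
  have hg := S.ctx.ga_hub (w := w) hvT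
  have h1 := S.al_hub w hv
  rw [← S.al_self hw] at h1
  have h2 := S.ctx.deg w v
  rw [S.deg w (S.m2 hw), hg] at h2
  have hT := S.tw w (S.m2 hw)
  have hμ : mu n D = 2 * (n + D) * n - (2 * n + D - 1) * (n + ((D / 2 : ℕ) : ℤ)) := rfl
  rcases ad_cases (G := G) w v with ⟨h, h'⟩ | ⟨h, h'⟩
  · have hb : Q w v = 2 * n + D - 1 := by
      rcases S.ctx.vals hne with h | h | h
      · exact absurd (S.apart w (S.m2 hw) v h).1 h'
      · exact h
      · exact absurd h (S.ctx.hub_not_c' hvT)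
    have h3 := S.ctx.L2 hb
    rw [h, hg] at h3
    rw [h] at h1 h2 ⊢
    have h6 : ∑ z ∈ Ms T n, ad G w z * ad G z v = al G Q n w v - al G Q n w w := by linarith
    rw [h6]
    linarith
  · have ha := S.ctx.edge_hub hwT.2 hvT h'
    have h3 := S.ctx.L3 ha
    rw [h, hg] at h3
    rw [h] at h1 h2 ⊢
    have h6 : ∑ z ∈ Ms T n, ad G w z * ad G z v = al G Q n w v - al G Q n w w + 1 := by linarith
    have h7 : be G Q n D w v = (n + ((D / 2 : ℕ) : ℤ)) - 1 - al G Q n w v := by linarith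
    rw [h7] at h3
    rw [h6]
    linarith

theorem deg2 {w : V} (hw : w ∈ Ms T n) :
    (n + ((D / 2 : ℕ) : ℤ)) = al G Q n w w + ∑ z ∈ Ms T n, ad G w z := by
  rw [← S.deg w (S.m2 hw), deg_eq_sum, S.sum2, S.al_self hw]

theorem E4 : ((D : ℤ) - 1) * ∑ z ∈ Ms T n, al G Q n z z ^ 2 =
    2 * n * (∑ z ∈ Ms T n, al G Q n z z) - (Ms T n).card * (Hs T).card * mu n D := by
  set d : ℤ := (n + ((D / 2 : ℕ) : ℤ)) with hd
  have h1 : ∀ w ∈ Ms T n, (D - 1) * ∑ z ∈ Ms T n, ad G w z * al G Q n z z =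
      (2 * n * (n + D - 1 - d)) * al G Q n w w +
        mu n D * ((Hs T).card - al G Q n w w) := by
    intro w hw
    have h2 : ∑ z ∈ Ms T n, ad G w z * al G Q n z z =
        ∑ v ∈ Hs T, ∑ z ∈ Ms T n, ad G w z * ad G z v := by
      rw [Finset.sum_comm]
      refine Finset.sum_congr rfl fun z hz => ?_
      rw [S.al_self hz, Finset.mul_sum]
    have h8 : ∀ v ∈ Hs T, (D - 1) * ∑ z ∈ Ms T n, ad G w z * ad G z v =
        ad G w v * (2 * n * (n + D - 1 - d)) + (1 - ad G w v) * mu n D := fun v hv => S.S8 hw hv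
    rw [h2, Finset.mul_sum, Finset.sum_congr rfl h8,
      Finset.sum_add_distrib, ← Finset.sum_mul, ← Finset.sum_mul, Finset.sum_sub_distrib,
      ← S.al_self hw, Finset.sum_const, nsmul_eq_mul]
    ring
  have h2 : ∑ z ∈ Ms T n, al G Q n z z * ∑ w ∈ Ms T n, ad G z w =
      ∑ w ∈ Ms T n, ∑ z ∈ Ms T n, ad G w z * al G Q n z z := by
    rw [Finset.sum_comm]
    refine Finset.sum_congr rfl fun z hz => ?_
    rw [Finset.mul_sum]
    refine Finset.sum_congr rfl fun w hw => ?_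
    rw [ad_comm]; ring
  have h3 : (D - 1) * ∑ z ∈ Ms T n, al G Q n z z * ∑ w ∈ Ms T n, ad G z w =
      (2 * n * (n + D - 1 - d)) * (∑ z ∈ Ms T n, al G Q n z z) +
      mu n D * ((Hs T).card * (Ms T n).card - ∑ z ∈ Ms T n, al G Q n z z) := by
    rw [h2, Finset.mul_sum, Finset.sum_congr rfl h1, Finset.sum_add_distrib, ← Finset.mul_sum,
      ← Finset.mul_sum, Finset.sum_sub_distrib, Finset.sum_const, nsmul_eq_mul]
    ring
  have h4 : ∑ z ∈ Ms T n, al G Q n z z * ∑ w ∈ Ms T n, ad G z w =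
      d * (∑ z ∈ Ms T n, al G Q n z z) - ∑ z ∈ Ms T n, al G Q n z z ^ 2 := by
    rw [Finset.mul_sum, ← Finset.sum_sub_distrib]
    refine Finset.sum_congr rfl fun z hz => ?_
    have h5 := S.deg2 hz
    have h6 : ∑ w ∈ Ms T n, ad G z w = d - al G Q n z z := by linarith
    rw [h6]; ring
  have hμ : mu n D = 2 * (n + D) * n - (2 * n + D - 1) * d := rfl
  rw [h4] at h3
  have h7 : ((D : ℤ) - 1) * d = 2 * n * (n + D - d) - mu n D := by rw [hμ]; ring
  set p := ∑ z ∈ Ms T n, al G Q n z z with hp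
  set q := ∑ z ∈ Ms T n, al G Q n z z ^ 2 with hq
  have h8 : ((D : ℤ) - 1) * (d * p) = (2 * n * (n + D - d) - mu n D) * p := by
    rw [← h7]; ring
  linarith

/-- total number of `a`-pairs -/
theorem count_a : (n : ℤ) * (n - 1) = (Hs T).card * ((Hs T).card - 1) +
    2 * ∑ z ∈ Ms T n, al G Q n z z := by
  have h0 := sum_pa S.ctx.core
  have h1 : ∀ v, ((pa Q n v).card : ℤ) = ∑ z, ai Q n v z := by
    intro v
    have : pa Q n v = univ.filter (fun z => Q v z = 2 * n) := by
      ext z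
      rw [mem_pa]
      simp only [mem_filter, mem_univ, true_and]
      exact ⟨fun h => h.2, fun h => ⟨S.ctx.ne_of_a h, h⟩⟩
    rw [this, Finset.card_filter]
    push_cast
    rfl
  have h2 : (n : ℤ) * (n - 1) = ∑ v, ∑ z, ai Q n v z := by
    rw [← Finset.sum_congr rfl (fun v _ => h1 v)]
    have : ((n * (n - 1) : ℕ) : ℤ) = ((∑ v, (pa Q n v).card : ℕ) : ℤ) := by rw [h0]
    push_cast [Nat.cast_sub (show 1 ≤ n by have := S.ctx.hn; omega)] at this
    exact this
  have hH : ∀ v ∈ Hs T, ∑ z, ai Q n v z = ((Hs T).card - 1) + ∑ z ∈ Ms T n, ad G z v := by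
    intro v hv
    rw [S.sum2]
    have e1 : ∑ z ∈ Hs T, ai Q n v z = (Hs T).card - 1 := by
      rw [Finset.sum_congr rfl (fun z hz => ai_HH S.ctx.core S.ctx.hn S.ctx.hD hv hz),
        Finset.sum_sub_distrib, Finset.sum_ite_eq (Hs T) v, if_pos hv]
      simp
    have e2 : ∑ z ∈ Ms T n, ai Q n v z = ∑ z ∈ Ms T n, ad G z v := by
      refine Finset.sum_congr rfl fun z hz => ?_
      rw [ai_comm S.ctx.core S.ctx.hn S.ctx.hD, S.ai_MH hz hv]
    rw [e1, e2]
  have hM : ∀ w ∈ Ms T n, ∑ z, ai Q n w z = al G Q n w w := by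
    intro w hw
    rw [S.sum2, S.al_self hw]
    have e1 : ∑ z ∈ Hs T, ai Q n w z = ∑ z ∈ Hs T, ad G w z :=
      Finset.sum_congr rfl (fun z hz => S.ai_MH hw hz)
    have e2 : ∑ z ∈ Ms T n, ai Q n w z = 0 := by
      apply Finset.sum_eq_zero
      intro z hz
      exact S.ai_MM hw hz
    rw [e1, e2, add_zero]
  rw [h2, S.sum2, Finset.sum_congr rfl hH, Finset.sum_congr rfl hM,
    Finset.sum_add_distrib]
  have e5 : ∑ v ∈ Hs T, ∑ z ∈ Ms T n, ad G z v = ∑ z ∈ Ms T n, al G Q n z z := by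
    rw [Finset.sum_comm]
    exact Finset.sum_congr rfl fun z hz => (S.al_self hz).symm
  rw [e5]
  simp
  ring

/-- total number of `c`-pairs -/
theorem count_c : ((n : ℤ) + D) * (n + D - 1) =
    (Ms T n).card * ((Ms T n).card - 1 - (n + ((D / 2 : ℕ) : ℤ))) +
      ∑ z ∈ Ms T n, al G Q n z z := by
  have C := S.ctx.core
  have h4 := S.ctx.D3
  have h5 := S.ctx.n3
  set d : ℤ := (n + ((D / 2 : ℕ) : ℤ)) with hd
  let ci : V → V → ℤ := fun w z => if w ≠ z ∧ Q w z = 2 * n + 2 * D then 1 else 0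
  have h0 : ((n : ℤ) + D) * (n + D - 1) = ∑ w, ∑ z, ci w z := by
    have h1 := C.cntC
    have h2 : (((univ : Finset (V × V)).filter
      (fun p => p.1 ≠ p.2 ∧ Q p.1 p.2 = 2 * n + 2 * D)).card : ℤ) = ∑ w, ∑ z, ci w z := by
      rw [Finset.card_filter, ← Finset.univ_product_univ, Finset.sum_product]
      push_cast
      rfl
    rw [← h2, h1]
    push_cast [Nat.cast_sub (show 1 ≤ n + D by have := S.ctx.hn; omega)]
    ring
  have hrow : ∀ w ∈ Hs T, ∑ z, ci w z = 0 := by
    intro w hw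
    apply Finset.sum_eq_zero
    intro z _
    simp only [ci]
    rw [if_neg]
    rintro ⟨h1, h2⟩
    exact S.ctx.hub_not_c (mem_Hs.1 hw) h2
  have hrowM : ∀ w ∈ Ms T n, ∑ z, ci w z = (Ms T n).card - 1 - d + al G Q n w w := by
    intro w hw
    rw [S.sum2]
    have e1 : ∑ z ∈ Hs T, ci w z = 0 := by
      apply Finset.sum_eq_zero
      intro z hz
      simp only [ci]
      rw [if_neg]
      rintro ⟨h1, h2⟩
      exact S.ctx.hub_not_c' (mem_Hs.1 hz) h2
    have e2 : ∀ z ∈ Ms T n, ci w z = 1 - (if w = z then 1 else 0) - ad G w z := by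
      intro z hz
      simp only [ci]
      by_cases hwz : w = z
      · subst hwz; simp [ad_self]
      · rw [if_neg hwz]
        rcases ad_cases (G := G) w z with ⟨ha, hna⟩ | ⟨ha, hadj⟩
        · rw [ha, if_pos]
          · norm_num
          · refine ⟨hwz, ?_⟩
            rcases S.ctx.vals hwz with h | h | h
            · exfalso
              have h1 := (S.apart w (S.m2 hw) z h).2
              linarith [(mem_Ms.1 hz).1]
            · exfalso
              have h1 := S.ctx.cs hwz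
              rw [h, S.deg w (S.m2 hw), S.deg z (S.m2 hz), ha] at h1
              have hμ : mu n D = 2 * (n + D) * n - (2 * n + D - 1) * d := rfl
              have h3 := S.pos
              linarith
            · exact h
        · rw [ha, if_neg]
          · norm_num
          · rintro ⟨_, h⟩
            exact S.ctx.not_c hadj (mem_Ms.1 hw).2 h
    rw [e1, Finset.sum_congr rfl e2, Finset.sum_sub_distrib, Finset.sum_sub_distrib,
      Finset.sum_ite_eq (Ms T n) w, if_pos hw]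
    have hd := S.deg2 hw
    simp only [Finset.sum_const, nsmul_eq_mul, mul_one, zero_add] at hd ⊢
    linarith
  rw [h0, S.sum2, Finset.sum_congr rfl hrow, Finset.sum_congr rfl hrowM,
    Finset.sum_add_distrib]
  simp
  ring

end Si

end CNT_

open CNT_ in
theorem cnt2_proof (h1 : Stmt_MTwo.{u}) : Stmt_Cnt.{u} := by
  intro V _ _ G _ n D Q T X hNB hall
  have hM := fun w hw => h1 V G n D Q T X hNB w hw
  obtain ⟨w₀, hw₀⟩ : ∃ w, M2 n D G T w := by
    by_contra hcon
    push Not at hcon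
    have h2 := X.sum_pos
    have h3 : ∑ u, T u ≤ 0 := by
      apply Finset.sum_nonpos
      intro u _
      rcases hall u with h | h
      · exact h.le
      · exact absurd h (hcon u)
    linarith
  have S : Si n D G Q T :=
    ⟨X, hall, fun w hw => (hM w hw).2.1, fun w hw => (hM w hw).2.2.1,
      fun w hw => (hM w hw).2.2.2.1, (hM w₀ hw₀).2.2.2.2.1, fun w hw => (hM w hw).2.2.2.2.2⟩
  refine ⟨(Hs T).card, (Ms T n).card, ∑ z ∈ Ms T n, al G Q n z z, ∑ z ∈ Ms T n, al G Q n z z ^ 2,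
    by positivity, by positivity, Finset.sum_nonneg fun z _ => al_nonneg _ _, S.card2, S.pos,
    S.count_a, S.count_c, S.E4, sq_sum_le_card_mul_sum_sq, ?_, ?_, ?_, ?_⟩
  · rw [Finset.mul_sum]
    calc ∑ z ∈ Ms T n, 2 * al G Q n z z ≤ ∑ z ∈ Ms T n, mu n D :=
          Finset.sum_le_sum fun z hz => S.two_al z (S.m2 hz)
      _ = _ := by rw [Finset.sum_const, nsmul_eq_mul]
  · rw [Finset.mul_sum, Finset.mul_sum]
    refine Finset.sum_le_sum fun z hz => ?_
    have h2 := S.two_al z (S.m2 hz)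
    have h3 := al_nonneg (G := G) (Q := Q) (n := n) z z
    nlinarith
  · refine Finset.sum_le_sum fun z hz => ?_
    have h3 := al_nonneg (G := G) (Q := Q) (n := n) z z
    rcases h3.eq_or_lt with h4 | h4
    · rw [← h4]; norm_num
    · nlinarith
  · intro hodd
    obtain ⟨e, he⟩ : ∃ e, D = 2 * e + 1 := ⟨D / 2, by omega⟩
    have he1 : (1 : ℤ) ≤ e := by have := X.hD3; omega
    have hmu := mu_odd (n := n) he
    have hcast : (D : ℤ) - 1 = 2 * e := by rw [he]; push_cast; ring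
    rw [hcast, mul_assoc]
    have h5 : ∑ z ∈ Ms T n, al G Q n z z ≤ (e : ℤ) * (Ms T n).card := by
      calc ∑ z ∈ Ms T n, al G Q n z z ≤ ∑ z ∈ Ms T n, (e : ℤ) := by
            refine Finset.sum_le_sum fun z hz => ?_
            have h2 := S.tw z (S.m2 hz)
            have h3 := (mem_Ms.1 hz).2
            rw [h2, hmu, hcast] at h3
            have h4 : (e : ℤ) * al G Q n z z ≤ e * e := by nlinarith
            exact le_of_mul_le_mul_left h4 (by linarith)
        _ = _ := by rw [Finset.sum_const, nsmul_eq_mul, mul_comm]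
    linarith

end Pool.Agent.RSM
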