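import Pool.Agent.RSM.Stmts

/-! # Module CNTG: values and counts for all `m, n ≥ 1` -/

set_option linter.unusedSectionVars false
set_option linter.unusedVariables false

namespace Pool.Agent.RSM

open Finset Pool.Agent.ResSpec Pool.Agent.ResSpec.LargeMod

universe u

namespace CNTG_

open Pool.Agent.ResSpec.Cnt

theorem mono (x y : ℕ) (hy : 1 ≤ y) (hxy : x < y) :
    x * (x - 1) < y * (y - 1) ∨ (x = 0 ∧ y = 1) := by
  obtain ⟨y, rfl⟩ : ∃ z, y = z + 1 := ⟨y - 1, by omega⟩
  rcases Nat.eq_zero_or_pos x with hx | hx
  · subst hx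
    rcases Nat.eq_zero_or_pos y with hy0 | hy0
    · right
      omega
    · left
      simp
      omega
  · left
    have : x ≤ y := by omega
    have h4 : x - 1 < y := by omega
    calc x * (x - 1) < x * y := Nat.mul_lt_mul_of_pos_left h4 hx
      _ ≤ (y + 1) * y := Nat.mul_le_mul_right _ (by omega)
      _ = (y + 1) * (y + 1 - 1) := by simp

theorem sum_offDiag (k : ℕ) (P : Prop) [Decidable P] :
    (∑ i : Fin k, ∑ j : Fin k, if i ≠ j ∧ P then 1 else 0) = if P then k * (k - 1) else 0 := by
  by_cases hP : P
  · simp only [hP, and_true, if_true]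
    rw [← offDiag_card_fin k, Finset.card_filter, Fintype.sum_prod_type]
  · simp [hP]

theorem sum_const2 (k l : ℕ) (P : Prop) [Decidable P] :
    (∑ i : Fin k, ∑ j : Fin l, if P then 1 else 0) = if P then k * l else 0 := by
  by_cases hP : P
  · simp [hP]
  · simp [hP]

end CNTG_

open CNTG_ Pool.Agent.ResSpec.Cnt in
theorem cntg_proof : Stmt_Cntg.{u} := by
  classical
  intro V _ _ G m n hm hn hspec
  obtain ⟨kll, krr, klr⟩ := kmn_proof pot_proof m n hm hn
  set K := completeBipartiteGraph (Fin m) (Fin n) with hKdef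
  have krl : ∀ (i : Fin n) (j : Fin m), resistance K (Sum.inr i) (Sum.inl j) =
      (m + n - 1 : ℝ) / (m * n) := fun i j => by
    rw [resistance_comm]
    exact klr j i
  refine ⟨?_, ?_, ?_⟩
  · have h1 := card_offDiag G
    have h2 := card_offDiag K
    rw [hspec, ← h2, card_offDiag_type, card_offDiag_type] at h1
    have h3 : Fintype.card (Fin m ⊕ Fin n) = m + n := by simp
    rw [h3] at h1
    rcases Nat.lt_trichotomy (Fintype.card V) (m + n) with h | h | h
    · rcases mono _ _ (by omega) h with h5 | h5 <;> omega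
    · exact h
    · rcases mono _ _ (by omega) h with h5 | h5 <;> omega
  · intro u v huv
    have hmem : resistance G u v ∈ resSpec G := by
      unfold resSpec
      rw [Multiset.mem_map]
      refine ⟨s(u, v), ?_, rfl⟩
      rw [Finset.mem_val]
      simp [huv]
    rw [hspec] at hmem
    unfold resSpec at hmem
    rw [Multiset.mem_map] at hmem
    obtain ⟨e, he, hval⟩ := hmem
    rw [← hval]
    rw [Finset.mem_val] at he
    induction e using Sym2.ind with
    | _ x y =>
      have hxy : x ≠ y := by simpa using he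
      rw [Sym2.lift_mk]
      rcases x with x | x <;> rcases y with y | y
      · left
        exact kll x y (fun h => hxy (by rw [h]))
      · right; left
        exact klr x y
      · right; left
        exact krl x y
      · right; right
        exact krr x y (fun h => hxy (by rw [h]))
  · intro r
    have h0 : ((Finset.univ : Finset (V × V)).filter
        (fun p => p.1 ≠ p.2 ∧ resistance G p.1 p.2 = r)).card =
        ((Finset.univ : Finset ((Fin m ⊕ Fin n) × (Fin m ⊕ Fin n))).filter
        (fun p => p.1 ≠ p.2 ∧ resistance K p.1 p.2 = r)).card := by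
      have h1 := card_value G r
      have h2 := card_value K r
      rw [hspec] at h1
      exact h1.trans h2.symm
    rw [h0, Finset.card_filter, Fintype.sum_prod_type, Fintype.sum_sum_type]
    simp only [Fintype.sum_sum_type, Finset.sum_add_distrib]
    have e1 : (∑ i : Fin m, ∑ j : Fin m,
        if (Sum.inl i : Fin m ⊕ Fin n) ≠ Sum.inl j ∧ resistance K (Sum.inl i) (Sum.inl j) = r
          then 1 else 0) = if r = 2 / (n : ℝ) then m * (m - 1) else 0 := by
      rw [← sum_offDiag m (r = 2 / (n : ℝ))]
      refine Finset.sum_congr rfl fun i _ => Finset.sum_congr rfl fun j _ => ?_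
      by_cases hij : i = j
      · simp [hij]
      · have h1 : (Sum.inl i : Fin m ⊕ Fin n) ≠ Sum.inl j := fun h => hij (Sum.inl_injective h)
        rw [kll i j hij]
        simp only [ne_eq, h1, not_false_eq_true, true_and, hij]
        by_cases hr : r = 2 / (n : ℝ)
        · rw [if_pos hr, if_pos hr.symm]
        · rw [if_neg hr, if_neg (fun h => hr h.symm)]
    have e2 : (∑ i : Fin n, ∑ j : Fin n,
        if (Sum.inr i : Fin m ⊕ Fin n) ≠ Sum.inr j ∧ resistance K (Sum.inr i) (Sum.inr j) = r
          then 1 else 0) = if r = 2 / (m : ℝ) then n * (n - 1) else 0 := by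
      rw [← sum_offDiag n (r = 2 / (m : ℝ))]
      refine Finset.sum_congr rfl fun i _ => Finset.sum_congr rfl fun j _ => ?_
      by_cases hij : i = j
      · simp [hij]
      · have h1 : (Sum.inr i : Fin m ⊕ Fin n) ≠ Sum.inr j := fun h => hij (Sum.inr_injective h)
        rw [krr i j hij]
        simp only [ne_eq, h1, not_false_eq_true, true_and, hij]
        by_cases hr : r = 2 / (m : ℝ)
        · rw [if_pos hr, if_pos hr.symm]
        · rw [if_neg hr, if_neg (fun h => hr h.symm)]
    have e3 : (∑ i : Fin m, ∑ j : Fin n,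
        if (Sum.inl i : Fin m ⊕ Fin n) ≠ Sum.inr j ∧ resistance K (Sum.inl i) (Sum.inr j) = r
          then 1 else 0) = if r = (m + n - 1 : ℝ) / (m * n) then m * n else 0 := by
      rw [← sum_const2 m n (r = (m + n - 1 : ℝ) / (m * n))]
      refine Finset.sum_congr rfl fun i _ => Finset.sum_congr rfl fun j _ => ?_
      have h1 : (Sum.inl i : Fin m ⊕ Fin n) ≠ Sum.inr j := by simp
      rw [klr i j]
      by_cases hr : r = (m + n - 1 : ℝ) / (m * n)
      · rw [if_pos hr, if_pos ⟨h1, hr.symm⟩]
      · rw [if_neg hr, if_neg (fun h => hr h.2.symm)]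
    have e4 : (∑ i : Fin n, ∑ j : Fin m,
        if (Sum.inr i : Fin m ⊕ Fin n) ≠ Sum.inl j ∧ resistance K (Sum.inr i) (Sum.inl j) = r
          then 1 else 0) = if r = (m + n - 1 : ℝ) / (m * n) then n * m else 0 := by
      rw [← sum_const2 n m (r = (m + n - 1 : ℝ) / (m * n))]
      refine Finset.sum_congr rfl fun i _ => Finset.sum_congr rfl fun j _ => ?_
      have h1 : (Sum.inr i : Fin m ⊕ Fin n) ≠ Sum.inl j := by simp
      rw [krl i j]
      by_cases hr : r = (m + n - 1 : ℝ) / (m * n)
      · rw [if_pos hr, if_pos ⟨h1, hr.symm⟩]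
      · rw [if_neg hr, if_neg (fun h => hr h.2.symm)]
    rw [e1, e2, e3, e4]
    split_ifs <;> ring

end Pool.Agent.RSM
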