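import Pool.Agent.RSM.Stmts

/-! # Module CTX: equality in Cauchy-Schwarz, and the standing situation -/

set_option linter.unusedSectionVars false
set_option linter.unusedVariables false

namespace Pool.Agent.RSM

open Finset Matrix Pool.Agent.ResSpec Pool.Agent.ResSpec.LargeMod

universe u

namespace CTX_

open Pool.Agent.ResSpec.LapMod

section analytic

variable {V : Type u} [Fintype V] [DecidableEq V] {G : SimpleGraph V} [DecidableRel G.Adj]

theorem lap_zero {x : V → ℝ} (h : x ⬝ᵥ (G.lapMatrix ℝ *ᵥ x) = 0) : G.lapMatrix ℝ *ᵥ x = 0 := by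
  rw [← (SimpleGraph.posSemidef_lapMatrix ℝ G).dotProduct_mulVec_zero_iff x]
  simpa using h

/-- the equality case of the Cauchy-Schwarz bound -/
theorem cseq (hc : G.Connected) {u v : V} (huv : u ≠ v)
    (hle : resistance G u v * (G.degree u + G.degree v + 2 * (if G.Adj u v then 1 else 0)) ≤ 4) :
    Twin G u v := by
  set x : V → ℝ := Pi.single u 1 - Pi.single v 1 with hx
  set φ : V → ℝ := green G *ᵥ x with hφ
  have hLφ : G.lapMatrix ℝ *ᵥ φ = x := by
    rw [hφ, Matrix.mulVec_mulVec, lap_green hc, Matrix.sub_mulVec, Matrix.one_mulVec, hx,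
      avg_dipole, sub_zero]
  have hR : resistance G u v = x ⬝ᵥ φ := by rw [res_green]
  set s : ℝ := G.degree u + G.degree v + 2 * (if G.Adj u v then 1 else 0) with hs
  have hxx : x ⬝ᵥ x = 2 := by
    rw [hx]
    simp [huv, huv.symm]
    norm_num
  have hxLx : x ⬝ᵥ (G.lapMatrix ℝ *ᵥ x) = s := lap_dipole huv
  have hquad : ∀ t : ℝ, (φ - t • x) ⬝ᵥ (G.lapMatrix ℝ *ᵥ (φ - t • x)) =
      resistance G u v - 4 * t + t ^ 2 * s := by
    intro t
    rw [Matrix.mulVec_sub, Matrix.mulVec_smul, hLφ, sub_dotProduct, smul_dotProduct]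
    rw [dotProduct_sub φ x, dotProduct_sub x x, dotProduct_smul, dotProduct_smul,
      hxx, hxLx]
    have h2 : φ ⬝ᵥ (G.lapMatrix ℝ *ᵥ x) = 2 := by
      rw [lap_symm_dot, hLφ, hxx]
    have h3 : φ ⬝ᵥ x = resistance G u v := by rw [hR, dotProduct_comm]
    rw [h2, h3]
    simp only [smul_eq_mul]
    ring
  have hcs := cs hc huv
  have hs0 : 0 ≤ s := by rw [← hxLx]; exact lap_quad G x
  have hs1 : 0 < s := by
    rcases hs0.eq_or_lt with h0 | h0
    · exfalso
      rw [← hs, ← h0, mul_zero] at hcs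
      linarith
    · exact h0
  have heq : resistance G u v * s = 4 := le_antisymm hle hcs
  have hzero : (φ - (2 / s) • x) ⬝ᵥ (G.lapMatrix ℝ *ᵥ (φ - (2 / s) • x)) = 0 := by
    rw [hquad]
    have : resistance G u v = 4 / s := by rw [eq_div_iff hs1.ne']; exact heq
    rw [this]
    field_simp
    ring
  have hL := lap_zero hzero
  rw [Matrix.mulVec_sub, Matrix.mulVec_smul, hLφ] at hL
  intro w hwu hwv
  have h1 := congrFun hL w
  simp only [Pi.sub_apply, Pi.smul_apply, Pi.zero_apply, smul_eq_mul] at h1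
  have h2 : x w = 0 := by
    rw [hx]; simp [hwu, hwv]
  have h3 : (G.lapMatrix ℝ *ᵥ x) w = - (if G.Adj w u then 1 else 0) +
      (if G.Adj w v then 1 else 0) := by
    rw [hx, Matrix.mulVec_sub, Matrix.mulVec_single_one, Matrix.mulVec_single_one]
    have e1 : G.lapMatrix ℝ w u = - (if G.Adj w u then 1 else 0) := by
      simp [SimpleGraph.lapMatrix, SimpleGraph.degMatrix, hwu, SimpleGraph.adjMatrix_apply]
    have e2 : G.lapMatrix ℝ w v = - (if G.Adj w v then 1 else 0) := by
      simp [SimpleGraph.lapMatrix, SimpleGraph.degMatrix, hwv, SimpleGraph.adjMatrix_apply]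
    simp only [Pi.sub_apply, Matrix.col_apply, e1, e2]
    ring
  rw [h2, h3] at h1
  have h4 : (2 / s) ≠ 0 := by positivity
  have h5 : (2 / s) * (- (if G.Adj w u then (1 : ℝ) else 0) + (if G.Adj w v then 1 else 0)) = 0 := by
    linarith
  rcases mul_eq_zero.1 h5 with h6 | h6
  · exact absurd h6 h4
  · by_cases c1 : G.Adj w u <;> by_cases c2 : G.Adj w v <;> simp [c1, c2] at h6 ⊢

end analytic

open Pool.Agent.ResSpec.CorMod in
theorem core_Qd {V : Type u} [Fintype V] [DecidableEq V] (G : SimpleGraph V) [DecidableRel G.Adj]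
    (n D : ℕ) (hn : 2 ≤ n) (hD : 2 ≤ D) (hc : G.Connected)
    (hRS : resSpec G = resSpec (completeBipartiteGraph (Fin (n + D)) (Fin n))) :
    (∀ u v, (Qd G n D u v : ℝ) = (n + D) * n * resistance G u v) ∧
    Core n D G (Qd G n D)
      (fun u => 2 * (n + D) * n - ∑ w ∈ G.neighborFinset u, Qd G n D u w) := by
  obtain ⟨hcard, hv, cA, cB, cC⟩ := cnt_proof (kmn_proof pot_proof) V G n D hn hD hRS
  have hQ := Qd_cast (G := G) (D := D) hn hv
  obtain ⟨hs1, hs2, hs3⟩ := sum_proof V G hc
  have h5 : (2 : ℝ) ≤ n := by exact_mod_cast hn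
  have h6 : (0 : ℝ) ≤ D := by positivity
  have h7 : (n : ℝ) ≠ 0 := by linarith
  have h8 : (n + D : ℝ) ≠ 0 := by linarith
  have hmn : (0 : ℝ) < (n + D) * n := by positivity
  have hT : ∀ u, ((2 * (n + D) * n - ∑ w ∈ G.neighborFinset u, Qd G n D u w : ℤ) : ℝ) =
      (n + D) * n * (2 - ∑ w ∈ G.neighborFinset u, resistance G u w) := by
    intro u
    push_cast
    rw [Finset.sum_congr rfl (fun w _ => hQ u w), ← Finset.mul_sum]
    ring
  have hval : ∀ (x : ℤ) (r : ℝ), ((x : ℤ) : ℝ) = (n + D) * n * r → ∀ u v,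
      (Qd G n D u v = x ↔ resistance G u v = r) := by
    intro x r hx u v
    constructor
    · intro h
      have h1 := hQ u v
      rw [h, hx] at h1
      exact (mul_left_cancel₀ hmn.ne' h1).symm
    · intro h
      have h1 := hQ u v
      rw [h, ← hx] at h1
      exact_mod_cast h1
  have hvA := hval (2 * n) (2 / (n + D : ℝ)) (by push_cast; field_simp)
  have hvB := hval (2 * n + D - 1) ((2 * n + D - 1 : ℝ) / ((n + D) * n))
    (by push_cast; field_simp)
  have hvC := hval (2 * n + 2 * D) (2 / (n : ℝ)) (by push_cast; field_simp)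
  refine ⟨hQ, ⟨hc, hcard, ?_, ?_, ?_, ?_, ?_, ?_, ?_, ?_, ?_, ?_⟩⟩
  · intro u v
    have h1 := hQ u v
    have h2 := hQ v u
    rw [resistance_comm, ← h2] at h1
    exact_mod_cast h1
  · intro u; unfold Qd; simp
  · intro u v huv
    rcases hv u v huv with h | h | h
    · left; exact (hvA u v).2 h
    · right; left; exact (hvB u v).2 h
    · right; right; exact (hvC u v).2 h
  · intro u; rfl
  · intro u v huv
    have h1 := hT u
    rw [hs1 u v huv] at h1
    have h2 : ((∑ w ∈ G.neighborFinset u, (Qd G n D u v - Qd G n D w v) : ℤ) : ℝ) =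
        (n + D) * n * ∑ w ∈ G.neighborFinset u, (resistance G u v - resistance G w v) := by
      push_cast
      rw [Finset.mul_sum]
      refine Finset.sum_congr rfl fun w _ => ?_
      rw [hQ, hQ]; ring
    rw [← h2] at h1
    exact_mod_cast h1
  · have h1 : ((∑ u, (2 * (n + D) * n - ∑ w ∈ G.neighborFinset u, Qd G n D u w) : ℤ) : ℝ) =
        (n + D) * n * ∑ u, (2 - ∑ w ∈ G.neighborFinset u, resistance G u w) := by
      rw [Finset.mul_sum]
      push_cast
      refine Finset.sum_congr rfl fun u _ => ?_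
      have := hT u
      push_cast at this
      exact this
    rw [hs2] at h1
    have h2 : ((2 * (n + D) * n : ℤ) : ℝ) = (n + D) * n * 2 := by push_cast; ring
    rw [← h2] at h1
    exact_mod_cast h1
  · intro u v huv
    have h1 := hs3 u v huv
    have h2 := mul_le_mul_of_nonneg_left h1 hmn.le
    have h3 : ((Qd G n D u v * (G.degree u + G.degree v + 2 * (if G.Adj u v then 1 else 0)) : ℤ) : ℝ)
        = (n + D) * n * (resistance G u v *
          (G.degree u + G.degree v + 2 * (if G.Adj u v then 1 else 0))) := by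
      push_cast
      rw [hQ]; ring
    rw [← h3] at h2
    have h4 : ((4 * ((n : ℤ) + D) * n : ℤ) : ℝ) = (n + D) * n * 4 := by push_cast; ring
    rw [← h4] at h2
    exact_mod_cast h2
  · rw [← cA]
    congr 1
    ext p
    simp only [mem_filter, mem_univ, true_and]
    rw [hvA]
  · rw [← cB]
    congr 1
    ext p
    simp only [mem_filter, mem_univ, true_and]
    rw [hvB]
  · rw [← cC]
    congr 1
    ext p
    simp only [mem_filter, mem_univ, true_and]
    rw [hvC]


end CTX_

open CTX_ in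
theorem ctx_proof : Stmt_Ctx.{u} := by
  intro V _ _ G _ n D hn hD hDn hc hRS
  obtain ⟨hQ, C⟩ := core_Qd G n D (by omega) (by omega) hc hRS
  refine ⟨_, _, ⟨C, ?_, hn, hD, hDn⟩⟩
  intro u v huv hle
  apply cseq hc huv
  have h5 : (3 : ℝ) ≤ n := by exact_mod_cast hn
  have h6 : (0 : ℝ) ≤ D := by positivity
  have hmn : (0 : ℝ) < (n + D) * n := by positivity
  have h1 : ((CorMod.Qd G n D u v * (G.degree u + G.degree v + 2 * ad G u v) : ℤ) : ℝ) ≤
      ((4 * ((n : ℤ) + D) * n : ℤ) : ℝ) := by exact_mod_cast hle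
  have h3 : ((CorMod.Qd G n D u v * (G.degree u + G.degree v + 2 * ad G u v) : ℤ) : ℝ)
        = (n + D) * n * (resistance G u v *
          (G.degree u + G.degree v + 2 * (if G.Adj u v then 1 else 0))) := by
    unfold ad
    push_cast
    rw [hQ]; ring
  have h4 : ((4 * ((n : ℤ) + D) * n : ℤ) : ℝ) = (n + D) * n * 4 := by push_cast; ring
  rw [h3, h4] at h1
  exact le_of_mul_le_mul_left h1 hmn

end Pool.Agent.RSM
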