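import Pool.Agent.RSM.Stmts

/-! # Module D3: no `M1` vertices if `D = 3` -/

set_option linter.unusedSectionVars false
set_option linter.unusedVariables false

namespace Pool.Agent.RSM

open Finset Pool.Agent.ResSpec Pool.Agent.ResSpec.LargeMod

universe u

namespace D3_

variable {V : Type u} [Fintype V] [DecidableEq V] {G : SimpleGraph V} [DecidableRel G.Adj]
  {n D : ℕ} {Q : V → V → ℤ} {T : V → ℤ}

theorem noCee (X : Ctx n D G Q T) (hD : (D : ℤ) = 3)
    (hCee : ∀ u w, 2 * n < T u → G.Adj u w → Q u w = 2 * n + D - 1 → (n : ℤ) + 1 ≤ G.degree u)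
    {w : V} (hw : T w ≤ 2 * n) (u : V) : T u ≤ 2 * n := by
  by_contra hu
  push Not at hu
  have key := X.closed (fun z => 2 * (n : ℤ) < T z) (by
    intro a b ha hab
    rcases X.vals hab.ne with h | h | h
    · exact absurd h (X.cee_not_a ha)
    · exfalso
      have h1 := hCee a b ha hab h
      have h2 := (X.cee_T ha).2
      have h3 := ga_nonneg (G := G) (Q := Q) (n := n) (D := D) a a
      have h4 := X.n3
      rw [hD] at h2
      nlinarith
    · exact (X.c_edge_cee hab h).2) hu w
  have key' : 2 * (n : ℤ) < T w := key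
  linarith

/-- the facts on `M2` vertices used here -/
def F2 (n : ℕ) (G : SimpleGraph V) [DecidableRel G.Adj] (Q : V → V → ℤ) (T : V → ℤ) (w : V) :
    Prop :=
  (G.degree w : ℤ) = n + 1 ∧ T w = 2 * n - 2 + 2 * al G Q n w w ∧ al G Q n w w ≤ 1 ∧
    ∀ v, Q w v = 2 * n → G.Adj w v ∧ T v < 0

theorem f2 (X : Ctx n D G Q T) (hD : D = 3) (h : Stmt_MTwo.{u}) {w : V} (hw : M2 n D G T w) :
    F2 n G Q T w := by
  have hNB : NB n D := by
    rintro ⟨_, h2⟩
    rw [hD] at h2
    revert h2
    decide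
  obtain ⟨_, h1, h2, h3, _, h4⟩ := h V G n D Q T X hNB w hw
  have hmu : mu n D = 2 * n - 2 := by
    rw [mu_odd (n := n) (D := D) (e := 1) (by rw [hD])]
    norm_num
  have hc : (D : ℤ) = 3 := by rw [hD]; norm_num
  rw [hmu] at h2
  rw [hc] at h2
  have h5 : ((D / 2 : ℕ) : ℤ) = 1 := by rw [hD]; norm_num
  rw [h5] at h1
  have h6 := hw.2.1
  refine ⟨h1, by linarith, ?_, h4⟩
  linarith

/-- non-adjacent pairs with one end in `M2` and the other in `M1` or `M2` are `c`-pairs -/
theorem nonadj (X : Ctx n D G Q T) (hD : (D : ℤ) = 3) {z w : V} (hz : (G.degree z : ℤ) = n + 1)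
    (hw : (G.degree w : ℤ) = n + 1 ∨ (G.degree w : ℤ) = n + 2) (hne : z ≠ w)
    (hna : ¬ G.Adj z w) : Q z w = 2 * n + 2 * D := by
  have hcs := X.cs hne
  have h3 := X.n3
  rw [ad_of_not hna, hz, hD] at hcs
  rcases X.vals hne with h | h | h
  · exfalso
    rw [h] at hcs
    rcases hw with hw | hw
    · rw [hw] at hcs; nlinarith
    · rw [hw] at hcs; nlinarith
  · exfalso
    rw [h, hD] at hcs
    rcases hw with hw | hw
    · rw [hw] at hcs; nlinarith
    · rw [hw] at hcs
      have hn : (n : ℤ) = 3 := by nlinarith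
      have htw := X.cseq z w hne (by
        rw [ad_of_not hna, hz, hw, h, hD, hn]
        norm_num)
      have hN : G.neighborFinset z = G.neighborFinset w := by
        ext x
        simp only [SimpleGraph.mem_neighborFinset]
        by_cases hxz : x = z
        · subst hxz
          simp only [SimpleGraph.irrefl, false_iff]
          exact fun h => hna h.symm
        · by_cases hxw : x = w
          · subst hxw
            simp only [SimpleGraph.irrefl, iff_false]
            exact hna
          · have := htw x hxz hxw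
            rw [G.adj_comm z x, G.adj_comm w x]
            exact this
      have hdd : G.degree z = G.degree w := by
        rw [← SimpleGraph.card_neighborFinset_eq_degree,
          ← SimpleGraph.card_neighborFinset_eq_degree, hN]
      rw [← hdd, hz] at hw
      linarith
  · exact h

/-- structure at an edge between two `M2` vertices -/
theorem edge22 (X : Ctx n D G Q T) (hD : (D : ℤ) = 3) (hnc : ∀ u, T u ≤ 2 * n)
    (hF : ∀ w, M2 n D G T w → F2 n G Q T w) {y z : V} (hy : M2 n D G T y) (hz : M2 n D G T z)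
    (hyz : G.Adj y z) :
    ∃ x, G.Adj y x ∧ x ≠ z ∧ ¬ G.Adj z x ∧ Q x z = 2 * n + 2 * D ∧
      ∀ w, G.Adj y w → w ≠ z → w ≠ x → G.Adj z w := by
  have hb : Q y z = 2 * n + D - 1 := by
    rcases X.vals hyz.ne with h | h | h
    · have := X.M2_a_hub hy hyz h
      have := hz.1
      linarith
    · exact h
    · exact absurd h (X.not_c hyz (hnc y))
  obtain ⟨dy, ty, ay, ky⟩ := hF y hy
  obtain ⟨dz, tz, az, kz⟩ := hF z hz
  have h1 := X.L2 hb
  rw [ad_of_adj hyz, hD] at h1
  have hsub : nb G Q (2 * n) y z ⊆ nb G Q (2 * n) y y := by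
    intro w hw
    rw [mem_nb] at hw ⊢
    refine ⟨hw.1, ?_⟩
    have hwz := (kz w (by rw [X.symm]; exact hw.2)).2
    rw [X.symm]
    exact X.edge_hub (hnc y) hwz hw.1
  have hle : al G Q n y z ≤ al G Q n y y := by
    unfold al
    exact_mod_cast Finset.card_le_card hsub
  have hal := al_nonneg (G := G) (Q := Q) (n := n) y z
  have hga : ga G Q n D y z = 1 ∧ al G Q n y z = al G Q n y y := by
    have h2 : 2 * ga G Q n D y z = 2 + al G Q n y z - al G Q n y y := by linarith
    constructor <;> omega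
  have heq : nb G Q (2 * n) y z = nb G Q (2 * n) y y := by
    apply Finset.eq_of_subset_of_card_le hsub
    have h2 := hga.2
    unfold al at h2
    have h3 : (nb G Q (2 * n) y z).card = (nb G Q (2 * n) y y).card := by exact_mod_cast h2
    exact h3.ge
  have hcard : (nb G Q (2 * n + 2 * D) y z).card = 1 := by
    have h2 := hga.1
    unfold ga at h2
    exact_mod_cast h2
  obtain ⟨x, hx⟩ := Finset.card_eq_one.1 hcard
  have hxm : x ∈ nb G Q (2 * n + 2 * D) y z := by rw [hx]; simp
  rw [mem_nb] at hxm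
  have hxz : x ≠ z := X.ne_of_c hxm.2
  have hnzx : ¬ G.Adj z x := by
    intro hadj
    exact X.not_c hadj (hnc z) (by rw [X.symm]; exact hxm.2)
  refine ⟨x, hxm.1, hxz, hnzx, hxm.2, ?_⟩
  intro w hw hwz hwx
  by_contra hna
  have hcc : Q z w = 2 * n + 2 * D → False := by
    intro hc
    have : w ∈ nb G Q (2 * n + 2 * D) y z := by
      rw [mem_nb]
      exact ⟨hw, by rw [X.symm]; exact hc⟩
    rw [hx] at this
    exact hwx (by simpa using this)
  rcases X.cases5 w with h | h | h | h | h
  · have hm : w ∈ nb G Q (2 * n) y y := by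
      rw [mem_nb]
      exact ⟨hw, by rw [X.symm]; exact X.edge_hub (hnc y) h hw⟩
    rw [← heq, mem_nb] at hm
    exact hna (kz w (by rw [X.symm]; exact hm.2)).1
  · have h2 := X.M0_edge h hw.symm
    rw [X.symm] at h2
    have h3 := X.M2_a_hub hy hw h2
    have h4 := h.1
    linarith
  · apply hcc
    apply nonadj X hD dz _ (Ne.symm hwz) hna
    right
    have := h.2.2
    rw [hD] at this
    linarith
  · exact hcc (nonadj X hD dz (Or.inl (hF w h).1) (Ne.symm hwz) hna)
  · have := hnc w
    linarith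

theorem no22 (X : Ctx n D G Q T) (hD : (D : ℤ) = 3) (hnc : ∀ u, T u ≤ 2 * n)
    (hF : ∀ w, M2 n D G T w → F2 n G Q T w) {y z : V} (hy : M2 n D G T y) (hz : M2 n D G T z)
    (hyz : G.Adj y z) : False := by
  obtain ⟨dy, ty, ay, ky⟩ := hF y hy
  obtain ⟨dz, tz, az, kz⟩ := hF z hz
  obtain ⟨x, x1, x2, x3, x4, x5⟩ := edge22 X hD hnc hF hy hz hyz
  obtain ⟨x', y1, y2, y3, y4, y5⟩ := edge22 X hD hnc hF hz hy hyz.symm
  have hQyx : Q y x = 2 * n + D - 1 := by
    rcases X.vals x1.ne with h | h | h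
    · have h1 := X.M2_a_hub hy x1 h
      have h2 := X.T_ge_c x4
      linarith
    · exact h
    · exact absurd h (X.not_c x1 (hnc y))
  have hxx' : x' ≠ x := by
    rintro rfl
    exact x3 y1
  have hyx' : ¬ G.Adj y x' := y3
  have ka := X.core.key y x x1.ne
  have kb := X.core.key z x (Ne.symm x2)
  rw [Finset.sum_sub_distrib, Finset.sum_const, SimpleGraph.card_neighborFinset_eq_degree]
    at ka kb
  have hC : ((G.neighborFinset y).erase z).erase x = ((G.neighborFinset z).erase y).erase x' := by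
    ext w
    simp only [Finset.mem_erase, SimpleGraph.mem_neighborFinset]
    constructor
    · rintro ⟨h1, h2, h3⟩
      refine ⟨?_, h3.ne', x5 w h3 h2 h1⟩
      rintro rfl
      exact hyx' h3
    · rintro ⟨h1, h2, h3⟩
      refine ⟨?_, h3.ne', y5 w h3 h2 h1⟩
      rintro rfl
      exact x3 h3
  have e1 : ∑ w ∈ G.neighborFinset y, Q w x =
      Q z x + (Q x x + ∑ w ∈ ((G.neighborFinset y).erase z).erase x, Q w x) := by
    have f1 : z ∈ G.neighborFinset y := by simpa using hyz
    have f2 : x ∈ (G.neighborFinset y).erase z := by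
      simp only [Finset.mem_erase, SimpleGraph.mem_neighborFinset]
      exact ⟨x2, x1⟩
    rw [Finset.add_sum_erase _ (fun w => Q w x) f2, Finset.add_sum_erase _ (fun w => Q w x) f1]
  have e2 : ∑ w ∈ G.neighborFinset z, Q w x =
      Q y x + (Q x' x + ∑ w ∈ ((G.neighborFinset z).erase y).erase x', Q w x) := by
    have f1 : y ∈ G.neighborFinset z := by simpa using hyz.symm
    have f2 : x' ∈ (G.neighborFinset z).erase y := by
      simp only [Finset.mem_erase, SimpleGraph.mem_neighborFinset]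
      exact ⟨y2, y1⟩
    rw [Finset.add_sum_erase _ (fun w => Q w x) f2, Finset.add_sum_erase _ (fun w => Q w x) f1]
  rw [e1, X.diag, nsmul_eq_mul] at ka
  rw [e2, ← hC, nsmul_eq_mul] at kb
  have hzx : Q z x = 2 * n + 2 * D := by rw [X.symm]; exact x4
  rw [hQyx, hzx, hD] at ka
  rw [hQyx, hzx, hD] at kb
  rw [show ((G.degree y : ℕ) : ℤ) = n + 1 from dy] at ka
  rw [show ((G.degree z : ℕ) : ℤ) = n + 1 from dz] at kb
  have hle : Q x' x ≤ 2 * n + 6 := by
    rcases X.vals hxx' with h | h | h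
    · linarith
    · rw [h, hD]; linarith
    · rw [h, hD]; linarith
  have h0 := al_nonneg (G := G) (Q := Q) (n := n) y y
  have h3 := X.n3
  nlinarith

end D3_

open Classical in
theorem d3_proof (hCee : Stmt_Cee.{u}) (hMOne : Stmt_MOne.{u}) (hMTwo : Stmt_MTwo.{u})
    (hM1W : Stmt_M1W.{u}) : Stmt_D3.{u} := by
  intro V _ _ G _ n D Q T X hK hD3 w₀ hw₀
  have hD : (D : ℤ) = 3 := by rw [hD3]; norm_num
  have hNB : NB n D := by
    rintro ⟨_, h2⟩
    rw [hD3] at h2
    revert h2
    decide
  have hnc : ∀ u, T u ≤ 2 * n := D3_.noCee X hD (hCee V G n D Q T X hK) hw₀.2.1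
  have hF : ∀ w, M2 n D G T w → D3_.F2 n G Q T w := fun w hw => D3_.f2 X hD3 hMTwo hw
  have hmu : mu n D = 2 * n - 2 := by
    rw [mu_odd (n := n) (D := D) (e := 1) (by rw [hD3])]
    norm_num
  obtain ⟨w, hwm, hmin⟩ := Finset.exists_min_image
    (Finset.univ.filter (fun w => M1 n D G T w)) (fun w => be G Q n D w w)
    ⟨w₀, by simpa using hw₀⟩
  have hw : M1 n D G T w := by simpa using hwm
  have hmin' : ∀ y, M1 n D G T y → be G Q n D w w ≤ be G Q n D y y := fun y hy =>
    hmin y (by simpa using hy)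
  obtain ⟨⟨y₀, hy1, hy2, hy3⟩, hall⟩ := hM1W V G n D Q T X hK hNB w hw
  have hM2 : ∀ y, G.Adj w y → Q w y = 2 * n + D - 1 → M2 n D G T y ∧
      7 ≤ be G Q n D w w := by
    intro y hay hby
    have h0 := X.mid_b (hnc w) hay hby
    obtain ⟨hA, hB⟩ := hall y hay hby (hnc y)
    rcases X.mid_cases h0 (hnc y) with h | h | h
    · exfalso
      have h1 := X.M0_edge h hay.symm
      rw [X.symm, hby, hD] at h1
      linarith
    · exfalso
      have h1 := (X.M1_T h).1
      have h2 := hmin' y h
      rw [hD] at h1 hA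
      linarith
    · refine ⟨h, ?_⟩
      have h1 := hB h
      have h2 := al_nonneg (G := G) (Q := Q) (n := n) y y
      rw [hmu, hD] at h1
      linarith
  obtain ⟨hy4, hy5⟩ := hM2 y₀ hy1 hy2
  have hstar := X.M1_star hw hy1 hy2
  rw [hD] at hstar
  have hal : al G Q n w y₀ ≤ 1 := by
    refine le_trans ?_ (hF y₀ hy4).2.2.1
    unfold al
    have : nb G Q (2 * n) w y₀ ⊆ nb G Q (2 * n) y₀ y₀ := by
      intro v hv
      rw [mem_nb] at hv ⊢
      exact ⟨((hF y₀ hy4).2.2.2 v (by rw [X.symm]; exact hv.2)).1, hv.2⟩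
    exact_mod_cast Finset.card_le_card this
  have hga : be G Q n D w w - 1 ≤ ga G Q n D w y₀ := by
    have hsub : (nb G Q (2 * n + D - 1) w w).erase y₀ ⊆ nb G Q (2 * n + 2 * D) w y₀ := by
      intro v hv
      rw [Finset.mem_erase, mem_nb] at hv
      obtain ⟨v1, v2, v3⟩ := hv
      have hv4 := (hM2 v v2 (by rw [X.symm]; exact v3)).1
      rw [mem_nb]
      refine ⟨v2, ?_⟩
      apply D3_.nonadj X hD (hF v hv4).1 (Or.inl (hF y₀ hy4).1) v1
      intro hadj
      exact D3_.no22 X hD hnc hF hv4 hy4 hadj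
    have h1 := Finset.card_le_card hsub
    have h2 := Finset.pred_card_le_card_erase (s := nb G Q (2 * n + D - 1) w w) (a := y₀)
    unfold be ga
    have h3 : ((nb G Q (2 * n + D - 1) w w).card : ℤ) - 1 ≤
        ((nb G Q (2 * n + D - 1) w w).erase y₀).card := by omega
    have h4 : (((nb G Q (2 * n + D - 1) w w).erase y₀).card : ℤ) ≤
      (nb G Q (2 * n + 2 * D) w y₀).card := by exact_mod_cast h1
    linarith
  linarith

end Pool.Agent.RSM
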