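import Pool.Agent.RSM.Stmts

/-! # Module DONE: `K_{n+1,n}` is determined by its resistance spectrum -/

set_option linter.unusedSectionVars false
set_option linter.unusedVariables false

namespace Pool.Agent.RSM

open Finset Pool.Agent.ResSpec

universe u

namespace DONE_

section defs

variable {V : Type u} [Fintype V] [DecidableEq V]

open Classical in
/-- the integer `n (n + 1) R(u,v)` -/
noncomputable def Qd (G : SimpleGraph V) (n : ℕ) (u v : V) : ℤ :=
  if u = v then 0 else if resistance G u v = 2 / (n : ℝ) then 2 * n + 2 else 2 * n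

/-- the combinatorial data -/
structure Dat (n : ℕ) (G : SimpleGraph V) [DecidableRel G.Adj] (Q : V → V → ℤ) (T : V → ℤ) :
    Prop where
  hn : 1 ≤ n
  conn : G.Connected
  card : Fintype.card V = 2 * n + 1
  symm : ∀ u v, Q u v = Q v u
  diag : ∀ u, Q u u = 0
  vals : ∀ u v, u ≠ v → Q u v = 2 * n ∨ Q u v = 2 * n + 2
  tdef : ∀ u, T u = 2 * (n + 1) * n - ∑ w ∈ G.neighborFinset u, Q u w
  key : ∀ u v, u ≠ v → T u = ∑ w ∈ G.neighborFinset u, (Q u v - Q w v)
  sumT : ∑ u, T u = 2 * (n + 1) * n
  cntC : ((Finset.univ : Finset (V × V)).filter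
    (fun p => p.1 ≠ p.2 ∧ Q p.1 p.2 = 2 * n + 2)).card = (n + 1) * n

/-- number of `w ∈ N(u)` with `Q w v = k` -/
def ct (G : SimpleGraph V) [DecidableRel G.Adj] (Q : V → V → ℤ) (k : ℤ) (u v : V) : ℤ :=
  (((G.neighborFinset u).filter (fun w => Q w v = k)).card : ℤ)

/-- number of `c`-partners -/
def cp (Q : V → V → ℤ) (n : ℕ) (u : V) : ℕ :=
  ((Finset.univ : Finset V).filter (fun y => u ≠ y ∧ Q u y = 2 * n + 2)).card

end defs

namespace Dat

variable {V : Type u} [Fintype V] [DecidableEq V] {G : SimpleGraph V} [DecidableRel G.Adj]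
  {n : ℕ} {Q : V → V → ℤ} {T : V → ℤ} (X : Dat n G Q T)
include X

theorem n1 : (1 : ℤ) ≤ n := by exact_mod_cast X.hn

theorem ct_nonneg (k : ℤ) (u v : V) : 0 ≤ ct G Q k u v := by unfold ct; positivity

theorem vals' (w v : V) : (w = v ∧ Q w v = 0) ∨ (w ≠ v ∧ Q w v = 2 * n) ∨
    (w ≠ v ∧ Q w v = 2 * n + 2) := by
  by_cases h : w = v
  · left; subst h; exact ⟨rfl, X.diag w⟩
  · right
    rcases X.vals w v h with h1 | h1
    · left; exact ⟨h, h1⟩
    · right; exact ⟨h, h1⟩

theorem deg_split (u v : V) :
    (G.degree u : ℤ) = ad G u v + ct G Q (2 * n) u v + ct G Q (2 * n + 2) u v := by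
  have h0 := X.n1
  have h1 : (G.degree u : ℤ) = ∑ w ∈ G.neighborFinset u, (1 : ℤ) := by simp
  have h2 : ad G u v = ∑ w ∈ G.neighborFinset u, (if w = v then (1 : ℤ) else 0) := by
    rw [Finset.sum_ite_eq']
    simp [ad]
  have h3 : ct G Q (2 * n) u v =
      ∑ w ∈ G.neighborFinset u, (if Q w v = 2 * n then (1 : ℤ) else 0) := by
    unfold ct; simp
  have h4 : ct G Q (2 * n + 2) u v =
      ∑ w ∈ G.neighborFinset u, (if Q w v = 2 * n + 2 then (1 : ℤ) else 0) := by
    unfold ct; simp
  rw [h1, h2, h3, h4, ← Finset.sum_add_distrib, ← Finset.sum_add_distrib]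
  refine Finset.sum_congr rfl fun w _ => ?_
  rcases X.vals' w v with ⟨h, h'⟩ | ⟨h, h'⟩ | ⟨h, h'⟩ <;> rw [h'] <;>
    simp only [h, if_true, if_false] <;> split_ifs <;> omega

theorem sum_split (u v : V) :
    ∑ w ∈ G.neighborFinset u, Q w v =
      2 * n * ct G Q (2 * n) u v + (2 * n + 2) * ct G Q (2 * n + 2) u v := by
  have h0 := X.n1
  have h3 : ct G Q (2 * n) u v =
      ∑ w ∈ G.neighborFinset u, (if Q w v = 2 * n then (1 : ℤ) else 0) := by
    unfold ct; simp
  have h4 : ct G Q (2 * n + 2) u v =
      ∑ w ∈ G.neighborFinset u, (if Q w v = 2 * n + 2 then (1 : ℤ) else 0) := by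
    unfold ct; simp
  rw [h3, h4, Finset.mul_sum, Finset.mul_sum, ← Finset.sum_add_distrib]
  refine Finset.sum_congr rfl fun w _ => ?_
  rcases X.vals' w v with ⟨h, h'⟩ | ⟨h, h'⟩ | ⟨h, h'⟩ <;> rw [h'] <;>
    split_ifs <;> omega

theorem keyQ {u v : V} (huv : u ≠ v) :
    T u = Q u v * (ad G u v + ct G Q (2 * n) u v + ct G Q (2 * n + 2) u v) -
      (2 * n * ct G Q (2 * n) u v + (2 * n + 2) * ct G Q (2 * n + 2) u v) := by
  rw [X.key u v huv, Finset.sum_sub_distrib, X.sum_split u v, ← X.deg_split u v]
  simp
  ring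

theorem L1 {u v : V} (huv : u ≠ v) (h : Q u v = 2 * n + 2) :
    T u = (2 * n + 2) * ad G u v + 2 * ct G Q (2 * n) u v := by
  rw [X.keyQ huv, h]; ring

theorem L3 {u v : V} (huv : u ≠ v) (h : Q u v = 2 * n) :
    T u = 2 * n * ad G u v - 2 * ct G Q (2 * n + 2) u v := by
  rw [X.keyQ huv, h]; ring

/-- the number of `c`-pairs -/
theorem sum_cp : ∑ u, cp Q n u = (n + 1) * n := by
  rw [← X.cntC, Finset.card_filter, Fintype.sum_prod_type]
  refine Finset.sum_congr rfl fun u _ => ?_
  unfold cp
  rw [Finset.card_filter]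

/-- (i) -/
theorem T_le (u : V) : T u ≤ 2 * n := by
  by_contra hcon
  push Not at hcon
  have h0 := X.n1
  have hall : ∀ v, u ≠ v → Q u v = 2 * n + 2 := by
    intro v hv
    rcases X.vals u v hv with h | h
    · exfalso
      have h1 := X.L3 hv h
      have h2 := X.ct_nonneg (2 * n + 2) u v
      rcases ad_cases (G := G) u v with ⟨ha, _⟩ | ⟨ha, _⟩ <;> rw [ha] at h1 <;> linarith
    · exact h
  have hF : T u = 2 * (n + 1) * n - (2 * n + 2) * G.degree u := by
    rw [X.tdef u]
    have : ∑ w ∈ G.neighborFinset u, Q u w = ∑ w ∈ G.neighborFinset u, (2 * (n : ℤ) + 2) := by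
      refine Finset.sum_congr rfl fun w hw => ?_
      rw [SimpleGraph.mem_neighborFinset] at hw
      exact hall w hw.ne
    rw [this]; simp; ring
  have hA : ∀ v, G.Adj u v → ct G Q (2 * n) u v = 0 ∧ (G.degree u : ℤ) = n - 1 := by
    intro v hv
    have h1 := X.L1 hv.ne (hall v hv.ne)
    have h2 := X.deg_split u v
    rw [ad_of_adj hv] at h1 h2
    have h3 := X.ct_nonneg (2 * n) u v
    have h4 := X.ct_nonneg (2 * n + 2) u v
    have h5 : ((n : ℤ) + 1) * (n - G.degree u - 1) = ct G Q (2 * n) u v := by linarith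
    have h6 : (n : ℤ) - G.degree u - 1 = 0 := by
      by_contra hne
      rcases lt_or_gt_of_ne hne with h7 | h7
      · have : ((n : ℤ) + 1) * (n - G.degree u - 1) < 0 := mul_neg_of_pos_of_neg (by linarith) h7
        linarith
      · have : ((n : ℤ) + 1) * 1 ≤ ((n : ℤ) + 1) * (n - G.degree u - 1) :=
          mul_le_mul_of_nonneg_left (by linarith) (by linarith)
        linarith
    rw [h6, mul_zero] at h5
    exact ⟨h5.symm, by linarith⟩
  obtain ⟨v₀, hv₀⟩ : ∃ v, G.Adj u v := by
    have hnt : Nontrivial V := by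
      rw [← Fintype.one_lt_card_iff_nontrivial, X.card]
      have := X.hn
      omega
    exact X.conn.preconnected.exists_adj_of_nontrivial u
  have hd := (hA v₀ hv₀).2
  -- pairs in the neighbourhood
  have hNN : ∀ v w, G.Adj u v → G.Adj u w → v ≠ w → Q v w = 2 * n + 2 := by
    intro v w hv hw hvw
    rcases X.vals v w hvw with h | h
    · exfalso
      have h1 := (hA w hw).1
      unfold ct at h1
      have h2 : v ∈ (G.neighborFinset u).filter (fun x => Q x w = 2 * n) := by
        rw [mem_filter, SimpleGraph.mem_neighborFinset]; exact ⟨hv, h⟩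
      have h3 := Finset.card_pos.2 ⟨v, h2⟩
      omega
    · exact h
  -- lower bounds for the numbers of c-partners
  have hlow : ∀ x, (1 : ℤ) + (if x = u then 2 * (n : ℤ) - 1 else 0) +
      (if G.Adj u x then (n : ℤ) - 2 else 0) ≤ cp Q n x := by
    intro x
    by_cases hx : x = u
    · subst hx
      rw [if_pos rfl, if_neg (G.irrefl)]
      have h1 : (Finset.univ : Finset V).erase x ⊆
          (Finset.univ : Finset V).filter (fun y => x ≠ y ∧ Q x y = 2 * n + 2) := by
        intro y hy
        have hy' : x ≠ y := (Finset.ne_of_mem_erase hy).symm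
        simp only [mem_filter, mem_univ, true_and]
        exact ⟨hy', hall y hy'⟩
      have h2 := Finset.card_le_card h1
      rw [Finset.card_erase_of_mem (mem_univ _), Finset.card_univ, X.card] at h2
      unfold cp
      omega
    · rw [if_neg hx]
      by_cases hux : G.Adj u x
      · rw [if_pos hux]
        have h1 : (insert u (G.neighborFinset u)).erase x ⊆
            (Finset.univ : Finset V).filter (fun y => x ≠ y ∧ Q x y = 2 * n + 2) := by
          intro y hy
          have hy' : x ≠ y := (Finset.ne_of_mem_erase hy).symm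
          have hy2 := Finset.mem_of_mem_erase hy
          rw [mem_insert, SimpleGraph.mem_neighborFinset] at hy2
          simp only [mem_filter, mem_univ, true_and]
          refine ⟨hy', ?_⟩
          rcases hy2 with hy2 | hy2
          · rw [hy2, X.symm]; exact hall x (Ne.symm hx)
          · exact hNN x y hux hy2 hy'
        have h2 := Finset.card_le_card h1
        rw [Finset.card_erase_of_mem (by simp [hux]), Finset.card_insert_of_notMem (by simp),
          SimpleGraph.card_neighborFinset_eq_degree] at h2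
        unfold cp
        omega
      · rw [if_neg hux]
        have h1 : u ∈ (Finset.univ : Finset V).filter (fun y => x ≠ y ∧ Q x y = 2 * n + 2) := by
          simp only [mem_filter, mem_univ, true_and]
          exact ⟨hx, by rw [X.symm]; exact hall x (Ne.symm hx)⟩
        have h2 := Finset.card_pos.2 ⟨u, h1⟩
        unfold cp
        omega
  have hs := Finset.sum_le_sum (fun x (_ : x ∈ (Finset.univ : Finset V)) => hlow x)
  rw [Finset.sum_add_distrib, Finset.sum_add_distrib, Finset.sum_ite_eq', if_pos (mem_univ _),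
    ← Finset.sum_filter] at hs
  have e1 : ∑ x : V, (1 : ℤ) = 2 * n + 1 := by
    rw [Finset.sum_const, Finset.card_univ, X.card]; simp
  have e2 : ∑ x ∈ (Finset.univ : Finset V).filter (fun x => G.Adj u x), ((n : ℤ) - 2) =
      (n - 1) * (n - 2) := by
    rw [Finset.sum_const]
    have : ((Finset.univ : Finset V).filter (fun x => G.Adj u x)) = G.neighborFinset u := by
      ext x; simp
    rw [this, SimpleGraph.card_neighborFinset_eq_degree, nsmul_eq_mul, hd]
  have e3 : ∑ x, (cp Q n x : ℤ) = (n + 1) * n := by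
    have := X.sum_cp
    exact_mod_cast this
  rw [e1, e2, e3] at hs
  linarith

/-- (ii) no `c`-edges -/
theorem edge {u v : V} (h : G.Adj u v) : Q u v = 2 * n := by
  rcases X.vals u v h.ne with h1 | h1
  · exact h1
  · exfalso
    have h2 := X.L1 h.ne h1
    rw [ad_of_adj h] at h2
    have h3 := X.ct_nonneg (2 * n) u v
    have h4 := X.T_le u
    linarith

theorem F0 (u : V) : T u = 2 * n * (n + 1 - G.degree u) := by
  rw [X.tdef u]
  have : ∑ w ∈ G.neighborFinset u, Q u w = ∑ w ∈ G.neighborFinset u, (2 * (n : ℤ)) := by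
    refine Finset.sum_congr rfl fun w hw => ?_
    rw [SimpleGraph.mem_neighborFinset] at hw
    exact X.edge hw
  rw [this]; simp; ring

theorem deg_ge (u : V) : (n : ℤ) ≤ G.degree u := by
  have h1 := X.F0 u
  have h2 := X.T_le u
  have h3 := X.n1
  by_contra hcon
  push Not at hcon
  have h4 : 2 * (n : ℤ) * 2 ≤ 2 * n * (n + 1 - G.degree u) :=
    mul_le_mul_of_nonneg_left (by linarith) (by linarith)
  linarith

theorem cp_of_deg {u : V} (hu : G.degree u = n) : cp Q n u = n := by
  have h3 := X.n1
  have hT := X.F0 u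
  rw [hu] at hT
  have h4 : (Finset.univ : Finset V).filter (fun y => u ≠ y ∧ Q u y = 2 * n + 2) =
      (Finset.univ : Finset V) \ (insert u (G.neighborFinset u)) := by
    ext y
    simp only [mem_filter, mem_univ, true_and, mem_sdiff, mem_insert,
      SimpleGraph.mem_neighborFinset, not_or]
    constructor
    · rintro ⟨h5, h6⟩
      refine ⟨Ne.symm h5, fun h7 => ?_⟩
      rw [X.edge h7] at h6
      linarith
    · rintro ⟨h5, h6⟩
      refine ⟨Ne.symm h5, ?_⟩
      rcases X.vals u y (Ne.symm h5) with h7 | h7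
      · exfalso
        have h8 := X.L3 (Ne.symm h5) h7
        rw [ad_of_not h6] at h8
        have h9 := X.ct_nonneg (2 * n + 2) u y
        have h10 : (2 : ℤ) * n * (n + 1 - n) = 2 * n := by ring
        linarith
      · exact h7
  unfold cp
  rw [h4, Finset.card_sdiff_of_subset (Finset.subset_univ _), Finset.card_univ, X.card,
    Finset.card_insert_of_notMem (by simp), SimpleGraph.card_neighborFinset_eq_degree, hu]
  omega

/-- the number of vertices of degree `n` -/
theorem card_P : ((Finset.univ : Finset V).filter (fun u => G.degree u = n)).card = n + 1 := by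
  have h3 := X.n1
  have e1 : ∑ u, ((n : ℤ) + 1 - G.degree u) = n + 1 := by
    have h1 := X.sumT
    rw [Finset.sum_congr rfl (fun u _ => X.F0 u), ← Finset.mul_sum] at h1
    have h4 : (2 * (n : ℤ)) * (∑ u, ((n : ℤ) + 1 - G.degree u)) = 2 * n * (n + 1) := by
      rw [h1]; ring
    exact mul_left_cancel₀ (by linarith) h4
  have e2 : ∑ u, ((n : ℤ) + 1 - G.degree u) ≤ ∑ u, (if G.degree u = n then (1 : ℤ) else 0) := by
    refine Finset.sum_le_sum fun u _ => ?_
    have := X.deg_ge u
    split_ifs with h
    · rw [h]; linarith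
    · have : (G.degree u : ℤ) ≠ n := by exact_mod_cast h
      omega
  have e3 : ∑ u, (if G.degree u = n then (1 : ℤ) else 0) =
      ((Finset.univ : Finset V).filter (fun u => G.degree u = n)).card := by
    simp
  have e4 : ∑ u, (if G.degree u = n then n else 0) ≤ ∑ u, cp Q n u := by
    refine Finset.sum_le_sum fun u _ => ?_
    split_ifs with h
    · rw [X.cp_of_deg h]
    · exact Nat.zero_le _
  rw [X.sum_cp, ← Finset.sum_filter, Finset.sum_const, smul_eq_mul] at e4
  have e5 := Nat.le_of_mul_le_mul_right e4 X.hn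
  rw [e1, e3] at e2
  omega

theorem deg_other {u : V} (hu : G.degree u ≠ n) : G.degree u = n + 1 := by
  have h3 := X.n1
  have e1 : ∑ u, ((n : ℤ) + 1 - G.degree u) = n + 1 := by
    have h1 := X.sumT
    rw [Finset.sum_congr rfl (fun u _ => X.F0 u), ← Finset.mul_sum] at h1
    have h4 : (2 * (n : ℤ)) * (∑ u, ((n : ℤ) + 1 - G.degree u)) = 2 * n * (n + 1) := by
      rw [h1]; ring
    exact mul_left_cancel₀ (by linarith) h4
  have e2 : ∀ u ∈ (Finset.univ : Finset V),
      ((n : ℤ) + 1 - G.degree u) ≤ (if G.degree u = n then (1 : ℤ) else 0) := by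
    intro u _
    have := X.deg_ge u
    split_ifs with h
    · rw [h]; linarith
    · have : (G.degree u : ℤ) ≠ n := by exact_mod_cast h
      omega
  have e3 : ∑ u, (if G.degree u = n then (1 : ℤ) else 0) = n + 1 := by
    have := X.card_P
    rw [← Finset.sum_filter, Finset.sum_const, this]; simp
  have e4 := (Finset.sum_eq_sum_iff_of_le e2).1 (by rw [e1, e3]) u (mem_univ _)
  rw [if_neg hu] at e4
  omega

theorem cp_other {u : V} (hu : G.degree u ≠ n) : cp Q n u = 0 := by
  have e2 : ∀ u ∈ (Finset.univ : Finset V),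
      (if G.degree u = n then n else 0) ≤ cp Q n u := by
    intro u _
    split_ifs with h
    · rw [X.cp_of_deg h]
    · exact Nat.zero_le _
  have e3 : ∑ u, (if G.degree u = n then n else 0) = (n + 1) * n := by
    rw [← Finset.sum_filter, Finset.sum_const, X.card_P, smul_eq_mul]
  have e4 := (Finset.sum_eq_sum_iff_of_le e2).1 (by rw [e3, X.sum_cp]) u (mem_univ _)
  rw [if_neg hu] at e4
  exact e4.symm

/-- the set of the vertices of degree `n` is independent -/
theorem P_indep {u v : V} (hu : G.degree u = n) (hv : G.degree v = n) : ¬ G.Adj u v := by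
  intro huv
  have h1 := X.n1
  have hsub : (Finset.univ : Finset V).filter (fun y => u ≠ y ∧ Q u y = 2 * n + 2) ⊆
      ((Finset.univ : Finset V).filter (fun u => G.degree u = n)).erase u := by
    intro y hy
    simp only [mem_filter, mem_univ, true_and] at hy
    rw [mem_erase]
    refine ⟨Ne.symm hy.1, ?_⟩
    simp only [mem_filter, mem_univ, true_and]
    by_contra hd
    have h2 := X.cp_other hd
    unfold cp at h2
    rw [Finset.card_eq_zero] at h2
    have h3 : u ∈ (Finset.univ : Finset V).filter (fun x => y ≠ x ∧ Q y x = 2 * n + 2) := by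
      simp only [mem_filter, mem_univ, true_and]
      exact ⟨Ne.symm hy.1, by rw [X.symm]; exact hy.2⟩
    rw [h2] at h3
    exact absurd h3 (Finset.notMem_empty _)
  have hcard : (((Finset.univ : Finset V).filter (fun u => G.degree u = n)).erase u).card ≤
      ((Finset.univ : Finset V).filter (fun y => u ≠ y ∧ Q u y = 2 * n + 2)).card := by
    rw [Finset.card_erase_of_mem (by simp [hu]), X.card_P]
    have := X.cp_of_deg hu
    unfold cp at this
    rw [this]; omega
  have heq := Finset.eq_of_subset_of_card_le hsub hcard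
  have hmem : v ∈ ((Finset.univ : Finset V).filter (fun u => G.degree u = n)).erase u := by
    rw [mem_erase]
    exact ⟨huv.ne', by simp [hv]⟩
  rw [← heq] at hmem
  simp only [mem_filter, mem_univ, true_and] at hmem
  rw [X.edge huv] at hmem
  linarith [hmem.2]

theorem card_S : ((Finset.univ : Finset V).filter (fun u => G.degree u ≠ n)).card = n := by
  have h1 := X.card_P
  have h2 := Finset.card_filter_add_card_filter_not (s := (Finset.univ : Finset V))
    (fun u => G.degree u = n)
  rw [h1, Finset.card_univ, X.card] at h2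
  simp only [ne_eq]
  omega

theorem P_nbr {u : V} (hu : G.degree u = n) :
    G.neighborFinset u = (Finset.univ : Finset V).filter (fun u => G.degree u ≠ n) := by
  apply Finset.eq_of_subset_of_card_le
  · intro v hv
    rw [SimpleGraph.mem_neighborFinset] at hv
    simp only [mem_filter, mem_univ, true_and]
    intro h
    exact X.P_indep hu h hv
  · rw [X.card_S, SimpleGraph.card_neighborFinset_eq_degree, hu]

theorem S_nbr {u : V} (hu : G.degree u ≠ n) :
    (Finset.univ : Finset V).filter (fun u => G.degree u = n) = G.neighborFinset u := by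
  apply Finset.eq_of_subset_of_card_le
  · intro v hv
    simp only [mem_filter, mem_univ, true_and] at hv
    rw [SimpleGraph.mem_neighborFinset]
    have h1 : u ∈ G.neighborFinset v := by rw [X.P_nbr hv]; simp [hu]
    rw [SimpleGraph.mem_neighborFinset] at h1
    exact h1.symm
  · rw [X.card_P, SimpleGraph.card_neighborFinset_eq_degree, X.deg_other hu]

theorem main : Nonempty (G ≃g completeBipartiteGraph (Fin (n + 1)) (Fin n)) := by
  apply FinMod.iso_of_adj (D := 1) X.card
    ((Finset.univ : Finset V).filter (fun u => G.degree u ≠ n)) X.card_S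
  intro u v
  simp only [mem_filter, mem_univ, true_and]
  by_cases hu : G.degree u = n
  · have h1 := X.P_nbr hu
    have h2 : G.Adj u v ↔ G.degree v ≠ n := by
      rw [← SimpleGraph.mem_neighborFinset, h1]; simp
    rw [h2]
    simp [hu]
  · have h1 := X.S_nbr hu
    have h2 : G.Adj u v ↔ G.degree v = n := by
      rw [← SimpleGraph.mem_neighborFinset, ← h1]; simp
    rw [h2]
    simp [hu]

end Dat

end DONE_

open DONE_ in
theorem done_proof (hC : Stmt_Cntg.{u}) : Stmt_DOne.{u} := by
  intro V _ _ G n hn hc hRS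
  classical
  obtain ⟨hcard, hv, hcnt⟩ := hC V G (n + 1) n (by omega) hn hRS
  obtain ⟨hs1, hs2, hs3⟩ := sum_proof V G hc
  have h5 : (1 : ℝ) ≤ n := by exact_mod_cast hn
  have h7 : (n : ℝ) ≠ 0 := by linarith
  have h8 : ((n : ℝ) + 1) ≠ 0 := by linarith
  have hmn : (0 : ℝ) < (n + 1) * n := by positivity
  have hv' : ∀ u v, u ≠ v → resistance G u v = 2 / (n : ℝ) ∨
      resistance G u v = 2 / ((n : ℝ) + 1) := by
    intro u v huv
    rcases hv u v huv with h | h | h
    · left; exact h
    · right
      rw [h]; push_cast; field_simp; ring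
    · right; rw [h]; push_cast; rfl
  have hne : (2 : ℝ) / n ≠ 2 / ((n : ℝ) + 1) := by
    intro h
    rw [div_eq_div_iff h7 h8] at h
    linarith
  have hQ : ∀ u v, (Qd G n u v : ℝ) = (n + 1) * n * resistance G u v := by
    intro u v
    unfold Qd
    by_cases huv : u = v
    · rw [if_pos huv, huv, CorMod.res_self]; simp
    · rw [if_neg huv]
      split_ifs with h1
      · rw [h1]; push_cast; field_simp
      · rcases hv' u v huv with h | h
        · exact absurd h h1
        · rw [h]; push_cast; field_simp
  have hT : ∀ u, ((2 * (n + 1) * n - ∑ w ∈ G.neighborFinset u, Qd G n u w : ℤ) : ℝ) =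
      (n + 1) * n * (2 - ∑ w ∈ G.neighborFinset u, resistance G u w) := by
    intro u
    push_cast
    rw [Finset.sum_congr rfl (fun w _ => hQ u w), ← Finset.mul_sum]
    ring
  have hval : ∀ (x : ℤ) (r : ℝ), ((x : ℤ) : ℝ) = (n + 1) * n * r → ∀ u v,
      (Qd G n u v = x ↔ resistance G u v = r) := by
    intro x r hx u v
    constructor
    · intro h
      have h1 := hQ u v
      rw [h, hx] at h1
      exact (mul_left_cancel₀ hmn.ne' h1).symm
    · intro h
      have h1 := hQ u v
      rw [h, ← hx] at h1
      exact_mod_cast h1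
  have hvA := hval (2 * n) (2 / ((n : ℝ) + 1)) (by push_cast; field_simp)
  have hvC := hval (2 * n + 2) (2 / (n : ℝ)) (by push_cast; field_simp)
  have X : Dat n G (Qd G n) (fun u => 2 * (n + 1) * n - ∑ w ∈ G.neighborFinset u, Qd G n u w) := by
    refine ⟨hn, hc, by omega, ?_, ?_, ?_, ?_, ?_, ?_, ?_⟩
    · intro u v
      have h1 := hQ u v
      have h2 := hQ v u
      rw [resistance_comm, ← h2] at h1
      exact_mod_cast h1
    · intro u; unfold Qd; simp
    · intro u v huv
      rcases hv' u v huv with h | h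
      · right; exact (hvC u v).2 h
      · left; exact (hvA u v).2 h
    · intro u; rfl
    · intro u v huv
      have h1 := hT u
      rw [hs1 u v huv] at h1
      have h2 : ((∑ w ∈ G.neighborFinset u, (Qd G n u v - Qd G n w v) : ℤ) : ℝ) =
          (n + 1) * n * ∑ w ∈ G.neighborFinset u, (resistance G u v - resistance G w v) := by
        push_cast
        rw [Finset.mul_sum]
        refine Finset.sum_congr rfl fun w _ => ?_
        rw [hQ, hQ]; ring
      rw [← h2] at h1
      exact_mod_cast h1
    · have h1 : ((∑ u, (2 * (n + 1) * n - ∑ w ∈ G.neighborFinset u, Qd G n u w) : ℤ) : ℝ) =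
          (n + 1) * n * ∑ u, (2 - ∑ w ∈ G.neighborFinset u, resistance G u w) := by
        rw [Finset.mul_sum]
        push_cast
        refine Finset.sum_congr rfl fun u _ => ?_
        have := hT u
        push_cast at this
        exact this
      rw [hs2] at h1
      have h2 : ((2 * (n + 1) * n : ℤ) : ℝ) = (n + 1) * n * 2 := by push_cast; ring
      rw [← h2] at h1
      exact_mod_cast h1
    · have h1 := hcnt (2 / (n : ℝ))
      rw [if_pos rfl, if_neg (by
        intro h
        apply hne
        rw [h]; push_cast; field_simp; ring), if_neg (by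
        intro h
        apply hne
        rw [h]; push_cast; rfl)] at h1
      rw [show (n + 1) * n = (n + 1) * (n + 1 - 1) + 0 + 0 by simp, ← h1]
      congr 1
      ext p
      simp only [mem_filter, mem_univ, true_and]
      rw [hvC]
  exact X.main

end Pool.Agent.RSM
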