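import Pool.Agent.RSM.Stmts

/-! # Module DZERO: `K_{n,n}` -/

set_option linter.unusedSectionVars false
set_option linter.unusedVariables false

namespace Pool.Agent.RSM

open Finset Pool.Agent.ResSpec Pool.Agent.ResSpec.LargeMod

universe u

namespace DZERO_

variable {V : Type u} [Fintype V] [DecidableEq V] (G : SimpleGraph V) [DecidableRel G.Adj]

theorem sum_ad (u : V) : ∑ v, (if G.Adj u v then (1 : ℤ) else 0) = G.degree u := by
  rw [← SimpleGraph.card_neighborFinset_eq_degree, SimpleGraph.neighborFinset_eq_filter,
    Finset.card_filter]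
  push_cast
  rfl

theorem sum_ad' (v : V) : ∑ u, (if G.Adj u v then (1 : ℤ) else 0) = G.degree v := by
  rw [← sum_ad]
  exact Finset.sum_congr rfl fun u _ => by simp only [G.adj_comm]

/-- the finish -/
theorem finish {n : ℕ} (hn : 1 ≤ n) (hcard : Fintype.card V = 2 * n)
    (hdeg : ∀ u, G.degree u = n) (htri : ∀ u v w, G.Adj u v → G.Adj u w → ¬ G.Adj w v) :
    Nonempty (G ≃g completeBipartiteGraph (Fin n) (Fin n)) := by
  have hne : Nonempty V := by
    rw [← Fintype.card_pos_iff]; omega
  obtain ⟨u0⟩ := hne
  set S := G.neighborFinset u0 with hS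
  have hSc : S.card = n := by rw [hS, SimpleGraph.card_neighborFinset_eq_degree, hdeg]
  have hSc' : (Sᶜ).card = n := by rw [Finset.card_compl, hcard, hSc]; omega
  have h1 : ∀ u ∈ S, G.neighborFinset u = Sᶜ := by
    intro u hu
    apply Finset.eq_of_subset_of_card_le
    · intro w hw
      rw [Finset.mem_compl]
      intro hwS
      rw [hS, SimpleGraph.mem_neighborFinset] at hu hwS
      rw [SimpleGraph.mem_neighborFinset] at hw
      exact htri u0 w u hwS hu hw
    · rw [hSc', SimpleGraph.card_neighborFinset_eq_degree, hdeg]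
  have h2 : ∀ u, u ∉ S → G.neighborFinset u = S := by
    intro u hu
    symm
    apply Finset.eq_of_subset_of_card_le
    · intro w hw
      have h3 : u ∈ G.neighborFinset w := by
        rw [h1 w hw, Finset.mem_compl]; exact hu
      rw [SimpleGraph.mem_neighborFinset] at h3 ⊢
      exact h3.symm
    · rw [hSc, SimpleGraph.card_neighborFinset_eq_degree, hdeg]
  have := FinMod.iso_of_adj (G := G) (n := n) (D := 0) (by rw [hcard]; rfl) S hSc (by
    intro u v
    rw [← SimpleGraph.mem_neighborFinset]
    by_cases hu : u ∈ S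
    · rw [h1 u hu]; simp [hu]
    · rw [h2 u hu]; simp [hu])
  exact this

end DZERO_

open DZERO_

theorem dzero_proof (hcnt : Stmt_Cntg.{u}) : Stmt_DZero.{u} := by
  intro V _ _ G n hn hc hRS
  classical
  obtain ⟨hcard, hvals, hcount⟩ := hcnt V G n n hn hn hRS
  obtain ⟨hs1, hs2, hs3⟩ := sum_proof V G hc
  have hnR : (1 : ℝ) ≤ n := by exact_mod_cast hn
  have hn0 : (n : ℝ) ≠ 0 := by positivity
  have hnZ : (1 : ℤ) ≤ n := by exact_mod_cast hn
  set r : ℝ := (2 * n - 1) / n ^ 2 with hr
  have hr1 : (n + n - 1 : ℝ) / (n * n) = r := by rw [hr]; congr 1 <;> ring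
  have hr0 : 0 < r := by
    rw [hr]; apply div_pos
    · linarith
    · positivity
  have hr2 : r < 2 / n := by
    rw [hr, div_lt_div_iff₀ (by positivity) (by positivity)]
    nlinarith
  rw [hr1] at hvals
  have hcard' : Fintype.card V = 2 * n := by rw [hcard]; ring
  -- values
  have hv : ∀ u v, u ≠ v → resistance G u v = r ∨ resistance G u v = 2 / (n : ℝ) := by
    intro u v huv
    rcases hvals u v huv with h | h | h
    · right; exact h
    · left; exact h
    · right; exact h
  have hge : ∀ u v, u ≠ v → r ≤ resistance G u v := by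
    intro u v huv
    rcases hv u v huv with h | h
    · rw [h]
    · rw [h]; exact hr2.le
  -- the number of `r`-pairs
  have hcnt1 := hcount r
  rw [hr1, if_neg hr2.ne, if_pos rfl, zero_add, add_zero] at hcnt1
  have hcnt2 : ∑ u, ∑ v, (if u ≠ v ∧ resistance G u v = r then (1 : ℤ) else 0) = 2 * n * n := by
    rw [← Fintype.sum_prod_type' (f := fun u v => if u ≠ v ∧ resistance G u v = r then (1 : ℤ) else 0)]
    rw [Finset.card_filter] at hcnt1
    have h2 : ((∑ p : V × V, (if p.1 ≠ p.2 ∧ resistance G p.1 p.2 = r then 1 else 0) : ℕ) : ℤ) =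
        ((2 * n * n : ℕ) : ℤ) := by rw [← hcnt1]
    push_cast at h2
    exact h2
  set S : ℤ := ∑ u, (G.degree u : ℤ) with hSdef
  -- Foster
  have hfos : ∑ u, ∑ w ∈ G.neighborFinset u, resistance G u w = 4 * n - 2 := by
    rw [Finset.sum_sub_distrib, Finset.sum_const, Finset.card_univ, hcard', nsmul_eq_mul] at hs2
    push_cast at hs2
    linarith
  have hfos2 : ∑ u, ∑ w ∈ G.neighborFinset u, (resistance G u w - r) = 4 * n - 2 - r * S := by
    rw [← hfos, hSdef]
    push_cast
    rw [Finset.mul_sum, ← Finset.sum_sub_distrib]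
    refine Finset.sum_congr rfl fun u _ => ?_
    rw [Finset.sum_sub_distrib, Finset.sum_const, SimpleGraph.card_neighborFinset_eq_degree,
      nsmul_eq_mul]
    ring
  have hterm : ∀ u, ∀ w ∈ G.neighborFinset u, 0 ≤ resistance G u w - r := by
    intro u w hw
    rw [SimpleGraph.mem_neighborFinset] at hw
    have := hge u w hw.ne
    linarith
  have hSle : S ≤ 2 * n * n := by
    have h1 : 0 ≤ ∑ u, ∑ w ∈ G.neighborFinset u, (resistance G u w - r) :=
      Finset.sum_nonneg fun u _ => Finset.sum_nonneg (hterm u)
    rw [hfos2] at h1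
    have h2 : (S : ℝ) ≤ 2 * n * n := by
      by_contra hcon
      push Not at hcon
      have h3 : r * (2 * n * n) < r * S := mul_lt_mul_of_pos_left hcon hr0
      have h4 : r * (2 * n * n) = 4 * n - 2 := by
        rw [hr]; field_simp; ring
      linarith
    exact_mod_cast h2
  -- Cauchy-Schwarz
  have hcs : ∀ u v, u ≠ v → 2 * (n : ℤ) + 2 * (if u ≠ v ∧ resistance G u v = r then 1 else 0) ≤
      G.degree u + G.degree v + 2 * (if G.Adj u v then 1 else 0) := by
    intro u v huv
    have h1 := hs3 u v huv
    set F : ℤ := G.degree u + G.degree v + 2 * (if G.Adj u v then 1 else 0) with hF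
    have hFr : (G.degree u + G.degree v + 2 * (if G.Adj u v then 1 else 0) : ℝ) = (F : ℝ) := by
      rw [hF]; push_cast; split_ifs <;> simp
    rw [hFr] at h1
    rcases hv u v huv with h | h
    · rw [if_pos ⟨huv, h⟩]
      rw [h, hr] at h1
      have h2 : 4 * (n : ℝ) ^ 2 ≤ (2 * n - 1) * F := by
        rw [div_mul_eq_mul_div, le_div_iff₀ (by positivity)] at h1
        linarith
      have h3 : 4 * (n : ℤ) ^ 2 ≤ (2 * n - 1) * F := by exact_mod_cast h2
      by_contra hcon
      push Not at hcon
      have h4 : F ≤ 2 * n + 1 := by linarith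
      nlinarith
    · have hne : ¬ (u ≠ v ∧ resistance G u v = r) := by
        rintro ⟨_, h5⟩
        rw [h] at h5
        exact hr2.ne' h5
      rw [if_neg hne]
      rw [h] at h1
      have h2 : 2 * (n : ℝ) ≤ F := by
        rw [div_mul_eq_mul_div, le_div_iff₀ (by positivity)] at h1
        linarith
      have h3 : 2 * (n : ℤ) ≤ F := by exact_mod_cast h2
      linarith
  -- the double sum
  have hdbl : ∑ u, ∑ v, (if u ≠ v then (G.degree u + G.degree v +
      2 * (if G.Adj u v then 1 else 0) : ℤ) - (2 * (n : ℤ) +
      2 * (if u ≠ v ∧ resistance G u v = r then 1 else 0)) else 0) = 4 * n * (S - 2 * n * n) := by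
    have e1 : ∀ u, ∑ v, (if u ≠ v then (G.degree u + G.degree v +
      2 * (if G.Adj u v then 1 else 0) : ℤ) - (2 * (n : ℤ) +
      2 * (if u ≠ v ∧ resistance G u v = r then 1 else 0)) else 0) =
      (2 * n) * G.degree u + S + 2 * G.degree u - 2 * G.degree u - 2 * n * (2 * n) + 2 * n -
        2 * ∑ v, (if u ≠ v ∧ resistance G u v = r then (1 : ℤ) else 0) := by
      intro u
      have e2 : ∀ v, (if u ≠ v then (G.degree u + G.degree v +
          2 * (if G.Adj u v then 1 else 0) : ℤ) - (2 * (n : ℤ) +
          2 * (if u ≠ v ∧ resistance G u v = r then 1 else 0)) else 0) =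
          (G.degree u : ℤ) + G.degree v + 2 * (if G.Adj u v then 1 else 0) - 2 * n -
          2 * (if u ≠ v ∧ resistance G u v = r then 1 else 0) -
          (if u = v then 2 * (G.degree u : ℤ) - 2 * n else 0) := by
        intro v
        by_cases huv : u = v
        · subst huv
          simp
          ring
        · simp only [huv, ne_eq, not_false_eq_true, if_true, if_false]
          ring
      rw [Finset.sum_congr rfl fun v _ => e2 v]
      simp only [Finset.sum_sub_distrib, Finset.sum_add_distrib, ← Finset.mul_sum,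
        Finset.sum_const, Finset.card_univ, hcard', nsmul_eq_mul, sum_ad, Finset.sum_ite_eq,
        Finset.mem_univ, if_true]
      push_cast
      rw [← hSdef]
      ring
    rw [Finset.sum_congr rfl fun u _ => e1 u]
    simp only [Finset.sum_sub_distrib, Finset.sum_add_distrib, ← Finset.mul_sum,
        Finset.sum_const, Finset.card_univ, hcard', nsmul_eq_mul]
    rw [hcnt2, ← hSdef]
    push_cast
    ring
  have hnn : ∀ u v, 0 ≤ (if u ≠ v then (G.degree u + G.degree v +
      2 * (if G.Adj u v then 1 else 0) : ℤ) - (2 * (n : ℤ) +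
      2 * (if u ≠ v ∧ resistance G u v = r then 1 else 0)) else 0) := by
    intro u v
    by_cases huv : u = v
    · rw [if_neg (by simpa using huv)]
    · rw [if_pos huv]
      have := hcs u v huv
      linarith
  have hSge : 2 * (n : ℤ) * n ≤ S := by
    have h1 : 0 ≤ 4 * (n : ℤ) * (S - 2 * n * n) := by
      rw [← hdbl]
      exact Finset.sum_nonneg fun u _ => Finset.sum_nonneg fun v _ => hnn u v
    by_contra hcon
    push Not at hcon
    nlinarith
  have hS : S = 2 * n * n := le_antisymm hSle hSge
  have heq : ∀ u v, u ≠ v → (G.degree u + G.degree v + 2 * (if G.Adj u v then 1 else 0) : ℤ) =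
      2 * (n : ℤ) + 2 * (if u ≠ v ∧ resistance G u v = r then 1 else 0) := by
    rw [hS, sub_self, mul_zero] at hdbl
    have h1 := (Finset.sum_eq_zero_iff_of_nonneg
      (fun u _ => Finset.sum_nonneg fun v _ => hnn u v)).1 hdbl
    intro u v huv
    have h2 := (Finset.sum_eq_zero_iff_of_nonneg (fun v _ => hnn u v)).1 (h1 u (mem_univ u)) v
      (mem_univ v)
    rw [if_pos huv] at h2
    linarith
  -- edges have resistance `r`
  have hedge : ∀ u w, G.Adj u w → resistance G u w = r := by
    have h0 : ∑ u, ∑ w ∈ G.neighborFinset u, (resistance G u w - r) = 0 := by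
      rw [hfos2, hS, hr]
      push_cast
      field_simp
      ring
    have h1 := (Finset.sum_eq_zero_iff_of_nonneg
      (fun u _ => Finset.sum_nonneg (hterm u))).1 h0
    intro u w huw
    have h2 := (Finset.sum_eq_zero_iff_of_nonneg (hterm u)).1 (h1 u (mem_univ u)) w
      (by rw [SimpleGraph.mem_neighborFinset]; exact huw)
    linarith
  have hadj : ∀ u v, u ≠ v → resistance G u v = r → G.Adj u v := by
    have hnn2 : ∀ u v, 0 ≤ (if u ≠ v ∧ resistance G u v = r then (1 : ℤ) else 0) -
        (if G.Adj u v then 1 else 0) := by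
      intro u v
      by_cases h : G.Adj u v
      · rw [if_pos h, if_pos ⟨h.ne, hedge u v h⟩]; norm_num
      · rw [if_neg h]
        split_ifs <;> norm_num
    have h0 : ∑ u, ∑ v, ((if u ≠ v ∧ resistance G u v = r then (1 : ℤ) else 0) -
        (if G.Adj u v then 1 else 0)) = 0 := by
      simp only [Finset.sum_sub_distrib, sum_ad]
      rw [hcnt2, ← hSdef, hS, sub_self]
    have h1 := (Finset.sum_eq_zero_iff_of_nonneg
      (fun u _ => Finset.sum_nonneg fun v _ => hnn2 u v)).1 h0
    intro u v huv hR
    have h2 := (Finset.sum_eq_zero_iff_of_nonneg (fun v _ => hnn2 u v)).1 (h1 u (mem_univ u)) v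
      (mem_univ v)
    rw [if_pos ⟨huv, hR⟩] at h2
    by_contra hna
    rw [if_neg hna] at h2
    norm_num at h2
  have hdsum : ∀ u v, u ≠ v → (G.degree u : ℤ) + G.degree v = 2 * n := by
    intro u v huv
    have h1 := heq u v huv
    by_cases h : G.Adj u v
    · rw [if_pos h, if_pos ⟨huv, hedge u v h⟩] at h1
      linarith
    · rw [if_neg h, if_neg (fun h2 => h (hadj u v huv h2.2))] at h1
      linarith
  have hdeg : ∀ u, G.degree u = n := by
    intro u
    have h1 : (G.degree u : ℤ) = n := by
      have h2 : ∑ v, (if u = v then (0 : ℤ) else (G.degree u + G.degree v - 2 * n)) = 0 := by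
        refine Finset.sum_eq_zero fun v _ => ?_
        by_cases huv : u = v
        · rw [if_pos huv]
        · rw [if_neg huv, hdsum u v huv, sub_self]
      have h3 : ∀ v, (if u = v then (0 : ℤ) else (G.degree u + G.degree v - 2 * n)) =
          (G.degree u : ℤ) + G.degree v - 2 * n - (if u = v then 2 * (G.degree u : ℤ) - 2 * n
            else 0) := by
        intro v
        by_cases huv : u = v
        · subst huv
          rw [if_pos rfl, if_pos rfl]
          ring
        · rw [if_neg huv, if_neg huv]
          ring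
      rw [Finset.sum_congr rfl fun v _ => h3 v] at h2
      simp only [Finset.sum_sub_distrib, Finset.sum_add_distrib, Finset.sum_const,
        Finset.card_univ, hcard', nsmul_eq_mul, Finset.sum_ite_eq, Finset.mem_univ, if_true] at h2
      rw [← hSdef, hS] at h2
      push_cast at h2
      have h5 : (2 * (n : ℤ) - 2) * (G.degree u - n) = 0 := by linarith
      rcases mul_eq_zero.1 h5 with h6 | h6
      · -- `n = 1`
        have hn1 : (n : ℤ) = 1 := by linarith
        have hn1' : n = 1 := by exact_mod_cast hn1
        have hc2 : Fintype.card V = 2 := by rw [hcard', hn1']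
        have hnt : Nontrivial V := by
          rw [← Fintype.one_lt_card_iff_nontrivial, hc2]; norm_num
        have hpos : 0 < G.degree u := hc.preconnected.degree_pos_of_nontrivial u
        have hlt : G.degree u < 2 := by
          have := G.degree_lt_card_verts u
          rw [hc2] at this
          exact this
        rw [hn1]
        have : G.degree u = 1 := by omega
        exact_mod_cast this
      · linarith
    exact_mod_cast h1
  have htri : ∀ u v w, G.Adj u v → G.Adj u w → ¬ G.Adj w v := by
    intro u v w huv huw hwv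
    have h1 := hs1 u v huv.ne
    have hL : (2 : ℝ) - ∑ w ∈ G.neighborFinset u, resistance G u w = 2 - n * r := by
      rw [Finset.sum_congr rfl (fun w hw => hedge u w (by
        rw [SimpleGraph.mem_neighborFinset] at hw; exact hw)), Finset.sum_const,
        SimpleGraph.card_neighborFinset_eq_degree, hdeg, nsmul_eq_mul]
    rw [hL, hedge u v huv] at h1
    have hmem : v ∈ G.neighborFinset u := by rw [SimpleGraph.mem_neighborFinset]; exact huv
    have hRvv : resistance G v v = 0 := by unfold resistance; simp
    rw [← Finset.add_sum_erase _ _ hmem, hRvv, sub_zero] at h1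
    have hw' : w ∈ (G.neighborFinset u).erase v := by
      rw [Finset.mem_erase, SimpleGraph.mem_neighborFinset]
      exact ⟨hwv.ne, huw⟩
    rw [← Finset.add_sum_erase _ _ hw', hedge w v hwv, sub_self, zero_add] at h1
    have h2 : ∀ z ∈ ((G.neighborFinset u).erase v).erase w, r - 2 / n ≤ r - resistance G z v := by
      intro z hz
      have hzv : z ≠ v := by
        rw [Finset.mem_erase, Finset.mem_erase] at hz
        exact hz.2.1
      rcases hv z v hzv with h | h
      · rw [h]; linarith
      · rw [h]
    have h3 := Finset.card_nsmul_le_sum _ _ _ h2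
    have h4 : (((G.neighborFinset u).erase v).erase w).card + 2 = n := by
      have e1 := Finset.card_erase_add_one hw'
      have e2 := Finset.card_erase_add_one hmem
      rw [SimpleGraph.card_neighborFinset_eq_degree, hdeg] at e2
      omega
    have h5 : ((((G.neighborFinset u).erase v).erase w).card : ℝ) = n - 2 := by
      have : ((((G.neighborFinset u).erase v).erase w).card : ℝ) + 2 = n := by exact_mod_cast h4
      linarith
    rw [nsmul_eq_mul, h5] at h3
    have h6 : r - 2 / n = -(1 / n ^ 2) := by
      rw [hr]; field_simp; ring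
    have h7 : 2 - n * r = 1 / n := by
      rw [hr]; field_simp; ring
    rw [h6] at h3
    rw [h7] at h1
    have h8 : (1 : ℝ) / n = n * (1 / n ^ 2) := by field_simp
    have h9 : r = (2 * n - 1) * (1 / n ^ 2) := by rw [hr]; ring
    have h10 : (0 : ℝ) < 1 / n ^ 2 := by positivity
    rw [h8, h9] at h1
    rw [h9] at h3
    nlinarith
  exact finish G hn hcard' hdeg htri

end Pool.Agent.RSM
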