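import Pool.Agent.ResSpec.Lap

/-!
# The resistance spectrum, defined through the Moore-Penrose pseudoinverse of the Laplacian

`lapPinv G` is the Moore-Penrose pseudoinverse of the Laplacian of `G` (defined by the four Penrose
conditions; for connected `G` it exists and is unique: `lapPinv_spec`), `effRes G u v` is the
resistance distance `(e_u - e_v)ᵀ L⁺ (e_u - e_v)` and `resistanceSpectrum G` is the multiset of the
resistance distances over all unordered pairs of distinct vertices.
-/

set_option linter.unusedSectionVars false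

namespace Pool.Agent.RSM

open Finset Matrix Pool.Agent.ResSpec

universe u

variable {V : Type u} [Fintype V] [DecidableEq V]

/-- the four Penrose conditions: `X` is a Moore-Penrose pseudoinverse of the real matrix `A` -/
def IsMoorePenrose (A X : Matrix V V ℝ) : Prop :=
  A * X * A = A ∧ X * A * X = X ∧ (A * X)ᵀ = A * X ∧ (X * A)ᵀ = X * A

/-- the Moore-Penrose pseudoinverse is unique -/
theorem IsMoorePenrose.unique {A X Y : Matrix V V ℝ} (hX : IsMoorePenrose A X)
    (hY : IsMoorePenrose A Y) : X = Y := by
  obtain ⟨x1, x2, x3, x4⟩ := hX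
  obtain ⟨y1, y2, y3, y4⟩ := hY
  have h1 : A * X = A * Y := by
    calc A * X = (A * Y * A) * X := by rw [y1]
      _ = (A * Y) * (A * X) := by rw [Matrix.mul_assoc (A * Y) A X]
      _ = (A * Y)ᵀ * (A * X)ᵀ := by rw [y3, x3]
      _ = ((A * X) * (A * Y))ᵀ := (Matrix.transpose_mul _ _).symm
      _ = ((A * X * A) * Y)ᵀ := by rw [Matrix.mul_assoc (A * X) A Y]
      _ = (A * Y)ᵀ := by rw [x1]
      _ = A * Y := y3
  have h2 : X * A = Y * A := by
    calc X * A = X * (A * Y * A) := by rw [y1]
      _ = (X * A) * (Y * A) := by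
          rw [Matrix.mul_assoc A Y A, ← Matrix.mul_assoc X A (Y * A)]
      _ = (X * A)ᵀ * (Y * A)ᵀ := by rw [x4, y4]
      _ = ((Y * A) * (X * A))ᵀ := (Matrix.transpose_mul _ _).symm
      _ = (Y * (A * X * A))ᵀ := by
          rw [Matrix.mul_assoc A X A, ← Matrix.mul_assoc Y A (X * A)]
      _ = (Y * A)ᵀ := by rw [x1]
      _ = Y * A := y4
  calc X = X * A * X := x2.symm
    _ = Y * A * X := by rw [h2]
    _ = Y * (A * X) := by rw [Matrix.mul_assoc]
    _ = Y * (A * Y) := by rw [h1]
    _ = Y * A * Y := by rw [Matrix.mul_assoc]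
    _ = Y := y2

open Classical in
/-- the Moore-Penrose pseudoinverse of the Laplacian matrix of `G` -/
noncomputable def lapPinv (G : SimpleGraph V) : Matrix V V ℝ :=
  if h : ∃ X, IsMoorePenrose (G.lapMatrix ℝ) X then h.choose else 0

open Classical in
theorem lapPinv_spec {G : SimpleGraph V} (hG : G.Connected) :
    IsMoorePenrose (G.lapMatrix ℝ) (lapPinv G) ∧
      ∀ X, IsMoorePenrose (G.lapMatrix ℝ) X → X = lapPinv G := by
  have h : ∃ X, IsMoorePenrose (G.lapMatrix ℝ) X := ⟨pinvLap G, LapMod.penrose hG⟩
  have h1 : IsMoorePenrose (G.lapMatrix ℝ) (lapPinv G) := by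
    unfold lapPinv
    rw [dif_pos h]
    exact h.choose_spec
  exact ⟨h1, fun X hX => hX.unique h1⟩

open Classical in
theorem lapPinv_eq {G : SimpleGraph V} (hG : G.Connected) : lapPinv G = pinvLap G :=
  ((lapPinv_spec hG).2 _ (LapMod.penrose hG)).symm

/-- the resistance distance `R_G(u,v) = (e_u - e_v)ᵀ L⁺ (e_u - e_v)` -/
noncomputable def effRes (G : SimpleGraph V) (u v : V) : ℝ :=
  (Pi.single u 1 - Pi.single v 1) ⬝ᵥ (lapPinv G *ᵥ (Pi.single u 1 - Pi.single v 1))

theorem effRes_comm (G : SimpleGraph V) (u v : V) : effRes G u v = effRes G v u := by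
  unfold effRes
  have : (Pi.single u 1 - Pi.single v 1 : V → ℝ) = -(Pi.single v 1 - Pi.single u 1) := by
    simp
  rw [this, Matrix.mulVec_neg]
  simp

/-- the resistance spectrum: the multiset of the resistance distances over all unordered pairs of
distinct vertices -/
noncomputable def resistanceSpectrum (G : SimpleGraph V) : Multiset ℝ :=
  ((Finset.univ : Finset (Sym2 V)).filter (fun e => ¬ e.IsDiag)).val.map
    (Sym2.lift ⟨effRes G, effRes_comm G⟩)

theorem effRes_eq {G : SimpleGraph V} (hG : G.Connected) (u v : V) :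
    effRes G u v = resistance G u v := by
  unfold effRes resistance
  rw [lapPinv_eq hG]

theorem resistanceSpectrum_eq {G : SimpleGraph V} (hG : G.Connected) :
    resistanceSpectrum G = resSpec G := by
  unfold resistanceSpectrum resSpec
  apply Multiset.map_congr rfl
  intro e _
  induction e using Sym2.ind with
  | _ a b =>
    rw [Sym2.lift_mk, Sym2.lift_mk]
    exact effRes_eq hG a b

end Pool.Agent.RSM
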