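import Pool.Agent.RSM.CTX

/-! # Module FINAL: assembly -/

set_option linter.unusedSectionVars false
set_option linter.unusedVariables false

namespace Pool.Agent.RSM

open Finset Matrix Pool.Agent.ResSpec Pool.Agent.ResSpec.LargeMod

universe u v

namespace FINAL_

open Pool.Agent.ResSpec.LapMod

section iso

variable {V : Type u} [Fintype V] [DecidableEq V] {W : Type v} [Fintype W] [DecidableEq W]

open Classical in
theorem green_iso {G : SimpleGraph V} {H : SimpleGraph W} (e : G ≃g H) (a b : V) :
    green H (e a) (e b) = green G a b := by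
  have h1 : H.lapMatrix ℝ + avgMat W =
      (G.lapMatrix ℝ + avgMat V).submatrix e.toEquiv.symm e.toEquiv.symm := by
    ext x y
    obtain ⟨x, rfl⟩ := e.toEquiv.surjective x
    obtain ⟨y, rfl⟩ := e.toEquiv.surjective y
    have hadj : H.Adj (e.toEquiv x) (e.toEquiv y) ↔ G.Adj x y := e.map_adj_iff
    have hcard : Fintype.card W = Fintype.card V := (Fintype.card_congr e.toEquiv).symm
    simp only [Matrix.add_apply, Matrix.submatrix_apply, Equiv.symm_apply_apply, avgMat,
      Matrix.of_apply, SimpleGraph.lapMatrix, SimpleGraph.degMatrix, Matrix.sub_apply,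
      SimpleGraph.adjMatrix_apply, hadj, hcard]
    by_cases hxy : x = y
    · subst hxy
      simp
    · have : e.toEquiv x ≠ e.toEquiv y := fun h => hxy (e.toEquiv.injective h)
      rw [Matrix.diagonal_apply_ne _ this, Matrix.diagonal_apply_ne _ hxy]
  unfold green
  rw [h1, Matrix.inv_submatrix_equiv]
  simp only [Matrix.submatrix_apply]
  have e1 : e.toEquiv.symm (e a) = a := e.toEquiv.symm_apply_apply a
  have e2 : e.toEquiv.symm (e b) = b := e.toEquiv.symm_apply_apply b
  rw [e1, e2]

theorem resistance_iso {G : SimpleGraph V} {H : SimpleGraph W} (e : G ≃g H) (a b : V) :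
    resistance H (e a) (e b) = resistance G a b := by
  classical
  rw [res_eq, res_eq, green_iso, green_iso, green_iso]

/-- the resistance spectrum is invariant under isomorphism -/
theorem resSpec_iso {G : SimpleGraph V} {H : SimpleGraph W} (e : G ≃g H) :
    resSpec G = resSpec H := by
  unfold resSpec
  symm
  have h1 : ((Finset.univ : Finset (Sym2 W)).filter (fun x => ¬ x.IsDiag)) =
      ((Finset.univ : Finset (Sym2 V)).filter (fun x => ¬ x.IsDiag)).map
        ⟨Sym2.map e, Sym2.map.injective e.injective⟩ := by
    ext x
    simp only [Finset.mem_filter, Finset.mem_univ, true_and, Finset.mem_map,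
      Function.Embedding.coeFn_mk]
    constructor
    · intro hx
      obtain ⟨y, rfl⟩ : ∃ y, Sym2.map e y = x := by
        induction x using Sym2.ind with
        | _ a b =>
          exact ⟨s(e.symm a, e.symm b), by rw [Sym2.map_mk]; simp⟩
      exact ⟨y, fun hy => hx ((Sym2.isDiag_map e.injective).2 hy), rfl⟩
    · rintro ⟨y, hy, rfl⟩
      exact fun hx => hy ((Sym2.isDiag_map e.injective).1 hx)
  rw [h1, Finset.map_val, Multiset.map_map]
  apply Multiset.map_congr rfl
  intro y _
  induction y using Sym2.ind with
  | _ a b =>
    simp only [Function.comp, Function.Embedding.coeFn_mk, Sym2.map_mk, Sym2.lift_mk]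
    exact resistance_iso e a b

end iso

/-- `K_{m,n} ≃ K_{n,m}` -/
def kIso (m n : ℕ) : completeBipartiteGraph (Fin m) (Fin n) ≃g
    completeBipartiteGraph (Fin n) (Fin m) where
  toEquiv := Equiv.sumComm _ _
  map_rel_iff' := by
    intro a b
    rcases a with a | a <;> rcases b with b | b <;> simp

end FINAL_

open FINAL_ in
theorem final_proof (hnom1 : Stmt_NoM1.{u})
    (hnocee : Stmt_NoCee.{u}) (hnom0 : Stmt_NoM0.{u}) (hcnt : Stmt_Cnt.{u}) (hnum : Stmt_Num)
    (hbdr : Stmt_Bdr.{u}) (hzero : Stmt_DZero.{u}) (hone : Stmt_DOne.{u}) (hstar : Stmt_Star.{u}) :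
    Stmt_Final.{u} := by
  -- the case `m ≥ n`
  have main : ∀ (V : Type u) [Fintype V] [DecidableEq V] (G : SimpleGraph V) (m n : ℕ), n ≤ m →
      1 ≤ n → G.Connected →
      resSpec G = resSpec (completeBipartiteGraph (Fin m) (Fin n)) →
      Nonempty (G ≃g completeBipartiteGraph (Fin m) (Fin n)) := by
    intro V _ _ G m n hmn hn hc hRS
    classical
    obtain ⟨D, rfl⟩ := Nat.exists_eq_add_of_le hmn
    rcases Nat.lt_or_ge D 2 with hD | hD
    · have : D = 0 ∨ D = 1 := by omega
      rcases this with rfl | rfl
      · exact hzero V G n hn hc hRS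
      · exact hone V G n hn hc hRS
    · rcases Nat.lt_or_ge n 2 with hn2 | hn2
      · have : n = 1 := by omega
        subst this
        exact hstar V G (1 + D) (by omega) hc hRS
      · by_cases h2 : D = 2
        · exact drs_of_gap (n + D) n hn2 (by omega) (Or.inl (by omega)) G hc hRS
        · by_cases hgap : 2 * n < (n + D - n) * (n + D - n - 1)
          · exact drs_of_gap (n + D) n hn2 (by omega) (Or.inr hgap) G hc hRS
          · have hD3 : 3 ≤ D := by omega
            rw [show n + D - n = D by omega] at hgap
            push Not at hgap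
            have hDn : (D : ℤ) * (D - 1) ≤ 2 * n := by
              have : ((D * (D - 1) : ℕ) : ℤ) ≤ ((2 * n : ℕ) : ℤ) := by exact_mod_cast hgap
              push_cast [Nat.cast_sub (show 1 ≤ D by omega)] at this
              exact this
            have hn3 : 3 ≤ n := by
              have : 3 * 2 ≤ D * (D - 1) := Nat.mul_le_mul hD3 (by omega)
              omega
            obtain ⟨Q, T, X⟩ := ctx_proof V G n D hn3 hD3 hDn hc hRS
            by_contra hK
            by_cases hNB : NB n D
            · have h1 := hnom1 V G n D Q T X hK hNB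
              have h2 := hnocee V G n D Q T X hK hNB h1
              have h3 := hnom0 V G n D Q T X h1 h2
              have hall : ∀ u, T u < 0 ∨ M2 n D G T u := by
                intro u
                rcases X.cases5 u with h | h | h | h | h
                · exact Or.inl h
                · exact absurd h (h3 u)
                · exact absurd h (h1 u)
                · exact Or.inr h
                · exact absurd (h2 u) (not_le.2 h)
              obtain ⟨η, s, p, q, c1, c2, c3, c4, c5, c6, c7, c8, c9, c10, c11, c12, c13⟩ :=
                hcnt V G n D Q T X hNB hall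
              exact hnum n D hn3 hD3 hDn η s p q c1 c2 c3 c4 c5 c6 c7 c8 c9 c10 c11 c12 c13
            · exact hbdr V G n D Q T X hK hNB
  intro V _ _ G m n hm hn hc hRS
  rcases le_total n m with h | h
  · exact main V G m n h hn hc hRS
  · obtain ⟨e⟩ := main V G n m h hm hc (by rw [hRS]; exact resSpec_iso (kIso m n))
    exact ⟨e.trans (kIso n m)⟩

end Pool.Agent.RSM
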