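import Pool.Agent.RSM.Stmts

/-! # (M1CEE) no `M1` vertex has all its `b`-neighbours in `Cee` and pairwise `c` -/

set_option linter.unusedSectionVars false
set_option linter.unusedVariables false

namespace Pool.Agent.RSM

open Finset Pool.Agent.ResSpec Pool.Agent.ResSpec.LargeMod

universe u

namespace M1CEE_

variable {V : Type u} [Fintype V] [DecidableEq V] {G : SimpleGraph V} [DecidableRel G.Adj]
  {n D : ℕ} {Q : V → V → ℤ} {T : V → ℤ}

/-- the number of `a`-partners of `w` in `N(w)` and the number `d_b(w) = D` -/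
theorem be_eq (X : Ctx n D G Q T) {w : V} (hw : M1 n D G T w)
    (hD : (D : ℤ) ≤ be G Q n D w w)
    (hbx : ∀ x, G.Adj w x → Q w x = 2 * n → ∀ y, G.Adj w y → Q y x ≠ 2 * n + 2 * D)
    (hb1 : ∀ y, G.Adj w y → Q w y = 2 * n + D - 1 → 2 * n < T y)
    (hb2 : ∀ y z, y ≠ z → G.Adj w y → Q w y = 2 * n + D - 1 → G.Adj w z →
      Q w z = 2 * n + D - 1 → Q y z = 2 * n + 2 * D) : be G Q n D w w = D := by
  have h3 := X.n3
  have h4 := X.D3
  have hpos : 0 < be G Q n D w w := by linarith
  obtain ⟨y, hy, hQy⟩ := be_pos_iff.1 hpos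
  have hQy' : Q w y = 2 * n + D - 1 := by rw [X.symm]; exact hQy
  have hst := X.M1_star hw hy hQy'
  rw [X.al_cee (hb1 y hy hQy')] at hst
  have hset : nb G Q (2 * n + 2 * D) w y = (nb G Q (2 * n + D - 1) w w).erase y := by
    ext z
    rw [Finset.mem_erase, mem_nb, mem_nb]
    constructor
    · rintro ⟨hz, hQz⟩
      refine ⟨X.ne_of_c hQz, hz, ?_⟩
      rcases X.vals hz.ne with h5 | h5 | h5
      · exact absurd (by rw [X.symm]; exact hQz) (hbx z hz h5 y hy)
      · rw [X.symm]; exact h5
      · exact absurd h5 (X.not_c hz hw.2.1)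
    · rintro ⟨hzy, hz, hQz⟩
      exact ⟨hz, hb2 z y hzy hz (by rw [X.symm]; exact hQz) hy hQy'⟩
  have hmem : y ∈ nb G Q (2 * n + D - 1) w w := mem_nb.2 ⟨hy, hQy⟩
  have hga : ga G Q n D w y = be G Q n D w w - 1 := by
    unfold ga be
    rw [hset, Finset.card_erase_of_mem hmem]
    have : 1 ≤ (nb G Q (2 * n + D - 1) w w).card := Finset.card_pos.2 ⟨y, hmem⟩
    push_cast [Nat.cast_sub this]
    ring
  rw [hga] at hst
  linarith

end M1CEE_

theorem m1cee_proof (h1 : Stmt_Cee.{u}) (h2 : Stmt_MOne.{u}) : Stmt_M1Cee.{u} := by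
  intro V _ _ G _ n D Q T X hNK w hw hb1 hb2
  obtain ⟨hD, hbx, hcc⟩ := h2 V G n D Q T X w hw
  have hdb : be G Q n D w w = D :=
    M1CEE_.be_eq X hw hD (fun x hx hQ => (hbx x hx hQ).1) hb1 hb2
  obtain ⟨hc1, hc2⟩ := hcc hdb
  have h3 := X.n3
  have h4 := X.D3
  obtain ⟨hTw, hsum⟩ := X.M1_T hw
  rw [hdb] at hsum
  have hda : al G Q n w w = n - 1 := by linarith
  -- the set `S`
  set S : Finset V := insert w (nb G Q (2 * n) w w) with hS
  have hmemS : ∀ x, x ∈ S ↔ (x = w ∨ (G.Adj w x ∧ Q w x = 2 * n)) := by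
    intro x
    rw [hS, Finset.mem_insert, mem_nb, X.symm x w]
  have hwS : w ∈ S := (hmemS w).2 (Or.inl rfl)
  have hcardS : (S.card : ℤ) = n := by
    have hnot : w ∉ nb G Q (2 * n) w w := by
      rw [mem_nb]
      rintro ⟨h5, _⟩
      exact h5.ne rfl
    rw [hS, Finset.card_insert_of_notMem hnot]
    have h6 : ((nb G Q (2 * n) w w).card : ℤ) = n - 1 := hda
    push_cast
    linarith
  have hain : ∀ z s, Q z s = 2 * n → z ∈ S := fun z s h => (hmemS z).2 (hc1 z s h)
  have hclq : ∀ z s, z ≠ s → z ∈ S → s ∈ S → Q z s = 2 * n := fun z s h5 h6 h7 =>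
    hc2 z s h5 ((hmemS z).1 h6) ((hmemS s).1 h7)
  -- `a`-degrees towards elements of `S`
  have hal : ∀ u s, s ∈ S →
      al G Q n u s = ((S.filter (fun z => G.Adj u z)).card : ℤ) - ad G u s := by
    intro u s hs
    have hset : nb G Q (2 * n) u s = (S.filter (fun z => G.Adj u z)).erase s := by
      ext z
      rw [Finset.mem_erase, Finset.mem_filter, mem_nb]
      constructor
      · rintro ⟨h5, h6⟩
        exact ⟨X.ne_of_a h6, hain z s h6, h5⟩
      · rintro ⟨h5, h6, h7⟩
        exact ⟨h7, hclq z s h5 h6 hs⟩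
    unfold al
    rw [hset]
    rcases ad_cases (G := G) u s with ⟨h5, h6⟩ | ⟨h5, h6⟩
    · rw [h5, Finset.erase_eq_of_notMem]
      · ring
      · rw [Finset.mem_filter]
        exact fun h7 => h6 h7.2
    · have hmem : s ∈ S.filter (fun z => G.Adj u z) := Finset.mem_filter.2 ⟨hs, h6⟩
      rw [h5, Finset.card_erase_of_mem hmem]
      have : 1 ≤ (S.filter (fun z => G.Adj u z)).card := Finset.card_pos.2 ⟨s, hmem⟩
      push_cast [Nat.cast_sub this]
      ring
  -- non-hubs of `S` other than `w` are closed twins of `w`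
  have htwin : ∀ x, x ∈ S → x ≠ w → 0 ≤ T x → Twin G w x ∧ G.Adj w x := by
    intro x hx hxw hTx
    rcases (hmemS x).1 hx with h5 | ⟨h5, h6⟩
    · exact absurd h5 hxw
    · have hM0 : ¬ M0 n D G T x := by
        intro h7
        have h8 := X.M0_T h7
        have h9 := X.deg_self x
        rw [h8.2, X.ga_self_zero h7.2.1, h7.2.2] at h9
        have h10 : al G Q n x x ≤ n := by
          rw [← hcardS]
          unfold al
          have : nb G Q (2 * n) x x ⊆ S := by
            intro z hz
            exact hain z x (mem_nb.1 hz).2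
          exact_mod_cast Finset.card_le_card this
        linarith
      have hM0w : ¬ M0 n D G T w := by
        intro h7
        have h8 := h7.2.2
        have h9 := hw.2.2
        linarith
      rcases X.a_edge h5 h6 hw.1 hTx with h7 | h7 | h7 | h7
      · exact absurd h7.1 hM0w
      · exact absurd h7.1 hM0w
      · exact absurd h7.2 hM0
      · exact ⟨h7.2.2, h5⟩
  -- a `b`-neighbour `u` of `w`
  have hpos : 0 < be G Q n D w w := by rw [hdb]; linarith
  obtain ⟨u, huw, hQu⟩ := be_pos_iff.1 hpos
  have hQu' : Q w u = 2 * n + D - 1 := by rw [X.symm]; exact hQu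
  have hTu := hb1 u huw hQu'
  have hdeg := h1 V G n D Q T X hNK u w hTu huw.symm hQu
  obtain ⟨hdu, hTeq⟩ := X.cee_T hTu
  have hg := ga_nonneg (G := G) (Q := Q) (n := n) (D := D) u u
  have hnonhub : ∀ x, x ∈ S → 0 ≤ T x → G.Adj u x := by
    intro x hx hTx
    by_cases hxw : x = w
    · rw [hxw]; exact huw.symm
    · obtain ⟨h5, h6⟩ := htwin x hx hxw hTx
      have hux : u ≠ x := by
        rintro rfl
        rcases (hmemS u).1 hx with h7 | ⟨_, h7⟩
        · exact huw.ne h7.symm
        · rw [hQu'] at h7; linarith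
      exact (h5 u huw.ne.symm hux).1 huw.symm
  have hnonneg_w : 0 ≤ T w := hw.1
  -- the pair `(u, w)`
  have hL2w := X.L2 hQu
  rw [hal u w hwS, ad_of_adj huw.symm] at hL2w
  by_cases hhub : ∃ h ∈ S, T h < 0
  · obtain ⟨h, hhS, hTh⟩ := hhub
    have hhubs : ∀ x, x ∈ S → T x < 0 →
        T u = 2 * n * ad G u x + (D - 1) * ((S.filter (fun z => G.Adj u z)).card : ℤ) := by
      intro x hx hTx
      have hux : u ≠ x := by
        rintro rfl
        linarith
      have hQ : Q u x = 2 * n + D - 1 := by
        rcases X.vals hux with h5 | h5 | h5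
        · exact absurd h5 (X.cee_not_a hTu)
        · exact h5
        · exact absurd h5 (X.hub_not_c' hTx)
      have h6 := X.L2 hQ
      rw [X.ga_hub hTx, hal u x hx] at h6
      rw [h6]; ring
    rcases ad_cases (G := G) u h with ⟨h5, h6⟩ | ⟨h5, h6⟩
    · -- not adjacent to the hubs
      have h7 := hhubs h hhS hTh
      rw [h5] at h7
      have h8 : ((D : ℤ) + 1) * ga G Q n D u w = 2 * n := by
        rw [h7] at hL2w
        linarith
      -- a second `b`-neighbour
      have hcard : 1 < (nb G Q (2 * n + D - 1) w w).card := by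
        have h9 : ((nb G Q (2 * n + D - 1) w w).card : ℤ) = D := hdb
        have h10 : 3 ≤ (nb G Q (2 * n + D - 1) w w).card := by
          have := X.hD3
          have h11 : (nb G Q (2 * n + D - 1) w w).card = D := by exact_mod_cast h9
          omega
        omega
      obtain ⟨u', hu', hne⟩ := Finset.exists_mem_ne hcard u
      obtain ⟨hu'w, hQu'w⟩ := mem_nb.1 hu'
      have hQ'' : Q w u' = 2 * n + D - 1 := by rw [X.symm]; exact hQu'w
      have hcu := hb2 u u' hne.symm huw hQu' hu'w hQ''
      have hL1 := X.L1 hcu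
      rw [X.al_cee (hb1 u' hu'w hQ'')] at hL1
      -- divisibility
      have hdvd : ((D : ℤ) + 1) ∣ 2 * ((G.degree u : ℤ) - n) + 2 * ad G u u' := by
        refine ⟨(ga G Q n D u w + 2) * ad G u u' + be G Q n D u u' - n + ga G Q n D u u +
          (ga G Q n D u w + 1) * (G.degree u - n), ?_⟩
        linear_combination hL1 - hTeq - (ad G u u' + ((G.degree u : ℤ) - n)) * h8
      have h12 : (2 * (n : ℤ) + D - 1) * (G.degree u - n) < (D - 1) * n := by
        have h13 : 0 ≤ ((D : ℤ) + 1) * ga G Q n D u u := mul_nonneg (by linarith) hg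
        linarith
      have h14 : 2 * ((G.degree u : ℤ) - n) < D - 1 := by
        by_contra hcon
        push Not at hcon
        nlinarith
      have h15 : 0 ≤ ad G u u' := ad_nonneg u u'
      have h16 : ad G u u' ≤ 1 := ad_le_one u u'
      have h17 := Int.le_of_dvd (by linarith) hdvd
      linarith
    · -- adjacent to all hubs
      have h7 := hhubs h hhS hTh
      rw [h5] at h7
      have hall : S.filter (fun z => G.Adj u z) = S := by
        apply Finset.filter_true_of_mem
        intro x hx
        rcases lt_or_ge (T x) 0 with h8 | h8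
        · have h9 := hhubs x hx h8
          rcases ad_cases (G := G) u x with ⟨h10, _⟩ | ⟨_, h10⟩
          · rw [h10] at h9
            linarith
          · exact h10
        · exact hnonhub x hx h8
      rw [hall, hcardS] at h7
      have h8 : 0 ≤ ((D : ℤ) + 1) * ga G Q n D u u := mul_nonneg (by linarith) hg
      nlinarith
  · push Not at hhub
    have hall : S.filter (fun z => G.Adj u z) = S := by
      apply Finset.filter_true_of_mem
      intro x hx
      exact hnonhub x hx (hhub x hx)
    rw [hall, hcardS] at hL2w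
    have h5 := X.deg u w
    rw [hal u w hwS, hall, hcardS, ad_of_adj huw.symm] at h5
    have h6 := be_nonneg (G := G) (Q := Q) (n := n) (D := D) u w
    have h7 := ga_nonneg (G := G) (Q := Q) (n := n) (D := D) u w
    have h8 : 0 ≤ ((D : ℤ) + 1) * ga G Q n D u u := mul_nonneg (by linarith) hg
    have h9 : ((D : ℤ) + 1) * ga G Q n D u w =
        (D + 1) * ga G Q n D u u + (2 * n + D - 1) * (G.degree u - n) := by
      linarith
    have h10 : ga G Q n D u w ≤ G.degree u - n := by linarith
    have h11 : ((D : ℤ) + 1) * ga G Q n D u w ≤ (D + 1) * (G.degree u - n) :=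
      mul_le_mul_of_nonneg_left h10 (by linarith)
    nlinarith

end Pool.Agent.RSM
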