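import Pool.Agent.RSM.Stmts

/-! # Module M1W: `M1` vertices, second part -/

set_option linter.unusedSectionVars false
set_option linter.unusedVariables false

namespace Pool.Agent.RSM

open Finset Pool.Agent.ResSpec Pool.Agent.ResSpec.LargeMod

universe u

namespace M1W_

variable {V : Type u} [Fintype V] [DecidableEq V] {G : SimpleGraph V} [DecidableRel G.Adj]
  {n D : ℕ} {Q : V → V → ℤ} {T : V → ℤ}

theorem card_le_ab {u v : V} (S : Finset V)
    (h : ∀ x ∈ S, G.Adj u x ∧ (Q x v = 2 * n ∨ Q x v = 2 * n + D - 1)) :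
    (S.card : ℤ) ≤ al G Q n u v + be G Q n D u v := by
  have h1 : S ⊆ nb G Q (2 * n) u v ∪ nb G Q (2 * n + D - 1) u v := by
    intro x hx
    obtain ⟨h2, h3 | h3⟩ := h x hx
    · exact Finset.mem_union_left _ (mem_nb.2 ⟨h2, h3⟩)
    · exact Finset.mem_union_right _ (mem_nb.2 ⟨h2, h3⟩)
  have h2 := (Finset.card_le_card h1).trans (Finset.card_union_le _ _)
  unfold al be
  exact_mod_cast h2

open Classical in
/-- the `a`-neighbours of `w` in `M1` -/
noncomputable def W (n D : ℕ) (G : SimpleGraph V) [DecidableRel G.Adj] (Q : V → V → ℤ)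
    (T : V → ℤ) (w : V) : Finset V :=
  (nb G Q (2 * n) w w).filter (fun x => M1 n D G T x)

theorem mem_W {w x : V} : x ∈ W n D G Q T w ↔ (G.Adj w x ∧ Q x w = 2 * n) ∧ M1 n D G T x := by
  classical
  unfold W
  rw [Finset.mem_filter, mem_nb]

theorem W_sub (w : V) : W n D G Q T w ⊆ nb G Q (2 * n) w w := by
  classical
  exact Finset.filter_subset _ _

/-- elements of `W` are closed twins of `w` -/
theorem W_twin (X : Ctx n D G Q T) {w x : V} (hw : M1 n D G T w) (hx : x ∈ W n D G Q T w) :
    Twin G w x := by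
  obtain ⟨⟨h1, h2⟩, h3⟩ := mem_W.1 hx
  rcases X.a_edge h1 (by rw [X.symm]; exact h2) hw.1 h3.1 with h | h | h | h
  · have a1 := h.1.2.2
    have a2 := hw.2.2
    linarith
  · have a1 := h.1.2.2
    have a2 := hw.2.2
    linarith
  · have a1 := h.2.2.2
    have a2 := h3.2.2
    linarith
  · exact h.2.2

/-- the lower bound for the number of closed twins -/
theorem omega_ge (X : Ctx n D G Q T) (hM0 : ∀ u v, M0 n D G T u → Q u v ≠ 2 * n + 2 * D)
    {w v : V} (hw : M1 n D G T w) (hv : Q w v = 2 * n + 2 * D) :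
    ((D : ℤ) + 1) * (n + D) - 2 * n - 2 * be G Q n D w w ≤
      ((D : ℤ) + 1) * ((W n D G Q T w).card + 1) := by
  have hna : ¬ G.Adj w v := fun h => X.not_c h hw.2.1 hv
  have h1 := X.L1 hv
  rw [ad_of_not hna] at h1
  have h2 := X.al_mul_nonneg w v
  obtain ⟨h3, h4⟩ := X.M1_T hw
  have hS := card_le_ab (G := G) (Q := Q) (n := n) (D := D) (u := w) (v := v)
    ((nb G Q (2 * n) w w) \ W n D G Q T w) (by
      intro x hx
      rw [Finset.mem_sdiff] at hx
      obtain ⟨hx1, hx2⟩ := hx
      obtain ⟨hx3, hx4⟩ := mem_nb.1 hx1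
      refine ⟨hx3, ?_⟩
      have hn3 := X.n3
      have hD3 := X.D3
      have hxv : x ≠ v := by
        rintro rfl
        rw [X.symm, hx4] at hv
        linarith
      have hnc : Q x v ≠ 2 * n + 2 * D := by
        rcases X.cases5 x with h | h | h | h | h
        · exact X.hub_not_c h
        · exact hM0 x v h
        · exact absurd (mem_W.2 ⟨⟨hx3, hx4⟩, h⟩) hx2
        · exfalso
          have h5 := X.M2_a_hub h hx3.symm hx4
          have h6 := hw.1
          linarith
        · exfalso
          have h5 := X.T_le_a hx4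
          linarith
      rcases X.vals hxv with h | h | h
      · left; exact h
      · right; exact h
      · exact absurd h hnc)
  have hcard := Finset.card_sdiff_add_card_eq_card (W_sub (n := n) (D := D) (G := G) (Q := Q)
    (T := T) w)
  have hcard' : (((nb G Q (2 * n) w w) \ W n D G Q T w).card : ℤ) + (W n D G Q T w).card =
      al G Q n w w := by
    unfold al
    exact_mod_cast hcard
  have hD3 := X.D3
  have h5 : ((D : ℤ) + 1) * ((((nb G Q (2 * n) w w) \ W n D G Q T w).card : ℤ)) ≤
      ((D : ℤ) + 1) * (al G Q n w v + be G Q n D w v) :=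
    mul_le_mul_of_nonneg_left hS (by linarith)
  have h6 : (((nb G Q (2 * n) w w) \ W n D G Q T w).card : ℤ) =
      n + D - 1 - be G Q n D w w - (W n D G Q T w).card := by linarith
  rw [h6] at h5
  nlinarith [h5, h1, h2, h3]

end M1W_

open M1W_ in
theorem m1w_proof (hMOne : Stmt_MOne.{u}) (hMTwo : Stmt_MTwo.{u}) (hM1Cee : Stmt_M1Cee.{u})
    (hMZC : Stmt_MZC.{u}) : Stmt_M1W.{u} := by
  intro V _ _ G _ n D Q T X hK hNB w hw
  have hn3 := X.n3
  have hD3 := X.D3
  refine ⟨?_, ?_⟩
  · by_contra hcon
    push Not at hcon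
    apply hM1Cee V G n D Q T X hK w hw (fun y h1 h2 => hcon y h1 h2)
    intro y z hyz hy1 hy2 hz1 hz2
    exact X.cee_cee hNB hyz (hcon y hy1 hy2) (hcon z hz1 hz2)
  · intro y hwy hb hTy
    obtain ⟨v, _, _, hv⟩ := X.exists_c hwy.symm hTy (by rw [X.symm]; exact hb)
    have hom := omega_ge X (fun u v h => hMZC V G n D Q T X hK hNB u v h) hw
      (by rw [X.symm]; exact hv)
    have hstar := X.M1_star hw hwy hb
    obtain ⟨hO1, hO2, _⟩ := hMOne V G n D Q T X w hw
    have hga : 0 < ga G Q n D w y := by
      by_contra hcon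
      push Not at hcon
      have h1 := al_nonneg (G := G) (Q := Q) (n := n) w y
      have h2 : (0 : ℤ) < (D - 1) * (1 + be G Q n D w w + al G Q n w y) :=
        mul_pos (by linarith) (by linarith)
      have h3 : ((D : ℤ) + 1) * ga G Q n D w y ≤ 0 :=
        mul_nonpos_of_nonneg_of_nonpos (by linarith) hcon
      linarith
    obtain ⟨y', hwy', hc⟩ := ga_pos_iff.1 hga
    have hcy : Q y y' = 2 * n + 2 * D := by rw [X.symm]; exact hc
    have hb' : Q w y' = 2 * n + D - 1 := by
      rcases X.vals hwy'.ne with h | h | h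
      · exact absurd hcy ((hO2 y' hwy' h).1 y hwy)
      · exact h
      · exact absurd h (X.not_c hwy' hw.2.1)
    have hnyy : ¬ G.Adj y y' := fun h => X.not_c h hTy hcy
    have hL := X.L1 hcy
    rw [ad_of_not hnyy] at hL
    have hal := X.al_mul_nonneg y y'
    -- the elements of `W ∪ {w}`
    have hwW : w ∉ W n D G Q T w := by
      intro h
      exact (mem_W.1 h).1.1.ne rfl
    have hmem : ∀ x ∈ insert w (W n D G Q T w), G.Adj y x ∧ Q x y' = 2 * n + D - 1 ∧ 0 ≤ T x := by
      intro x hx
      rcases Finset.mem_insert.1 hx with rfl | hx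
      · exact ⟨hwy.symm, hb', hw.1⟩
      · obtain ⟨⟨h1, h2⟩, h3⟩ := mem_W.1 hx
        have htw := W_twin X hw hx
        have hyx : y ≠ x := by
          rintro rfl
          rw [X.symm, hb] at h2
          linarith
        have hy'x : y' ≠ x := by
          rintro rfl
          rw [X.symm, hb'] at h2
          linarith
        refine ⟨(htw y hwy.ne' hyx).1 hwy.symm, ?_, h3.1⟩
        rw [← (X.twin_data h1 htw).2.2 y' hwy'.ne' hy'x]
        exact hb'
    have hcW : ((insert w (W n D G Q T w)).card : ℤ) = (W n D G Q T w).card + 1 := by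
      rw [Finset.card_insert_of_notMem hwW]
      push_cast
      ring
    refine ⟨?_, ?_⟩
    · have h1 := card_le_ab (G := G) (Q := Q) (n := n) (D := D) (u := y) (v := y')
        (insert w (W n D G Q T w)) (fun x hx => ⟨(hmem x hx).1, Or.inr (hmem x hx).2.1⟩)
      rw [hcW] at h1
      have h2 : ((D : ℤ) + 1) * ((W n D G Q T w).card + 1) ≤
          ((D : ℤ) + 1) * (al G Q n y y' + be G Q n D y y') :=
        mul_le_mul_of_nonneg_left h1 (by linarith)
      nlinarith [h2, hL, hal, hom]
    · intro hy2
      obtain ⟨_, _, hTm, _, _, _⟩ := hMTwo V G n D Q T X hNB y hy2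
      have hdisj : Disjoint (insert w (W n D G Q T w)) (nb G Q (2 * n) y y) := by
        rw [Finset.disjoint_left]
        intro x hx hx2
        obtain ⟨h1, h2⟩ := mem_nb.1 hx2
        have h3 := X.M2_a_hub hy2 h1 (by rw [X.symm]; exact h2)
        have h4 := (hmem x hx).2.2
        linarith
      have h1 := card_le_ab (G := G) (Q := Q) (n := n) (D := D) (u := y) (v := y')
        ((insert w (W n D G Q T w)) ∪ (nb G Q (2 * n) y y)) (by
          intro x hx
          rcases Finset.mem_union.1 hx with hx | hx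
          · exact ⟨(hmem x hx).1, Or.inr (hmem x hx).2.1⟩
          · obtain ⟨h1, h2⟩ := mem_nb.1 hx
            have h3 := X.M2_a_hub hy2 h1 (by rw [X.symm]; exact h2)
            refine ⟨h1, ?_⟩
            have hxy' : x ≠ y' := by
              rintro rfl
              exact hnyy h1
            rcases X.vals hxy' with h | h | h
            · left; exact h
            · right; exact h
            · exact absurd h (X.hub_not_c h3))
      rw [Finset.card_union_of_disjoint hdisj] at h1
      have h5 : ((insert w (W n D G Q T w)).card : ℤ) + (nb G Q (2 * n) y y).card ≤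
          al G Q n y y' + be G Q n D y y' := by exact_mod_cast h1
      have h6 : ((nb G Q (2 * n) y y).card : ℤ) = al G Q n y y := rfl
      rw [hcW, h6] at h5
      have h2 : ((D : ℤ) + 1) * ((W n D G Q T w).card + 1 + al G Q n y y) ≤
          ((D : ℤ) + 1) * (al G Q n y y' + be G Q n D y y') :=
        mul_le_mul_of_nonneg_left h5 (by linarith)
      nlinarith [h2, hL, hal, hom, hTm]

end Pool.Agent.RSM
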