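import Pool.Agent.RSM.Stmts

/-! # MP_23a9ba_co, module MONE: the vertices of `M1` -/

set_option linter.unusedSectionVars false
set_option linter.unusedVariables false

namespace Pool.Agent.RSM

open Finset Pool.Agent.ResSpec Pool.Agent.ResSpec.LargeMod

universe u

namespace MONE_

variable {V : Type u} [Fintype V] [DecidableEq V] {G : SimpleGraph V} [DecidableRel G.Adj]
  {n D : ℕ} {Q : V → V → ℤ} {T : V → ℤ} (X : Ctx n D G Q T)
include X

/-- part (b) -/
theorem part_b {w x : V} (hw : M1 n D G T w) (hadj : G.Adj w x) (hQ : Q w x = 2 * n) :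
    (∀ y, G.Adj w y → Q y x ≠ 2 * n + 2 * D) ∧
      be G Q n D w x = be G Q n D w w ∧ al G Q n w x = al G Q n w w - 1 := by
  have h3 := X.n3
  have h4 := X.D3
  have hTx := X.T_le_a' hQ
  have hc : ∀ y, G.Adj w y → Q y x ≠ 2 * n + 2 * D := by
    intro y hy hyx
    have h0x := X.T_ge_c' hyx
    have hxy : Q x y = 2 * n + 2 * D := by rw [X.symm]; exact hyx
    have hcase : (M0 n D G T w ∧ M0 n D G T x) ∨ (M0 n D G T w ∧ M1 n D G T x) ∨
        (M1 n D G T w ∧ M0 n D G T x) ∨ (M1 n D G T w ∧ M1 n D G T x ∧ Twin G w x) :=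
      X.a_edge hadj hQ hw.1 h0x
    rcases hcase with h | h | h | h
    · have a1 := h.1.2.2
      have a2 := hw.2.2
      linarith
    · have a1 := h.1.2.2
      have a2 := hw.2.2
      linarith
    · have hx := (X.M0_T h.2).1
      obtain ⟨_, hall⟩ := X.zero_c hx hxy
      have hwy := hall w hadj.symm
      exact X.not_c hy hw.2.1 hwy
    · have hyne : y ≠ x := X.ne_of_c hyx
      have := (h.2.2 y hy.ne' hyne).1 hy.symm
      exact X.not_c this.symm hTx hxy
  have hga : ga G Q n D w x = 0 := ga_zero_of fun y hy => hc y hy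
  have hL := X.L3 hQ
  have hT := X.M1_T hw
  have hd := X.deg w x
  have hdw := hw.2.2
  rw [hga, ad_of_adj hadj] at hL
  rw [hga, ad_of_adj hadj, hdw] at hd
  have hbe : ((D : ℤ) - 1) * (be G Q n D w x - be G Q n D w w) = 0 := by
    have := hT.1
    linarith
  have hbe' : be G Q n D w x = be G Q n D w w := by
    rcases mul_eq_zero.1 hbe with h | h
    · exfalso; linarith
    · linarith
  refine ⟨hc, hbe', ?_⟩
  have := hT.2
  linarith

/-- the set `S = {w} ∪ N^a(w)` -/
theorem mem_S {w u : V} : u ∈ insert w (nb G Q (2 * n) w w) ↔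
    (u = w ∨ (G.Adj w u ∧ Q w u = 2 * n)) := by
  rw [Finset.mem_insert, mem_nb, X.symm u w]

theorem card_S (w : V) : ((insert w (nb G Q (2 * n) w w)).card : ℤ) = al G Q n w w + 1 := by
  have hun : w ∉ nb G Q (2 * n) w w := by
    rw [mem_nb]; simp
  rw [Finset.card_insert_of_notMem hun]
  unfold al
  push_cast
  ring

/-- every element of `S` has at least `d_a` partners -/
theorem pa_ge {w s : V} (hw : M1 n D G T w) (hs : s ∈ insert w (nb G Q (2 * n) w w)) :
    al G Q n w w ≤ (pa Q n s).card := by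
  rw [Finset.mem_insert] at hs
  rcases hs with rfl | hs
  · have := Finset.card_le_card (nb_sub_pa X.core X.hn X.hD (u := s) (w := s))
    unfold al
    exact_mod_cast this
  · rw [mem_nb] at hs
    obtain ⟨hadj, hQ⟩ := hs
    have hQ' : Q w s = 2 * n := by rw [X.symm]; exact hQ
    have h1 := (part_b X hw hadj hQ').2.2
    have hun2 : w ∉ nb G Q (2 * n) w s := by
      rw [mem_nb]; simp
    have hsub : insert w (nb G Q (2 * n) w s) ⊆ pa Q n s := by
      intro z hz
      rw [Finset.mem_insert] at hz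
      rcases hz with rfl | hz
      · rw [mem_pa]; exact ⟨hadj.ne', hQ⟩
      · exact nb_sub_pa X.core X.hn X.hD hz
    have h9 := Finset.card_le_card hsub
    rw [Finset.card_insert_of_notMem hun2] at h9
    have h10 : al G Q n w s + 1 ≤ (pa Q n s).card := by
      unfold al
      exact_mod_cast h9
    linarith

theorem sum_pa' : (∑ v, ((pa Q n v).card : ℤ)) = n * (n - 1) := by
  have h := sum_pa X.core
  have h3 := X.hn3
  have : ((∑ v, (pa Q n v).card : ℕ) : ℤ) = ((n * (n - 1) : ℕ) : ℤ) := by rw [h]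
  rw [Nat.cast_mul, Nat.cast_sub (by omega)] at this
  push_cast at this
  exact this

/-- part (a) -/
theorem part_a {w : V} (hw : M1 n D G T w) : (D : ℤ) ≤ be G Q n D w w := by
  have h3 := X.n3
  have hT := (X.M1_T hw).2
  have hal := al_nonneg (G := G) (Q := Q) (n := n) w w
  have hsum : (al G Q n w w + 1) * al G Q n w w ≤ n * (n - 1) := by
    rw [← sum_pa' X, ← card_S X w]
    calc (((insert w (nb G Q (2 * n) w w)).card : ℤ)) * al G Q n w w
        = ∑ s ∈ insert w (nb G Q (2 * n) w w), al G Q n w w := by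
          rw [Finset.sum_const, nsmul_eq_mul]
      _ ≤ ∑ s ∈ insert w (nb G Q (2 * n) w w), ((pa Q n s).card : ℤ) :=
          Finset.sum_le_sum fun s hs => pa_ge X hw hs
      _ ≤ ∑ v, ((pa Q n v).card : ℤ) :=
          Finset.sum_le_sum_of_subset_of_nonneg (Finset.subset_univ _)
            (fun i _ _ => by positivity)
  have hle : al G Q n w w ≤ n - 1 := by
    by_contra hcon
    push Not at hcon
    nlinarith
  linarith

/-- part (c), preparation: `pa s` for `s` in `S` and outside -/
theorem part_c_aux {w : V} (hw : M1 n D G T w) (hD : be G Q n D w w = D) :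
    (∀ s ∈ insert w (nb G Q (2 * n) w w), ((pa Q n s).card : ℤ) = n - 1) ∧
    (∀ s, s ∉ insert w (nb G Q (2 * n) w w) → (pa Q n s).card = 0) := by
  have h3 := X.n3
  have hT := (X.M1_T hw).2
  have hal : al G Q n w w = n - 1 := by linarith
  have hcard := card_S X w
  rw [hal] at hcard
  set S := insert w (nb G Q (2 * n) w w) with hS
  have hge : ∀ s ∈ S, (0 : ℤ) ≤ ((pa Q n s).card : ℤ) - (n - 1) := by
    intro s hs
    have := pa_ge X hw hs
    linarith
  have hsplit : (∑ s ∈ S, ((pa Q n s).card : ℤ)) + ∑ s ∈ Sᶜ, ((pa Q n s).card : ℤ)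
      = n * (n - 1) := by
    rw [Finset.sum_add_sum_compl, sum_pa' X]
  have hsumS : ∑ s ∈ S, (((pa Q n s).card : ℤ) - (n - 1)) =
      (∑ s ∈ S, ((pa Q n s).card : ℤ)) - n * (n - 1) := by
    rw [Finset.sum_sub_distrib, Finset.sum_const, nsmul_eq_mul, hcard]
    ring
  have hn1 : 0 ≤ ∑ s ∈ S, (((pa Q n s).card : ℤ) - (n - 1)) := Finset.sum_nonneg hge
  have hn2 : 0 ≤ ∑ s ∈ Sᶜ, ((pa Q n s).card : ℤ) := Finset.sum_nonneg fun _ _ => by positivity
  have hz1 : ∑ s ∈ S, (((pa Q n s).card : ℤ) - (n - 1)) = 0 := by linarith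
  have hz2 : ∑ s ∈ Sᶜ, ((pa Q n s).card : ℤ) = 0 := by linarith
  constructor
  · intro s hs
    have := (Finset.sum_eq_zero_iff_of_nonneg hge).1 hz1 s hs
    linarith
  · intro s hs
    have := (Finset.sum_eq_zero_iff_of_nonneg (fun i _ => by positivity)).1 hz2 s
      (by rw [Finset.mem_compl]; exact hs)
    exact_mod_cast this

theorem part_c1 {w : V} (hw : M1 n D G T w) (hD : be G Q n D w w = D) {u v : V}
    (h : Q u v = 2 * n) : u ∈ insert w (nb G Q (2 * n) w w) := by
  by_contra hcon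
  have h1 := (part_c_aux X hw hD).2 u hcon
  have h2 : v ∈ pa Q n u := by rw [mem_pa]; exact ⟨X.ne_of_a h, h⟩
  rw [Finset.card_eq_zero] at h1
  rw [h1] at h2
  simp at h2

theorem part_c2 {w : V} (hw : M1 n D G T w) (hD : be G Q n D w w = D) {u v : V} (huv : u ≠ v)
    (hu : u ∈ insert w (nb G Q (2 * n) w w)) (hv : v ∈ insert w (nb G Q (2 * n) w w)) :
    Q u v = 2 * n := by
  have h3 := X.n3
  have hT := (X.M1_T hw).2
  have hal : al G Q n w w = n - 1 := by linarith
  have hcard := card_S X w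
  rw [hal] at hcard
  have h1 := (part_c_aux X hw hD).1 u hu
  have hsub : pa Q n u ⊆ (insert w (nb G Q (2 * n) w w)).erase u := by
    intro z hz
    rw [mem_pa] at hz
    rw [Finset.mem_erase]
    refine ⟨hz.1.symm, part_c1 X hw hD (v := u) (by rw [X.symm]; exact hz.2)⟩
  have hce : ((insert w (nb G Q (2 * n) w w)).erase u).card =
      (insert w (nb G Q (2 * n) w w)).card - 1 := Finset.card_erase_of_mem hu
  have heq : pa Q n u = (insert w (nb G Q (2 * n) w w)).erase u := by
    apply Finset.eq_of_subset_of_card_le hsub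
    rw [hce]
    omega
  have : v ∈ pa Q n u := by
    rw [heq, Finset.mem_erase]
    exact ⟨huv.symm, hv⟩
  rw [mem_pa] at this
  exact this.2

end MONE_

theorem mone_proof : Stmt_MOne.{u} := by
  intro V _ _ G _ n D Q T X w hw
  refine ⟨MONE_.part_a X hw, fun x hadj hQ => MONE_.part_b X hw hadj hQ, fun hD => ⟨?_, ?_⟩⟩
  · intro u v h
    exact (MONE_.mem_S X).1 (MONE_.part_c1 X hw hD h)
  · intro u v huv hu hv
    exact MONE_.part_c2 X hw hD huv ((MONE_.mem_S X).2 hu) ((MONE_.mem_S X).2 hv)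

end Pool.Agent.RSM
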