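import Pool.Agent.RSM.Stmts

/-! # `M2` vertices (module MTWO of the squad DRS, MP_23a9ba_co) -/

set_option linter.unusedSectionVars false
set_option linter.unusedVariables false

namespace Pool.Agent.RSM

open Finset Pool.Agent.ResSpec Pool.Agent.ResSpec.LargeMod

universe u

namespace MTWO_

theorem mu_pos {n D : ℕ} (hn : 3 ≤ n) (hD : 3 ≤ D) (h : (D : ℤ) * (D - 1) ≤ 2 * n)
    (hNB : NB n D) : 0 < mu n D ∧ mu n D ≤ 2 * n := by
  rcases Nat.even_or_odd' D with ⟨e, he | he⟩
  · rw [mu_even he]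
    have h1 : (D : ℤ) = 2 * e := by exact_mod_cast he
    have h2 : (2 : ℤ) * n ≠ D * (D - 1) := by
      intro h3
      exact hNB ⟨h3, ⟨e, by omega⟩⟩
    have h4 : (D : ℤ) * (D - 1) < 2 * n := lt_of_le_of_ne h (Ne.symm h2)
    rw [h1] at h4
    have h5 : (1 : ℤ) ≤ e := by
      have : 1 ≤ e := by omega
      exact_mod_cast this
    have h6 : (0 : ℤ) ≤ n := Int.natCast_nonneg n
    constructor
    · linarith
    · nlinarith
  · rw [mu_odd he]
    have h1 : (D : ℤ) = 2 * e + 1 := by exact_mod_cast he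
    rw [h1] at h
    have h5 : (1 : ℤ) ≤ e := by
      have : 1 ≤ e := by omega
      exact_mod_cast this
    constructor
    · nlinarith
    · nlinarith

end MTWO_

theorem mtwo_proof : Stmt_MTwo.{u} := by
  intro V _ _ G _ n D Q T X hNB w hw
  have hn3 := X.n3
  have hD3 := X.D3
  obtain ⟨h0, hT, hd⟩ := id hw
  obtain ⟨hmu0, hmu2⟩ := MTWO_.mu_pos X.hn3 X.hD3 X.hDn hNB
  have hTeq := X.Teq hT
  have hTeq' := X.Teq' hT
  -- a `b`-neighbour
  have hbpos : 0 < be G Q n D w w := by
    by_contra hcon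
    have hb0 : be G Q n D w w = 0 :=
      le_antisymm (not_lt.1 hcon) (be_nonneg (G := G) (Q := Q) (n := n) (D := D) w w)
    rw [hb0] at hTeq
    nlinarith
  obtain ⟨y₀, hy₀, hy₀b⟩ := be_pos_iff.1 hbpos
  -- a `c`-partner
  have hex : ∃ y, Q w y = 2 * n + 2 * D := by
    by_contra hcon
    push Not at hcon
    have hB1 : ∀ y, G.Adj w y → Q w y = 2 * n + D - 1 → 2 * n < T y := by
      intro y hadj hb
      by_contra hle
      push Not at hle
      obtain ⟨z, _, _, hz⟩ := X.exists_c hadj.symm hle (by rw [X.symm]; exact hb)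
      exact hcon z (by rw [X.symm]; exact hz)
    have hB2 : ∀ v, Q w v ≠ 2 * n := by
      intro v hv
      by_cases hadj : G.Adj w v
      · have hTv := X.M2_a_hub hw hadj hv
        have hsub : nb G Q (2 * n + D - 1) w w ⊆ nb G Q (2 * n + D - 1) w v := by
          intro y hy
          rw [mem_nb] at hy ⊢
          have hTy := hB1 y hy.1 (by rw [X.symm]; exact hy.2)
          have hyv : y ≠ v := by rintro rfl; linarith
          refine ⟨hy.1, ?_⟩
          rcases X.vals hyv with h | h | h
          · exact absurd h (X.cee_not_a hTy)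
          · exact h
          · exact absurd h (X.hub_not_c' hTv)
        have hle : be G Q n D w w ≤ be G Q n D w v := by
          unfold be
          exact_mod_cast Finset.card_le_card hsub
        have hL3 := X.L3 hv
        rw [ad_of_adj hadj, X.ga_hub hTv] at hL3
        have h1 : ((D : ℤ) - 1) * be G Q n D w w ≤ ((D : ℤ) - 1) * be G Q n D w v :=
          mul_le_mul_of_nonneg_left hle (by linarith)
        nlinarith
      · obtain ⟨_, h2⟩ := X.zero_a h0 hv hadj
        have h3 := h2 y₀ hy₀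
        have h4 := X.T_le_a h3
        have h5 := hB1 y₀ hy₀ (by rw [X.symm]; exact hy₀b)
        linarith
    have hal : al G Q n y₀ w = 0 := by
      apply al_zero_of
      intro z _ hz
      exact hB2 z (by rw [X.symm]; exact hz)
    have hga : ga G Q n D y₀ w = 0 := by
      apply ga_zero_of
      intro z _ hz
      exact hcon z (by rw [X.symm]; exact hz)
    have hL2 := X.L2 hy₀b
    rw [ad_of_adj hy₀.symm, hal, hga] at hL2
    exact X.T_ne' hNB y₀ (by linarith)
  obtain ⟨y, hy⟩ := hex
  have hna : ¬ G.Adj w y := fun hadj => X.not_c hadj hT hy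
  have hL1 := X.L1 hy
  rw [ad_of_not hna] at hL1
  have hsub : nb G Q (2 * n) w w ⊆ nb G Q (2 * n) w y ∪ nb G Q (2 * n + D - 1) w y := by
    intro z hz
    rw [mem_nb] at hz
    have hTz := X.M2_a_hub hw hz.1 (by rw [X.symm]; exact hz.2)
    have hzy : z ≠ y := by rintro rfl; exact hna hz.1
    rw [Finset.mem_union, mem_nb, mem_nb]
    rcases X.vals hzy with h | h | h
    · left; exact ⟨hz.1, h⟩
    · right; exact ⟨hz.1, h⟩
    · exact absurd h (X.hub_not_c hTz)
  have hcard : al G Q n w w ≤ al G Q n w y + be G Q n D w y := by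
    have h6 := (Finset.card_le_card hsub).trans (Finset.card_union_le _ _)
    unfold al be
    exact_mod_cast h6
  have hal0 := al_nonneg (G := G) (Q := Q) (n := n) w w
  have hal1 := al_nonneg (G := G) (Q := Q) (n := n) w y
  have hbe1 := be_nonneg (G := G) (Q := Q) (n := n) (D := D) w y
  have hTge : ((D : ℤ) + 1) * al G Q n w w ≤ T w := by
    have h1 : ((D : ℤ) + 1) * al G Q n w w ≤
        ((D : ℤ) + 1) * (al G Q n w y + be G Q n D w y) :=
      mul_le_mul_of_nonneg_left hcard (by linarith)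
    have h2 : ((D : ℤ) + 1) * al G Q n w y ≤ 2 * (D : ℤ) * al G Q n w y :=
      mul_le_mul_of_nonneg_right (by linarith) hal1
    linarith
  -- the degree
  have hx : mu n D = 2 * ((n : ℤ) + D) * n - (2 * n + D - 1) * (n + ((D / 2 : ℕ) : ℤ)) := rfl
  have hdeg : (G.degree w : ℤ) = n + ((D / 2 : ℕ) : ℤ) := by
    have e1 : 2 * al G Q n w w ≤ 2 * ((n : ℤ) + D) * n - (2 * n + D - 1) * G.degree w := by
      linarith
    have e2 : 2 * ((n : ℤ) + D) * n - (2 * n + D - 1) * G.degree w ≤ 2 * n := by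
      have := X.al_mul_nonneg w w
      linarith
    have e3 : (2 * (n : ℤ) + D - 1) * (n + ((D / 2 : ℕ) : ℤ) - G.degree w) ≤ 2 * n := by
      linarith
    have e4 : -(2 * (n : ℤ)) ≤ (2 * (n : ℤ) + D - 1) * (n + ((D / 2 : ℕ) : ℤ) - G.degree w) := by
      linarith
    have e5 : (n : ℤ) + ((D / 2 : ℕ) : ℤ) - G.degree w = 0 := by
      rcases lt_trichotomy ((n : ℤ) + ((D / 2 : ℕ) : ℤ) - G.degree w) 0 with h | h | h
      · exfalso
        have h' : (n : ℤ) + ((D / 2 : ℕ) : ℤ) - G.degree w ≤ -1 := by omega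
        nlinarith
      · exact h
      · exfalso
        have h' : 1 ≤ (n : ℤ) + ((D / 2 : ℕ) : ℤ) - G.degree w := by omega
        nlinarith
    linarith
  have hTw : T w = mu n D + (D - 1) * al G Q n w w := by
    rw [hTeq', hdeg, hx]
  have hTpos : 0 < T w := by
    have := X.al_mul_nonneg w w
    linarith
  refine ⟨⟨y, hy⟩, hdeg, hTw, by linarith, hmu0, ?_⟩
  intro v hv
  have hadj : G.Adj w v := by
    by_contra hna'
    have := (X.zero_a h0 hv hna').1
    linarith
  exact ⟨hadj, X.M2_a_hub hw hadj hv⟩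

end Pool.Agent.RSM
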