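import Pool.Agent.RSM.Stmts

/-! # Module MZC: `M0` vertices have no `c`-partner -/

set_option linter.unusedSectionVars false
set_option linter.unusedVariables false

namespace Pool.Agent.RSM

open Finset Pool.Agent.ResSpec Pool.Agent.ResSpec.LargeMod

universe u

namespace MZC_

variable {V : Type u} [Fintype V] [DecidableEq V] {G : SimpleGraph V} [DecidableRel G.Adj]
  {n D : ℕ} {Q : V → V → ℤ} {T : V → ℤ}

/-- the `c`-partners of an `M0` vertex are in `Cee` -/
theorem cee_of (X : Ctx n D G Q T) {u v : V} (hu : M0 n D G T u)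
    (h : Q u v = 2 * n + 2 * D) : 2 * n < T v := by
  by_contra hcon
  push Not at hcon
  have hT0 := (X.M0_T hu).1
  obtain ⟨hna, hN⟩ := X.zero_c hT0 h
  have hne := X.ne_of_c h
  have hcard := X.core.card
  have hdisj : Disjoint (G.neighborFinset v) (insert u (G.neighborFinset u)) := by
    rw [Finset.disjoint_left]
    intro w hw1 hw2
    rw [SimpleGraph.mem_neighborFinset] at hw1
    have hc : Q w v = 2 * n + 2 * D := by
      rw [Finset.mem_insert, SimpleGraph.mem_neighborFinset] at hw2
      rcases hw2 with rfl | hw2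
      · exact h
      · exact hN w hw2
    exact X.not_c hw1 hcon (by rw [X.symm]; exact hc)
  have hv : v ∉ G.neighborFinset v ∪ insert u (G.neighborFinset u) := by
    rw [Finset.mem_union, Finset.mem_insert, SimpleGraph.mem_neighborFinset,
      SimpleGraph.mem_neighborFinset]
    rintro (h1 | h1 | h1)
    · exact G.irrefl h1
    · exact hne h1.symm
    · exact hna h1
  have h1 : (insert v (G.neighborFinset v ∪ insert u (G.neighborFinset u))).card ≤ 2 * n + D := by
    rw [← hcard]
    exact Finset.card_le_univ _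
  rw [Finset.card_insert_of_notMem hv, Finset.card_union_of_disjoint hdisj,
    Finset.card_insert_of_notMem (by simp), SimpleGraph.card_neighborFinset_eq_degree,
    SimpleGraph.card_neighborFinset_eq_degree] at h1
  have hd := hu.2.2
  have h2 : (G.degree v : ℤ) ≤ n - 2 := by
    have : (G.degree u : ℤ) = ((n + D : ℕ) : ℤ) := by rw [hd]; push_cast; ring
    have : G.degree u = n + D := by exact_mod_cast this
    omega
  have h3 := X.Teq' hcon
  have h4 := X.al_mul_nonneg v v
  have h5 := X.n3
  have h6 := X.D3
  nlinarith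

theorem main (X : Ctx n D G Q T) (hNB : NB n D)
    (hCee : ∀ u w, 2 * n < T u → G.Adj u w → Q u w = 2 * n + D - 1 → (n : ℤ) + 1 ≤ G.degree u)
    {u v : V} (hu : M0 n D G T u) (h : Q u v = 2 * n + 2 * D) : False := by
  have hT0 := (X.M0_T hu).1
  obtain ⟨hna, hN⟩ := X.zero_c hT0 h
  have hne := X.ne_of_c h
  have hcard := X.core.card
  have h5 := X.n3
  have h6 := X.D3
  have hv := cee_of X hu h
  have hvu : Q v u = 2 * n + 2 * D := by rw [X.symm]; exact h
  obtain ⟨e1, e2⟩ := X.cee_T hv
  -- `γ(v,u) ≤ γ(v,v)`
  have hga : ga G Q n D v u ≤ ga G Q n D v v := by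
    unfold ga
    have : (nb G Q (2 * n + 2 * D) v u) ⊆ (nb G Q (2 * n + 2 * D) v v) := by
      intro y hy
      rw [mem_nb] at hy ⊢
      refine ⟨hy.1, ?_⟩
      have hy2 : 2 * n < T y := cee_of X hu (by rw [X.symm]; exact hy.2)
      exact X.cee_cee hNB hy.1.ne' hy2 hv
    exact_mod_cast Finset.card_le_card this
  have e3 := X.L1 hvu
  have e4 := X.deg v u
  rw [ad_of_not (fun hh => hna hh.symm)] at e3 e4
  have e5 := al_nonneg (G := G) (Q := Q) (n := n) v u
  have hdn : (G.degree v : ℤ) ≤ n := by
    by_contra hc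
    push Not at hc
    have e6 : ((D : ℤ) + 1) * (be G Q n D v u + al G Q n v u) ≤ T v := by nlinarith
    have e7 : (G.degree v : ℤ) - ga G Q n D v v ≤ be G Q n D v u + al G Q n v u := by linarith
    have e8 : ((D : ℤ) + 1) * ((G.degree v : ℤ) - ga G Q n D v v) ≤ T v :=
      le_trans (mul_le_mul_of_nonneg_left e7 (by linarith)) e6
    rw [e2] at e8
    nlinarith
  -- no `b`-neighbours
  have hnb : ∀ w, G.Adj v w → Q v w = 2 * n + 2 * D := by
    intro w hw
    rcases X.vals hw.ne with h1 | h1 | h1
    · exact absurd h1 (X.cee_not_a hv)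
    · have := hCee v w hv hw h1
      linarith
    · exact h1
  have hnT : ∀ w, G.Adj v w → 2 * n < T w := fun w hw => (X.c_edge_cee hw (hnb w hw)).2
  have hbe : be G Q n D v v = 0 := by
    apply be_zero_of
    intro w hw hQ
    rw [X.symm, hnb w hw] at hQ
    linarith
  -- a neighbour
  have hnonempty : ∃ v', G.Adj v v' := by
    by_contra hc
    push Not at hc
    have := X.closed (fun x => x = v) (fun x y hx hxy => by subst hx; exact absurd hxy (hc y))
      (u := v) rfl u
    exact hne this
  obtain ⟨v', hv'⟩ := hnonempty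
  have hc' := hnb v' hv'
  have e9 := X.L1 hc'
  have hal' : al G Q n v v' = 0 := X.al_cee (hnT v' hv')
  have hbe' : be G Q n D v v' = 0 := by
    apply be_zero_of
    intro w hw hQ
    by_cases hwv : w = v'
    · subst hwv
      rw [X.diag] at hQ
      linarith
    · rw [X.cee_cee hNB hwv (hnT w hw) (hnT v' hv')] at hQ
      linarith
  rw [hal', hbe', ad_of_adj hv'] at e9
  rw [hbe] at e1
  have hd : (G.degree v : ℤ) = n - 1 := by
    have h7 : (n - (G.degree v : ℤ)) * (2 * n + 2 * D) = 1 * (2 * n + 2 * D) := by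
      have h9 : ga G Q n D v v = G.degree v := by linarith
      rw [h9] at e2
      rw [e9] at e2
      linarith
    have h8 := mul_right_cancel₀ (by positivity) h7
    linarith
  -- the count
  have hdisj : Disjoint (G.neighborFinset v) (insert u (G.neighborFinset u)) := by
    rw [Finset.disjoint_left]
    intro w hw1 hw2
    rw [SimpleGraph.mem_neighborFinset] at hw1
    have h1 := hnT w hw1
    rw [Finset.mem_insert, SimpleGraph.mem_neighborFinset] at hw2
    rcases hw2 with rfl | hw2
    · rw [hT0] at h1; linarith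
    · have := X.T_le_a' (X.M0_edge hu hw2)
      linarith
  have hvn : v ∉ G.neighborFinset v ∪ insert u (G.neighborFinset u) := by
    rw [Finset.mem_union, Finset.mem_insert, SimpleGraph.mem_neighborFinset,
      SimpleGraph.mem_neighborFinset]
    rintro (h1 | h1 | h1)
    · exact G.irrefl h1
    · exact hne h1.symm
    · exact hna h1
  have h1 : (insert v (G.neighborFinset v ∪ insert u (G.neighborFinset u))).card ≤ 2 * n + D := by
    rw [← hcard]
    exact Finset.card_le_univ _
  rw [Finset.card_insert_of_notMem hvn, Finset.card_union_of_disjoint hdisj,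
    Finset.card_insert_of_notMem (by simp), SimpleGraph.card_neighborFinset_eq_degree,
    SimpleGraph.card_neighborFinset_eq_degree] at h1
  have hdu := hu.2.2
  have h2 : (G.degree v : ℤ) + (G.degree u + 1) + 1 ≤ 2 * n + D := by exact_mod_cast h1
  linarith

end MZC_

theorem mzc_proof (h1 : Stmt_Cee.{u}) (h2 : Stmt_MTwo.{u}) (h3 : Stmt_M1Cee.{u}) :
    Stmt_MZC.{u} := by
  intro V _ _ G _ n D Q T X hK hNB u v hu h
  exact MZC_.main X hNB (h1 V G n D Q T X hK) hu h

end Pool.Agent.RSM
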