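import Pool.Agent.RSM.Stmts

/-! # The remaining range of MP_23a9ba_co: module NOCEE -/

namespace Pool.Agent.RSM

open Finset Pool.Agent.ResSpec Pool.Agent.ResSpec.LargeMod

universe u

namespace NOCEE_

/-- the arithmetic at the end -/
theorem arith {h z s g d n D T : ℤ} (hg : 0 ≤ g) (hs : 1 ≤ s)
    (hD : 3 ≤ D) (hn : 3 ≤ n) (h1 : z * s ≤ h * (s - (h - 1))) (h2 : d = (h + z) + g)
    (h3 : T = (D + 1) * (n - g) - (2 * n + D - 1) * (d - n)) (h4 : n + 1 ≤ d)
    (h5 : T = (2 * n + D - 1) * 1 + (D - 1) * s - (D + 1) * 0) : False := by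
  have e1 : 0 ≤ (s - h) * (s - h + 1) := by
    rcases le_or_gt 0 (s - h) with h6 | h6
    · exact mul_nonneg h6 (by linarith)
    · exact mul_nonneg_of_nonpos_of_nonpos h6.le (by linarith [Int.add_one_le_iff.2 h6])
  have e2 : (h + z) * s ≤ (s + 1) * s := by nlinarith
  have e3 : h + z ≤ s + 1 := le_of_mul_le_mul_right e2 (by linarith)
  have e4 : (D - 1) * (h + z - s - 1) = 2 * g + 2 * (n + D - 1) * (d - n) := by
    have e5 : (D - 1) * s = T - (2 * n + D - 1) := by linarith
    have e6 : h + z = d - g := by linarith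
    rw [show h + z - s - 1 = (d - g) - s - 1 by rw [e6]]
    rw [show (D - 1) * ((d - g) - s - 1) = (D - 1) * (d - g) - (D - 1) * s - (D - 1) by ring, e5, h3]
    ring
  have e7 : (D - 1) * (h + z - s - 1) ≤ 0 :=
    mul_nonpos_of_nonneg_of_nonpos (by linarith) (by linarith)
  have e8 : 0 < 2 * (n + D - 1) * (d - n) := by
    apply mul_pos
    · linarith
    · linarith
  linarith

end NOCEE_

open NOCEE_ in
theorem nocee_proof (hCee : Stmt_Cee.{u}) (hMTwo : Stmt_MTwo.{u}) : Stmt_NoCee.{u} := by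
  intro V _ _ G _ n D Q T X hK hNB hM1 u0
  by_contra hu0
  push Not at hu0
  have h3 := X.n3
  have h4 := X.D3
  -- some vertex has `T ≤ 2 n`
  have hex : ∃ z, T z ≤ 2 * n := by
    by_contra hcon
    push Not at hcon
    have h1 : ∑ _v : V, (2 * (n : ℤ) + 1) ≤ ∑ v, T v :=
      Finset.sum_le_sum fun v _ => Int.add_one_le_iff.2 (hcon v)
    rw [Finset.sum_const, Finset.card_univ, X.core.card, X.core.sumT, nsmul_eq_mul] at h1
    push_cast at h1
    nlinarith
  obtain ⟨u, z, hu, hz, hadj⟩ : ∃ u z, 2 * n < T u ∧ T z ≤ 2 * n ∧ G.Adj u z := by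
    by_contra hcon
    push Not at hcon
    obtain ⟨z, hz⟩ := hex
    have := X.closed (fun v => 2 * n < T v) (fun a b ha hab => by
      by_contra hb
      exact hcon a b ha (not_lt.1 hb) hab) hu0 z
    linarith
  -- neighbours of `u` with `T ≤ 2 n` are `b`-neighbours
  have hbn : ∀ w, G.Adj u w → T w ≤ 2 * n → Q u w = 2 * n + D - 1 := by
    intro w hw hT
    rcases X.vals hw.ne with h | h | h
    · exact absurd h (X.cee_not_a hu)
    · exact h
    · have := (X.c_edge_cee hw h).2
      linarith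
  have hdeg := hCee V G n D Q T X hK u z hu hadj (hbn z hadj hz)
  obtain ⟨hd1, hT1⟩ := X.cee_T hu
  -- middle neighbours are `M2`
  have hmid : ∀ w, G.Adj u w → 0 ≤ T w → T w ≤ 2 * n → M2 n D G T w := by
    intro w hw h0 hT
    rcases X.mid_cases h0 hT with h | h | h
    · exact absurd (X.M0_edge h hw.symm) (by
        intro h5
        rw [X.symm] at h5
        exact X.cee_not_a hu h5)
    · exact absurd h (hM1 w)
    · exact h
  set B := (G.neighborFinset u).filter (fun w => T w ≤ 2 * n) with hB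
  set H := B.filter (fun w => T w < 0) with hH
  set Z := B.filter (fun w => ¬ T w < 0) with hZ
  have hmemH : ∀ w, w ∈ H ↔ G.Adj u w ∧ T w < 0 := by
    intro w
    simp only [hH, hB, Finset.mem_filter, SimpleGraph.mem_neighborFinset]
    constructor
    · rintro ⟨⟨h1, _⟩, h2⟩; exact ⟨h1, h2⟩
    · rintro ⟨h1, h2⟩; exact ⟨⟨h1, by linarith⟩, h2⟩
  have hmemZ : ∀ w, w ∈ Z ↔ G.Adj u w ∧ 0 ≤ T w ∧ T w ≤ 2 * n := by
    intro w
    simp only [hZ, hB, Finset.mem_filter, SimpleGraph.mem_neighborFinset, not_lt]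
    tauto
  have hbe : be G Q n D u u = (H.card : ℤ) + Z.card := by
    have e1 : nb G Q (2 * n + D - 1) u u = B := by
      ext w
      rw [mem_nb]
      simp only [hB, Finset.mem_filter, SimpleGraph.mem_neighborFinset]
      constructor
      · rintro ⟨h1, h2⟩
        refine ⟨h1, ?_⟩
        by_contra hcon
        push Not at hcon
        rw [X.cee_cee hNB h1.ne' hcon hu] at h2
        linarith
      · rintro ⟨h1, h2⟩
        exact ⟨h1, by rw [X.symm]; exact hbn w h1 h2⟩
    unfold be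
    rw [e1, ← Finset.card_filter_add_card_filter_not (s := B) (fun w => T w < 0)]
    push_cast
    rfl
  -- `alpha` at hubs
  have hgaH : ∀ v, T v < 0 → ga G Q n D u v = 0 := fun v hv => X.ga_hub hv
  have hT2 : ∀ w, G.Adj u w → T w ≤ 2 * n →
      T u = (2 * n + D - 1) * 1 + (D - 1) * al G Q n u w - (D + 1) * ga G Q n D u w := by
    intro w hw hT
    have := X.L2 (hbn w hw hT)
    rw [ad_of_adj hw] at this
    exact this
  have halZ : ∀ y ∈ Z, al G Q n u y = ((H.filter (fun v => Q v y = 2 * n)).card : ℤ) := by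
    intro y hy
    obtain ⟨hy1, hy2, hy3⟩ := (hmemZ y).1 hy
    have hM := hMTwo V G n D Q T X hNB y (hmid y hy1 hy2 hy3)
    unfold al
    congr 2
    ext w
    rw [mem_nb, Finset.mem_filter, hmemH]
    constructor
    · rintro ⟨h1, h2⟩
      exact ⟨⟨h1, (hM.2.2.2.2.2 w (by rw [X.symm]; exact h2)).2⟩, h2⟩
    · rintro ⟨⟨h1, _⟩, h2⟩
      exact ⟨h1, h2⟩
  have halH : ∀ v ∈ H, al G Q n u v =
      ((H.card : ℤ) - 1) + ((Z.filter (fun y => Q y v = 2 * n)).card : ℤ) := by
    intro v hv
    obtain ⟨hv1, hv2⟩ := (hmemH v).1 hv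
    have e1 : nb G Q (2 * n) u v = (H.erase v) ∪ (Z.filter (fun y => Q y v = 2 * n)) := by
      ext w
      rw [mem_nb, Finset.mem_union, Finset.mem_erase, hmemH w, Finset.mem_filter, hmemZ w]
      constructor
      · rintro ⟨h1, h2⟩
        have h5 := X.ne_of_a h2
        have h6 := X.T_le_a h2
        rcases lt_or_ge (T w) 0 with h7 | h7
        · left; exact ⟨h5, h1, h7⟩
        · right; exact ⟨⟨h1, h7, h6⟩, h2⟩
      · rintro (⟨h1, h2, h5⟩ | ⟨⟨h1, _, _⟩, h2⟩)
        · exact ⟨h2, X.hub_hub h1 h5 hv2⟩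
        · exact ⟨h1, h2⟩
    have e2 : Disjoint (H.erase v) (Z.filter (fun y => Q y v = 2 * n)) := by
      rw [Finset.disjoint_left]
      intro w hw hw2
      have h5 := (hmemH w).1 (Finset.mem_of_mem_erase hw)
      have h6 := (hmemZ w).1 (Finset.mem_filter.1 hw2).1
      linarith [h5.2, h6.2.1]
    unfold al
    rw [e1, Finset.card_union_of_disjoint e2, Finset.card_erase_of_mem hv]
    have : 1 ≤ H.card := Finset.card_pos.2 ⟨v, hv⟩
    push_cast [Nat.cast_sub this]
    ring
  -- `H` is not empty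
  have hHne : H.Nonempty := by
    by_contra hcon
    rw [Finset.not_nonempty_iff_eq_empty] at hcon
    have hz0 : 0 ≤ T z := by
      by_contra hneg
      push Not at hneg
      have : z ∈ H := (hmemH z).2 ⟨hadj, hneg⟩
      rw [hcon] at this
      simp at this
    have hzZ : z ∈ Z := (hmemZ z).2 ⟨hadj, hz0, hz⟩
    have e1 := halZ z hzZ
    rw [hcon] at e1
    simp only [Finset.filter_empty, Finset.card_empty, Nat.cast_zero] at e1
    have e2 := hT2 z hadj hz
    rw [e1] at e2
    have e3 := ga_nonneg (G := G) (Q := Q) (n := n) (D := D) u z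
    have e4 : ga G Q n D u z = 0 := by
      by_contra hne
      have : 1 ≤ ga G Q n D u z := by
        have := lt_of_le_of_ne e3 (Ne.symm hne)
        linarith
      nlinarith
    rw [e4] at e2
    exact X.T_ne' hNB u (by linarith)
  obtain ⟨v0, hv0⟩ := hHne
  obtain ⟨hv01, hv02⟩ := (hmemH v0).1 hv0
  set s := al G Q n u v0 with hs
  have hTs : T u = (2 * n + D - 1) * 1 + (D - 1) * s - (D + 1) * 0 := by
    have := hT2 v0 hv01 (by linarith)
    rw [hgaH v0 hv02] at this
    exact this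
  have hs0 : 0 ≤ s := al_nonneg _ _
  have hs1 : 1 ≤ s := by
    by_contra hcon
    have : s = 0 := by linarith [not_le.1 hcon, Int.lt_add_one_iff.1 (show s < 0 + 1 by linarith [not_le.1 hcon])]
    rw [this] at hTs
    exact X.T_ne' hNB u (by linarith)
  have hDpos : (0 : ℤ) < D - 1 := by linarith
  have hsH : ∀ v ∈ H, al G Q n u v = s := by
    intro v hv
    obtain ⟨hv1, hv2⟩ := (hmemH v).1 hv
    have e1 := hT2 v hv1 (by linarith)
    rw [hgaH v hv2, hTs] at e1
    have e2 : ((D : ℤ) - 1) * al G Q n u v = (D - 1) * s := by linarith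
    exact mul_left_cancel₀ hDpos.ne' e2
  have hsZ : ∀ y ∈ Z, s ≤ al G Q n u y := by
    intro y hy
    obtain ⟨hy1, hy2, hy3⟩ := (hmemZ y).1 hy
    have e1 := hT2 y hy1 hy3
    have e2 := X.ga_mul_nonneg u y
    have e3 : ((D : ℤ) - 1) * s ≤ (D - 1) * al G Q n u y := by linarith
    exact le_of_mul_le_mul_left e3 hDpos
  -- double counting
  have hdc : ∑ y ∈ Z, ((H.filter (fun v => Q v y = 2 * n)).card : ℤ) =
      ∑ v ∈ H, ((Z.filter (fun y => Q y v = 2 * n)).card : ℤ) := by
    simp only [Finset.card_filter]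
    push_cast
    rw [Finset.sum_comm]
    refine Finset.sum_congr rfl fun v _ => Finset.sum_congr rfl fun y _ => ?_
    rw [X.symm v y]
  have hcount : (Z.card : ℤ) * s ≤ H.card * (s - (H.card - 1)) := by
    calc (Z.card : ℤ) * s = ∑ _y ∈ Z, s := by rw [Finset.sum_const, nsmul_eq_mul]
      _ ≤ ∑ y ∈ Z, ((H.filter (fun v => Q v y = 2 * n)).card : ℤ) := by
          refine Finset.sum_le_sum fun y hy => ?_
          rw [← halZ y hy]
          exact hsZ y hy
      _ = ∑ v ∈ H, ((Z.filter (fun y => Q y v = 2 * n)).card : ℤ) := hdc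
      _ = ∑ _v ∈ H, (s - ((H.card : ℤ) - 1)) := by
          refine Finset.sum_congr rfl fun v hv => ?_
          have e1 := halH v hv
          rw [hsH v hv] at e1
          linarith
      _ = H.card * (s - (H.card - 1)) := by rw [Finset.sum_const, nsmul_eq_mul]
  refine arith (h := H.card) (z := Z.card) (s := s) (g := ga G Q n D u u) (d := G.degree u)
    (n := n) (D := D) (T := T u) (ga_nonneg _ _) hs1 h4 h3 hcount ?_ hT1 hdeg hTs
  rw [hd1, hbe]

end Pool.Agent.RSM
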