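import Pool.Agent.RSM.Stmts

/-! # Module NOM0: no `M0` vertices -/

set_option linter.unusedSectionVars false
set_option linter.unusedVariables false

namespace Pool.Agent.RSM

open Finset Pool.Agent.ResSpec Pool.Agent.ResSpec.LargeMod

universe u

theorem nom0_proof : Stmt_NoM0.{u} := by
  intro V _ _ G _ n D Q T X hM1 hT w hw
  have h3 := X.n3
  have h4 := X.D3
  -- neighbours of `M0` vertices are `M0` or hubs
  have hnb : ∀ u v, M0 n D G T u → G.Adj u v → ¬ T v < 0 → M0 n D G T v := by
    intro u v hu huv hv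
    push Not at hv
    have hQ := X.M0_edge hu huv
    rcases X.a_edge huv hQ hu.1 hv with h | h | h | h
    · exact h.2
    · exact absurd h.2 (hM1 v)
    · exact absurd h.1 (hM1 u)
    · exact absurd h.1 (hM1 u)
  -- some `M0` vertex has a hub neighbour
  obtain ⟨u, h, hu, huh, hh⟩ : ∃ u h, M0 n D G T u ∧ G.Adj u h ∧ T h < 0 := by
    by_contra hcon
    push Not at hcon
    have hall : ∀ v, M0 n D G T v := by
      intro v
      refine X.closed (M0 n D G T) ?_ hw v
      intro u v hu huv
      exact hnb u v hu huv (not_lt.2 (hcon u v hu huv))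
    have hsum := X.sum_pos
    have : ∑ u, T u = 0 := Finset.sum_eq_zero fun u _ => (X.M0_T (hall u)).1
    linarith
  have hQ := X.M0_edge hu huh
  have hTu := (X.M0_T hu).1
  have e1 := X.L3 hQ
  rw [hTu, ad_of_adj huh, X.ga_hub hh] at e1
  have hbe : 0 < be G Q n D u h := by
    by_contra hc
    have h0 : be G Q n D u h = 0 :=
      le_antisymm (not_lt.1 hc) (be_nonneg (G := G) (Q := Q) (n := n) (D := D) u h)
    rw [h0] at e1
    linarith
  obtain ⟨v, huv, hvh⟩ := be_pos_iff.1 hbe
  have hvne : v ≠ h := X.ne_of_b hvh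
  have hTv : ¬ T v < 0 := by
    intro hv
    have := X.hub_hub hvne hv hh
    rw [this] at hvh
    linarith
  have hv := hnb u v hu huv hTv
  have hnad : ¬ G.Adj v h := by
    intro had
    have := X.M0_edge hv had
    rw [this] at hvh
    linarith
  have e2 := X.L2 hvh
  rw [(X.M0_T hv).1, ad_of_not hnad, X.ga_hub hh] at e2
  have hal : 0 < al G Q n v h := al_pos_iff.2 ⟨u, huv.symm, hQ⟩
  have : 0 < ((D : ℤ) - 1) * al G Q n v h := mul_pos (by linarith) hal
  linarith

end Pool.Agent.RSM
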