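import Pool.Agent.RSM.Stmts

/-! # (NOM1) there are no M1 vertices -/

set_option linter.unusedSectionVars false
set_option linter.unusedVariables false

namespace Pool.Agent.RSM

open Finset Pool.Agent.ResSpec Pool.Agent.ResSpec.LargeMod

universe u

namespace NOM1_

/-- the arithmetic in the case of an `M1` neighbour -/
theorem ar1 {n D d d' T : ℤ} (hn : 3 ≤ n) (hD : 4 ≤ D) (hd : 0 ≤ d) (hdd : d ≤ d')
    (hT : T = 2 * n - (D - 1) * d') (h : (D + 1) * (n + D) - 2 * n - 2 * d ≤ T) : False := by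
  have h1 : (D - 1) * d ≤ (D - 1) * d' := mul_le_mul_of_nonneg_left hdd (by linarith)
  have h2 : 0 ≤ (D - 3) * n := mul_nonneg (by linarith) (by linarith)
  have h3 : 0 ≤ (D - 3) * d := mul_nonneg (by linarith) hd
  have h4 : 0 < (D + 1) * D := mul_pos (by linarith) (by linarith)
  nlinarith

/-- the arithmetic in the case of an `M2` neighbour -/
theorem ar2 {n D : ℕ} {d a : ℤ} (hn : 3 ≤ n) (hD : 4 ≤ D) (hd : 0 ≤ d) (ha : 0 ≤ a)
    (hT : ((D : ℤ) - 1) * d ≤ 2 * n)
    (h : ((D : ℤ) + 1) * (n + D) - 2 * n - 2 * d ≤ mu n D - 2 * a) : False := by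
  have hn' : (3 : ℤ) ≤ n := by exact_mod_cast hn
  rcases Nat.lt_or_ge 4 D with h5 | h5
  · have hD' : (5 : ℤ) ≤ D := by exact_mod_cast h5
    have hmu : mu n D ≤ 2 * n := by
      rcases Nat.even_or_odd' D with ⟨e, he | he⟩
      · rw [mu_even he]
        have he1 : (1 : ℤ) ≤ e := by
          have : 1 ≤ e := by omega
          exact_mod_cast this
        have : 0 ≤ (e : ℤ) * (2 * e - 1) := mul_nonneg (by linarith) (by linarith)
        linarith
      · rw [mu_odd he]
        have : 0 ≤ (e : ℤ) ^ 2 := by positivity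
        linarith
    have h4 : 4 * d ≤ (D - 1) * d := mul_le_mul_of_nonneg_right (by linarith) hd
    have h6 : 6 * (n : ℤ) ≤ (D + 1) * n := mul_le_mul_of_nonneg_right (by linarith) (by linarith)
    have h7 : 0 < ((D : ℤ) + 1) * D := mul_pos (by linarith) (by linarith)
    nlinarith
  · have h6 : D = 4 := by omega
    subst h6
    rw [mu_even (e := 2) rfl] at h
    push_cast at h hT
    linarith

end NOM1_

theorem nom1_proof (h1 : Stmt_MOne.{u}) (h2 : Stmt_MTwo.{u}) (h3 : Stmt_M1W.{u})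
    (h4 : Stmt_D3.{u}) : Stmt_NoM1.{u} := by
  classical
  intro V _ _ G _ n D Q T X hK hNB w0 hw0
  rcases Nat.lt_or_ge 3 D with hD | hD
  swap
  · have h5 : D = 3 := by
      have := X.hD3
      omega
    exact h4 V G n D Q T X hK h5 w0 hw0
  -- minimal `d_b`
  obtain ⟨w, hw, hmin⟩ := Finset.exists_min_image
    (Finset.univ.filter fun w : V => M1 n D G T w) (fun w => be G Q n D w w)
    ⟨w0, by simpa using hw0⟩
  simp only [Finset.mem_filter, Finset.mem_univ, true_and] at hw hmin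
  obtain ⟨⟨y, hwy, hby, hTy⟩, hii⟩ := h3 V G n D Q T X hK hNB w hw
  obtain ⟨hle, hle2⟩ := hii y hwy hby hTy
  have hy0 : 0 ≤ T y := X.mid_b hw.2.1 hwy hby
  have hb0 : 0 ≤ be G Q n D w w := be_nonneg _ _
  have hn3 := X.n3
  have hD4 : (4 : ℤ) ≤ D := by exact_mod_cast hD
  rcases X.mid_cases hy0 hTy with hy | hy | hy
  · -- `M0`
    have h6 := X.M0_edge hy hwy.symm
    rw [X.symm] at h6
    rw [hby] at h6
    linarith
  · -- `M1`
    exact NOM1_.ar1 hn3 hD4 hb0 (hmin y hy) (X.M1_T hy).1 hle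
  · -- `M2`
    have h6 := (X.M1_T hw).1
    have h7 := hw.1
    exact NOM1_.ar2 X.hn3 hD hb0 (al_nonneg _ _) (by linarith) (hle2 hy)

end Pool.Agent.RSM
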