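import Pool.Agent.RSM.Stmts

/-! # The arithmetic contradiction -/

namespace Pool.Agent.RSM

namespace NUM_

theorem odd_eq (n e η s p : ℤ) (hs : η + s = 2 * n + (2 * e + 1))
    (h2 : n * (n - 1) = η * (η - 1) + 2 * p)
    (h3 : (n + (2 * e + 1)) * (n + (2 * e + 1) - 1) = s * (s - 1 - (n + e)) + p) :
    η ^ 2 - η * (6 * n + 6 * e + 1) + 3 * n ^ 2 - n - 4 * e ^ 2 - 2 * e = 0 := by
  obtain rfl : s = 2 * n + (2 * e + 1) - η := by linarith
  linear_combination h2 - 2 * h3

theorem even_eq (n e η s p : ℤ) (hs : η + s = 2 * n + 2 * e)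
    (h2 : n * (n - 1) = η * (η - 1) + 2 * p)
    (h3 : (n + 2 * e) * (n + 2 * e - 1) = s * (s - 1 - (n + e)) + p) :
    η ^ 2 - η * (6 * n + 6 * e - 3) + 3 * n ^ 2 - 3 * n - 4 * e ^ 2 = 0 := by
  obtain rfl : s = 2 * n + 2 * e - η := by linarith
  linear_combination h2 - 2 * h3

theorem odd_case (n e η s p q : ℤ) (hn : 3 ≤ n) (he : 1 ≤ e) (hDn : (2 * e + 1) * (2 * e) ≤ 2 * n)
    (hη : 0 ≤ η) (hs0 : 0 ≤ s) (hp : 0 ≤ p) (hs : η + s = 2 * n + (2 * e + 1))
    (h2 : n * (n - 1) = η * (η - 1) + 2 * p)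
    (h3 : (n + (2 * e + 1)) * (n + (2 * e + 1) - 1) = s * (s - 1 - (n + e)) + p)
    (h4 : (2 * e) * q = 2 * n * p - s * η * (2 * n - 2 * e ^ 2))
    (hpq : p ≤ q) (h2p : 2 * p ≤ 2 * e * s) : False := by
  have hE := odd_eq n e η s p hs h2 h3
  have hn' : 2 * e ^ 2 + e ≤ n := by nlinarith
  have hspos : 0 < s := by
    rcases hs0.lt_or_eq with h | h
    · exact h
    · exfalso
      have hp0 : p = 0 := by
        rw [← h] at h2p
        linarith
      rw [hp0] at h2
      have : η = 2 * n + (2 * e + 1) := by linarith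
      rw [this] at h2
      nlinarith
  have h5 : s * (η * (2 * n - 2 * e ^ 2)) ≤ s * ((2 * n - 2 * e) * e) := by
    have a1 : 2 * e * p ≤ 2 * e * q := mul_le_mul_of_nonneg_left hpq (by linarith)
    have a2 : (2 * n - 2 * e) * p ≤ (2 * n - 2 * e) * (e * s) := by
      apply mul_le_mul_of_nonneg_left (by linarith)
      nlinarith
    nlinarith
  have h6 : η * (2 * n - 2 * e ^ 2) ≤ (2 * n - 2 * e) * e := le_of_mul_le_mul_left h5 hspos
  have h7 : η ≤ 2 * e - 1 := by
    by_contra hc
    have hc' : 2 * e ≤ η := by omega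
    have a1 : 2 * e * (2 * n - 2 * e ^ 2) ≤ η * (2 * n - 2 * e ^ 2) := by
      apply mul_le_mul_of_nonneg_right hc'
      nlinarith
    have a2 : e * (2 * (2 * n - 2 * e ^ 2)) ≤ e * (2 * n - 2 * e) := by nlinarith
    have a3 : 2 * (2 * n - 2 * e ^ 2) ≤ 2 * n - 2 * e := le_of_mul_le_mul_left a2 (by linarith)
    nlinarith
  have h8 : 3 * n ^ 2 - 12 * e * n + 5 * n - 12 * e ^ 2 - 2 * e + 2 ≤ 0 := by
    have a1 : 0 ≤ (2 * e - 1 - η) * (6 * n + 6 * e + 1 - η - (2 * e - 1)) := by
      apply mul_nonneg <;> linarith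
    nlinarith
  rcases he.eq_or_lt with h | h
  · subst h
    have : n ≤ 3 := by nlinarith
    have hn3 : n = 3 := le_antisymm this hn
    subst hn3
    have hη1 : η ≤ 1 := by linarith
    interval_cases η <;> norm_num at hE
  · have he2 : 2 ≤ e := by omega
    have a1 : 5 * e ≤ n := by nlinarith
    nlinarith [mul_nonneg (by linarith : (0 : ℤ) ≤ n - 5 * e) (by linarith : (0 : ℤ) ≤ n),
      mul_nonneg (by linarith : (0 : ℤ) ≤ n - 5 * e) (by linarith : (0 : ℤ) ≤ e)]

theorem even_p_pos (n e η s p q μ : ℤ) (hn : 3 ≤ n) (he : 2 ≤ e)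
    (hη : 0 ≤ η) (hp : 0 ≤ p) (hs : η + s = 2 * n + 2 * e) (hμ : 0 < μ)
    (h2 : n * (n - 1) = η * (η - 1) + 2 * p)
    (h4 : (2 * e - 1) * q = 2 * n * p - s * η * μ)
    (h2q : 2 * q ≤ μ * p) (hpq : p ≤ q) : 0 < p := by
  rcases hp.lt_or_eq with h | h
  · exact h
  · exfalso
    subst h
    have hq : q = 0 := by
      have : 2 * q ≤ 0 := by linarith
      omega
    subst hq
    have h5 : (n - η) * (n + η - 1) = 0 := by linear_combination h2
    have h6 : n = η := by
      rcases mul_eq_zero.1 h5 with h | h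
      · linarith
      · linarith
    subst h6
    have h7 : s * n * μ = 0 := by linear_combination h4
    have h8 : 0 < s := by linarith
    have : 0 < s * n * μ := mul_pos (mul_pos h8 (by linarith)) hμ
    linarith

theorem even_size (n e η s p q μ : ℤ) (hn : 3 ≤ n) (he : 2 ≤ e)
    (hη : 0 ≤ η) (hp : 0 < p) (hs0 : 0 ≤ s)
    (h2 : n * (n - 1) = η * (η - 1) + 2 * p)
    (h4 : (2 * e - 1) * q = 2 * n * p - s * η * μ)
    (hcs : p ^ 2 ≤ s * q) (h2p : 2 * p ≤ s * μ) : (2 * e - 1) * (n + η - 1) ≤ 4 * s := by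
  have h5 : 2 * p = (n - η) * (n + η - 1) := by linear_combination -h2
  have h6 : 0 < n - η := by
    by_contra hc
    have : (n - η) * (n + η - 1) ≤ 0 := mul_nonpos_of_nonpos_of_nonneg (by linarith) (by linarith)
    linarith
  have a1 : (2 * e - 1) * p ^ 2 ≤ s * ((2 * e - 1) * q) := by
    have := mul_le_mul_of_nonneg_left hcs (by linarith : (0 : ℤ) ≤ 2 * e - 1)
    linarith
  have a2 : s * (η * (2 * p)) ≤ s * (η * (s * μ)) :=
    mul_le_mul_of_nonneg_left (mul_le_mul_of_nonneg_left h2p hη) hs0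
  have a3 : p * ((2 * e - 1) * p) ≤ p * (2 * s * (n - η)) := by
    rw [h4] at a1
    nlinarith
  have a4 : (2 * e - 1) * p ≤ 2 * s * (n - η) := le_of_mul_le_mul_left a3 hp
  have a5 : (n - η) * ((2 * e - 1) * (n + η - 1)) ≤ (n - η) * (4 * s) := by
    have : (2 * e - 1) * (2 * p) ≤ 4 * s * (n - η) := by linarith
    rw [h5] at this
    linarith
  exact le_of_mul_le_mul_left a5 h6

theorem even_case (n e η s p q μ : ℤ) (hn : 3 ≤ n) (he : 2 ≤ e) (hμe : μ = n - e * (2 * e - 1))
    (hη : 0 ≤ η) (hs0 : 0 ≤ s) (hp : 0 ≤ p) (hs : η + s = 2 * n + 2 * e) (hμ : 0 < μ)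
    (h2 : n * (n - 1) = η * (η - 1) + 2 * p)
    (h3 : (n + 2 * e) * (n + 2 * e - 1) = s * (s - 1 - (n + e)) + p)
    (h4 : (2 * e - 1) * q = 2 * n * p - s * η * μ)
    (hcs : p ^ 2 ≤ s * q) (h2p : 2 * p ≤ s * μ) (h2q : 2 * q ≤ μ * p) (hpq : p ≤ q) : False := by
  have hE := even_eq n e η s p hs h2 h3
  have hp' := even_p_pos n e η s p q μ hn he hη hp hs hμ h2 h4 h2q hpq
  have hsz := even_size n e η s p q μ hn he hη hp' hs0 h2 h4 hcs h2p
  have hsz' : η * (2 * e + 3) + n * (2 * e - 9) ≤ 10 * e - 1 := by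
    have : s = 2 * n + 2 * e - η := by linarith
    rw [this] at hsz
    linarith
  have hn1 : e * (2 * e - 1) + 1 ≤ n := by linarith
  rcases (by omega : e = 2 ∨ e = 3 ∨ e = 4 ∨ e = 5 ∨ 6 ≤ e) with h | h | h | h | h
  · subst h
    have hn7 : 7 ≤ n := by linarith
    have hs' : s = 2 * n + 4 - η := by linarith
    have hspos : 0 < s := by
      rcases hs0.lt_or_eq with h | h
      · exact h
      · exfalso
        rw [← h] at hsz
        linarith
    have h9 : 0 ≤ s ^ 2 * (n ^ 2 - 3 * η * μ) := by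
      have a1 : (3 * p - n * s) ^ 2 ≤ s ^ 2 * (n ^ 2 - 3 * η * μ) := by
        have : s * (3 * q) = s * (2 * n * p - s * η * μ) := by
          rw [← h4]
          ring
        nlinarith
      exact le_trans (sq_nonneg _) a1
    have h10 : 0 ≤ n ^ 2 - 3 * η * μ := by
      have : 0 < s ^ 2 := by positivity
      by_contra hc
      have := mul_neg_of_pos_of_neg this (not_le.1 hc)
      linarith
    have h11 : 3 * η * (n - 6) ≤ n ^ 2 := by
      have : μ = n - 6 := by linarith
      rw [this] at h10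
      linarith
    rcases le_or_gt 24 n with h24 | h24
    · have h12 : 9 * η ≤ 4 * n := by
        by_contra hc
        have a1 : 4 * n + 1 ≤ 9 * η := by omega
        have a2 : (4 * n + 1) * (n - 6) ≤ 9 * η * (n - 6) :=
          mul_le_mul_of_nonneg_right a1 (by linarith)
        nlinarith
      have a1 : 0 ≤ (4 * n - 9 * η) * (54 * n + 81 - 9 * η - 4 * n) := by
        apply mul_nonneg <;> linarith
      nlinarith
    · have hηn : η ≤ n := by
        have : 2 * p = (n - η) * (n + η - 1) := by linear_combination -h2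
        by_contra hc
        have : (n - η) * (n + η - 1) ≤ 0 :=
          mul_nonpos_of_nonpos_of_nonneg (by linarith) (by linarith)
        linarith
      have hq : 3 * q = 2 * n * p - s * η * (n - 6) := by
        have : μ = n - 6 := by linarith
        rw [this] at h4
        linarith
      have hηb : η ≤ 23 := by linarith
      have hμ' : μ = n - 6 := by linarith
      subst hμ'
      subst hs'
      clear hsz hsz' hcs h2p h4 h9 h10 h11 h3 hs hs0 hspos hp hn hn1 hμe he hμ
      interval_cases n <;> interval_cases η <;> omega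
  · subst h
    have hn16 : 16 ≤ n := by linarith
    have h9 : 9 * η ≤ 3 * n + 29 := by linarith
    rcases le_or_gt 26 n with h26 | h26
    · have a1 : 0 ≤ (3 * n + 29 - 9 * η) * (54 * n + 135 - 9 * η - (3 * n + 29)) := by
        apply mul_nonneg <;> linarith
      nlinarith
    · have hηb : η ≤ 12 := by linarith
      clear hsz hsz' hcs h2p h4 h3 hs hs0 hp hn hn1 hμe he hμ h2 h2q hpq hp' h9
      interval_cases n <;> interval_cases η <;> omega
  · subst h
    have hn29 : 29 ≤ n := by linarith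
    have h9 : 11 * η ≤ n + 39 := by linarith
    have a1 : 0 ≤ (n + 39 - 11 * η) * (66 * n + 231 - 11 * η - (n + 39)) := by
      apply mul_nonneg <;> linarith
    nlinarith
  · subst h
    have hn46 : 46 ≤ n := by linarith
    have hη0 : η = 0 := by omega
    subst hη0
    nlinarith
  · exfalso
    have a1 : 0 ≤ η * (2 * e + 3) := mul_nonneg hη (by linarith)
    have a2 : (e * (2 * e - 1) + 1) * (2 * e - 9) ≤ n * (2 * e - 9) :=
      mul_le_mul_of_nonneg_right hn1 (by linarith)
    have a3 : (e * (2 * e - 1) + 1) * 3 ≤ (e * (2 * e - 1) + 1) * (2 * e - 9) := by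
      apply mul_le_mul_of_nonneg_left (by linarith)
      nlinarith
    nlinarith

end NUM_

theorem num_proof : Stmt_Num := by
  intro n D hn hD hDn η s p q hη hs0 hp hs hμ h2 h3 h4 hcs h2p h2q hpq hodd
  have hn' : (3 : ℤ) ≤ n := by exact_mod_cast hn
  rcases Nat.even_or_odd' D with ⟨e, he | he⟩
  · have he2 : 2 ≤ e := by omega
    have hμe := mu_even (n := n) he
    have hde : D / 2 = e := by omega
    have hDe : (D : ℤ) = 2 * e := by
      rw [he]
      push_cast
      ring
    rw [hde] at h3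
    rw [hDe] at h3 h4 hs
    exact NUM_.even_case n e η s p q (mu n D) hn' (by exact_mod_cast he2) hμe hη hs0 hp hs hμ h2
      (by linarith) h4 hcs h2p h2q hpq
  · have he1 : 1 ≤ e := by omega
    have hμe := mu_odd (n := n) he
    have hde : D / 2 = e := by omega
    have hDe : (D : ℤ) = 2 * e + 1 := by
      rw [he]
      push_cast
      ring
    have hod := hodd (by omega)
    rw [hde] at h3
    rw [hμe] at h4
    rw [hDe] at h3 h4 hs hDn hod
    exact NUM_.odd_case n e η s p q hn' (by exact_mod_cast he1) (by linarith) hη hs0 hp hs h2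
      (by linarith) (by linarith) hpq (by linarith)

end Pool.Agent.RSM
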