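import Pool.Agent.RSM.Stmts

/-! # Module STAR: the star `K_{m,1}` is determined by its resistance spectrum -/

set_option linter.unusedSectionVars false
set_option linter.unusedVariables false

namespace Pool.Agent.RSM

open Finset Pool.Agent.ResSpec Pool.Agent.ResSpec.LargeMod

universe u

namespace STAR_

variable {V : Type u} [Fintype V] [DecidableEq V] {G : SimpleGraph V} [DecidableRel G.Adj] {m : ℕ}

theorem iso (hm : 1 ≤ m) (hconn : G.Connected) (hcard : Fintype.card V = m + 1)
    (R : V → V → ℝ) (hvals : ∀ u v, u ≠ v → R u v = 1 ∨ R u v = 2)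
    (hcnt : ((Finset.univ : Finset (V × V)).filter (fun p => p.1 ≠ p.2 ∧ R p.1 p.2 = 1)).card
      = 2 * m)
    (hkey : ∀ u v, u ≠ v → 2 - ∑ w ∈ G.neighborFinset u, R u w =
        ∑ w ∈ G.neighborFinset u, (R u v - R w v))
    (hsum : ∑ u, (2 - ∑ w ∈ G.neighborFinset u, R u w) = 2) :
    Nonempty (G ≃g completeBipartiteGraph (Fin m) (Fin 1)) := by
  have hge : ∀ u v, u ≠ v → 1 ≤ R u v := by
    intro u v h
    rcases hvals u v h with h1 | h1 <;> rw [h1] <;> norm_num
  -- number of edges
  have hE1 : m ≤ #G.edgeFinset := by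
    have h := hconn.card_vert_le_card_edgeSet_add_one
    rw [Nat.card_eq_fintype_card, Nat.card_eq_fintype_card, hcard,
      ← SimpleGraph.edgeFinset_card] at h
    omega
  have hS : ∑ u, ∑ w ∈ G.neighborFinset u, R u w = 2 * m := by
    have h := hsum
    rw [Finset.sum_sub_distrib, Finset.sum_const, Finset.card_univ, hcard, nsmul_eq_mul] at h
    push_cast at h
    linarith
  have hD : ∑ u, ∑ w ∈ G.neighborFinset u, (1 : ℝ) = 2 * (#G.edgeFinset : ℝ) := by
    have h := G.sum_degrees_eq_twice_card_edges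
    have h2 : (∑ v, (G.degree v : ℝ)) = 2 * (#G.edgeFinset : ℝ) := by exact_mod_cast h
    rw [← h2]
    refine Finset.sum_congr rfl fun u _ => ?_
    rw [Finset.sum_const, nsmul_eq_mul, mul_one, SimpleGraph.card_neighborFinset_eq_degree]
  have hdiff : ∑ u, ∑ w ∈ G.neighborFinset u, (R u w - 1) = 2 * m - 2 * (#G.edgeFinset : ℝ) := by
    rw [← hS, ← hD, ← Finset.sum_sub_distrib]
    refine Finset.sum_congr rfl fun u _ => ?_
    rw [Finset.sum_sub_distrib]
  have hinner : ∀ u, 0 ≤ ∑ w ∈ G.neighborFinset u, (R u w - 1) := by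
    intro u
    refine Finset.sum_nonneg fun w hw => ?_
    have := hge u w ((G.mem_neighborFinset u w).1 hw).ne
    linarith
  have hpos : 0 ≤ ∑ u, ∑ w ∈ G.neighborFinset u, (R u w - 1) :=
    Finset.sum_nonneg fun u _ => hinner u
  have hE1' : (m : ℝ) ≤ (#G.edgeFinset : ℝ) := by exact_mod_cast hE1
  have hE : (#G.edgeFinset : ℝ) = m := by
    rw [hdiff] at hpos
    linarith
  have hEn : #G.edgeFinset = m := by exact_mod_cast hE
  have hzero : ∑ u, ∑ w ∈ G.neighborFinset u, (R u w - 1) = 0 := by
    rw [hdiff, hE]; ring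
  have hadj1 : ∀ u w, G.Adj u w → R u w = 1 := by
    intro u w h
    have h1 := (Finset.sum_eq_zero_iff_of_nonneg (fun u _ => hinner u)).1 hzero u
      (Finset.mem_univ _)
    have h2 := (Finset.sum_eq_zero_iff_of_nonneg (fun w hw => by
      have := hge u w ((G.mem_neighborFinset u w).1 hw).ne
      linarith)).1 h1 w ((G.mem_neighborFinset u w).2 h)
    linarith
  have hset : (Finset.univ : Finset (V × V)).filter (fun p => G.Adj p.1 p.2) =
      (Finset.univ : Finset (V × V)).filter (fun p => p.1 ≠ p.2 ∧ R p.1 p.2 = 1) := by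
    refine Finset.eq_of_subset_of_card_le ?_ ?_
    · intro p hp
      rw [Finset.mem_filter] at hp ⊢
      exact ⟨hp.1, hp.2.ne, hadj1 _ _ hp.2⟩
    · rw [hcnt, ← hEn, G.two_mul_card_edgeFinset]
  have hadj2 : ∀ u v, u ≠ v → R u v = 1 → G.Adj u v := by
    intro u v huv h
    have h1 : (u, v) ∈ (Finset.univ : Finset (V × V)).filter
        (fun p => p.1 ≠ p.2 ∧ R p.1 p.2 = 1) := by
      rw [Finset.mem_filter]
      exact ⟨Finset.mem_univ _, huv, h⟩
    rw [← hset, Finset.mem_filter] at h1
    exact h1.2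
  have hnt : Nontrivial V := by
    rw [← Fintype.one_lt_card_iff_nontrivial, hcard]
    omega
  have hdpos : ∀ v, 1 ≤ G.degree v := fun v => hconn.preconnected.degree_pos_of_nontrivial v
  have hdsum : ∑ v, G.degree v = 2 * m := by
    rw [G.sum_degrees_eq_twice_card_edges, hEn]
  -- a leaf
  obtain ⟨u, hu⟩ : ∃ u, G.degree u = 1 := by
    by_contra hno
    have h2 : ∀ v ∈ (Finset.univ : Finset V), 2 ≤ G.degree v := by
      intro v _
      have h3 := hdpos v
      have h4 : G.degree v ≠ 1 := fun h => hno ⟨v, h⟩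
      omega
    have h3 := Finset.card_nsmul_le_sum _ _ _ h2
    rw [Finset.card_univ, hcard, hdsum, smul_eq_mul] at h3
    omega
  obtain ⟨w, hw⟩ : ∃ w, G.neighborFinset u = {w} := by
    rw [← Finset.card_eq_one, SimpleGraph.card_neighborFinset_eq_degree, hu]
  have huw : G.Adj u w := by
    rw [← G.mem_neighborFinset, hw]; simp
  have hall : ∀ v, v ≠ w → G.Adj w v := by
    intro v hv
    by_cases hvu : v = u
    · subst hvu; exact huw.symm
    · have h1 := hkey u v (Ne.symm hvu)
      rw [hw, Finset.sum_singleton, Finset.sum_singleton, hadj1 u w huw] at h1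
      rcases hvals u v (Ne.symm hvu) with h2 | h2 <;> rcases hvals w v (Ne.symm hv) with h3 | h3
      · exact hadj2 w v (Ne.symm hv) h3
      · rw [h2, h3] at h1; norm_num at h1
      · exact hadj2 w v (Ne.symm hv) h3
      · rw [h2, h3] at h1; norm_num at h1
  have hdw : G.degree w = m := by
    rw [← SimpleGraph.card_neighborFinset_eq_degree]
    have h1 : G.neighborFinset w = Finset.univ.erase w := by
      ext v
      rw [G.mem_neighborFinset, Finset.mem_erase]
      constructor
      · intro h; exact ⟨h.ne', Finset.mem_univ _⟩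
      · intro h; exact hall v h.1
    rw [h1, Finset.card_erase_of_mem (Finset.mem_univ _), Finset.card_univ, hcard]
    omega
  have hrest : ∑ v ∈ Finset.univ.erase w, G.degree v = m := by
    have h1 := Finset.add_sum_erase Finset.univ (fun v => G.degree v) (Finset.mem_univ w)
    rw [hdsum, hdw] at h1
    omega
  have hdeg1 : ∀ v, v ≠ w → G.degree v = 1 := by
    have h1 : ∑ v ∈ Finset.univ.erase w, 1 = ∑ v ∈ Finset.univ.erase w, G.degree v := by
      rw [hrest, Finset.sum_const, Finset.card_erase_of_mem (Finset.mem_univ _),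
        Finset.card_univ, hcard, smul_eq_mul]
      omega
    have h2 := (Finset.sum_eq_sum_iff_of_le (fun v _ => hdpos v)).1 h1
    intro v hv
    exact (h2 v (Finset.mem_erase.2 ⟨hv, Finset.mem_univ _⟩)).symm
  have honly : ∀ v x, v ≠ w → G.Adj v x → x = w := by
    intro v x hv hx
    have h1 := hdeg1 v hv
    rw [← SimpleGraph.card_neighborFinset_eq_degree, Finset.card_eq_one] at h1
    obtain ⟨y, hy⟩ := h1
    have h2 : w ∈ G.neighborFinset v := (G.mem_neighborFinset v w).2 (hall v hv).symm
    have h3 : x ∈ G.neighborFinset v := (G.mem_neighborFinset v x).2 hx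
    rw [hy, Finset.mem_singleton] at h2 h3
    rw [h3, h2]
  obtain ⟨k, rfl⟩ : ∃ k, m = 1 + k := ⟨m - 1, by omega⟩
  refine FinMod.iso_of_adj (n := 1) (D := k) (by rw [hcard]; ring) {w}
    (Finset.card_singleton w) ?_
  intro a b
  simp only [Finset.mem_singleton]
  constructor
  · intro h
    by_cases ha : a = w
    · left
      refine ⟨ha, fun hb => ?_⟩
      rw [ha, hb] at h
      exact h.ne rfl
    · right
      exact ⟨ha, honly a b ha h⟩
  · rintro (⟨h1, h2⟩ | ⟨h1, h2⟩)
    · rw [h1]; exact hall b h2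
    · rw [h2]; exact (hall a h1).symm

end STAR_

theorem star_proof (hC : Stmt_Cntg.{u}) : Stmt_Star.{u} := by
  classical
  intro V _ _ G m hm hconn hs
  obtain ⟨hcard, hvals, hcnt⟩ := hC V G m 1 hm le_rfl hs
  obtain ⟨hkey, hsum, -⟩ := sum_proof V G hconn
  have hm0 : (m : ℝ) ≠ 0 := by
    have : 0 < m := hm
    positivity
  have hb : ((m : ℝ) + ((1 : ℕ) : ℝ) - 1) / ((m : ℝ) * ((1 : ℕ) : ℝ)) = 1 := by
    push_cast
    field_simp
    ring
  have ha : (2 : ℝ) / ((1 : ℕ) : ℝ) = 2 := by norm_num
  refine STAR_.iso hm hconn hcard (resistance G) ?_ ?_ hkey hsum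
  · intro x y hxy
    rcases hvals x y hxy with h | h | h
    · right; rw [h, ha]
    · left; rw [h, hb]
    · by_cases h1 : (2 : ℝ) / m = 1
      · left; rw [h, h1]
      · by_cases h2 : (2 : ℝ) / m = 2
        · right; rw [h, h2]
        · exfalso
          have h3 := hcnt (2 / (m : ℝ))
          rw [ha, hb, if_neg h2, if_neg h1, if_pos rfl] at h3
          have h4 : (x, y) ∈ (Finset.univ : Finset (V × V)).filter
              (fun p => p.1 ≠ p.2 ∧ resistance G p.1 p.2 = 2 / (m : ℝ)) := by
            rw [Finset.mem_filter]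
            exact ⟨Finset.mem_univ _, hxy, h⟩
          have h5 := Finset.card_pos.2 ⟨_, h4⟩
          omega
  · have h3 := hcnt 1
    rw [ha, hb, if_neg (by norm_num), if_pos rfl] at h3
    have h6 : (if (1 : ℝ) = 2 / (m : ℝ) then 1 * (1 - 1) else 0) = 0 := by
      split_ifs <;> rfl
    rw [h6] at h3
    omega

end Pool.Agent.RSM
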