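import Pool.Agent.RSM.Def
import Pool.Agent.RSM.Final
import Pool.Agent.RSM.CEE
import Pool.Agent.RSM.MONE
import Pool.Agent.RSM.MTWO
import Pool.Agent.RSM.M1CEE
import Pool.Agent.RSM.MZC
import Pool.Agent.RSM.M1W
import Pool.Agent.RSM.D3
import Pool.Agent.RSM.NOM1
import Pool.Agent.RSM.NOCEE
import Pool.Agent.RSM.NOM0
import Pool.Agent.RSM.CNT
import Pool.Agent.RSM.NUM
import Pool.Agent.RSM.BDR
import Pool.Agent.RSM.CNTG
import Pool.Agent.RSM.DZERO
import Pool.Agent.RSM.DONE
import Pool.Agent.RSM.STAR

/-! # Every complete bipartite graph is determined by its resistance spectrum -/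

namespace Pool.Agent.RSM

open Pool.Agent.ResSpec

universe u

theorem main_thm : Stmt_Final.{u} := by
  have hcee := cee_proof.{u}
  have hmone := mone_proof.{u}
  have hmtwo := mtwo_proof.{u}
  have hm1cee := m1cee_proof hcee hmone
  have hmzc := mzc_proof hcee hmtwo hm1cee
  have hm1w := m1w_proof hmone hmtwo hm1cee hmzc
  have hd3 := d3_proof hcee hmone hmtwo hm1w
  have hnom1 := nom1_proof hmone hmtwo hm1w hd3
  have hcntg := cntg_proof.{u}
  exact final_proof hnom1 (nocee_proof hcee hmtwo) nom0_proof (cnt2_proof hmtwo) num_proof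
    (bdr_proof hcee hmone hm1cee) (dzero_proof hcntg) (done_proof hcntg) (star_proof hcntg)

/-- every complete bipartite graph is determined by its resistance spectrum -/
theorem full (m n : ℕ) (hm : 1 ≤ m) (hn : 1 ≤ n) {V : Type u} [Fintype V] [DecidableEq V]
    (H : SimpleGraph V) (hH : H.Connected)
    (hRS : resistanceSpectrum H = resistanceSpectrum (completeBipartiteGraph (Fin m) (Fin n))) :
    Nonempty (H ≃g completeBipartiteGraph (Fin m) (Fin n)) := by
  apply main_thm V H m n hm hn hH
  rw [← resistanceSpectrum_eq hH, hRS, resistanceSpectrum_eq (Kmn.connected hm hn)]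

end Pool.Agent.RSM
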