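import Pool.Agent.RSM.Basic

/-! # The remaining range of MP_23a9ba_co: module statements -/

set_option linter.unusedSectionVars false
set_option linter.unusedVariables false

namespace Pool.Agent.RSM

open Finset Pool.Agent.ResSpec Pool.Agent.ResSpec.LargeMod

universe u

/-- `G` is not `K_{n+D,n}` -/
def NotK {V : Type u} (n D : ℕ) (G : SimpleGraph V) : Prop :=
  ¬ Nonempty (G ≃g completeBipartiteGraph (Fin (n + D)) (Fin n))

/-- (CTX) the standing situation exists -/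
def Stmt_Ctx : Prop :=
  ∀ (V : Type u) [Fintype V] [DecidableEq V] (G : SimpleGraph V) [DecidableRel G.Adj] (n D : ℕ),
    3 ≤ n → 3 ≤ D → (D : ℤ) * (D - 1) ≤ 2 * n → G.Connected →
    resSpec G = resSpec (completeBipartiteGraph (Fin (n + D)) (Fin n)) →
    ∃ (Q : V → V → ℤ) (T : V → ℤ), Ctx n D G Q T

/-- (CEE) a `Cee` vertex with a `b`-neighbour has degree at least `n + 1` -/
def Stmt_Cee : Prop :=
  ∀ (V : Type u) [Fintype V] [DecidableEq V] (G : SimpleGraph V) [DecidableRel G.Adj] (n D : ℕ)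
    (Q : V → V → ℤ) (T : V → ℤ), Ctx n D G Q T → NotK n D G →
    ∀ u w, 2 * n < T u → G.Adj u w → Q u w = 2 * n + D - 1 → (n : ℤ) + 1 ≤ G.degree u

/-- (MONE) `M1` vertices -/
def Stmt_MOne : Prop :=
  ∀ (V : Type u) [Fintype V] [DecidableEq V] (G : SimpleGraph V) [DecidableRel G.Adj] (n D : ℕ)
    (Q : V → V → ℤ) (T : V → ℤ), Ctx n D G Q T →
    ∀ w, M1 n D G T w →
      (D : ℤ) ≤ be G Q n D w w ∧
      (∀ x, G.Adj w x → Q w x = 2 * n → (∀ y, G.Adj w y → Q y x ≠ 2 * n + 2 * D) ∧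
        be G Q n D w x = be G Q n D w w ∧ al G Q n w x = al G Q n w w - 1) ∧
      (be G Q n D w w = D →
        (∀ u v, Q u v = 2 * n → u = w ∨ (G.Adj w u ∧ Q w u = 2 * n)) ∧
        (∀ u v, u ≠ v → (u = w ∨ (G.Adj w u ∧ Q w u = 2 * n)) →
          (v = w ∨ (G.Adj w v ∧ Q w v = 2 * n)) → Q u v = 2 * n))

/-- (MTWO) `M2` vertices -/
def Stmt_MTwo : Prop :=
  ∀ (V : Type u) [Fintype V] [DecidableEq V] (G : SimpleGraph V) [DecidableRel G.Adj] (n D : ℕ)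
    (Q : V → V → ℤ) (T : V → ℤ), Ctx n D G Q T → NB n D →
    ∀ w, M2 n D G T w →
      (∃ y, Q w y = 2 * n + 2 * D) ∧ (G.degree w : ℤ) = n + ((D / 2 : ℕ) : ℤ) ∧
      T w = mu n D + (D - 1) * al G Q n w w ∧ 2 * al G Q n w w ≤ mu n D ∧ 0 < mu n D ∧
      (∀ v, Q w v = 2 * n → G.Adj w v ∧ T v < 0)

/-- (M1CEE) no `M1` vertex has all its `b`-neighbours in `Cee` and pairwise `c` -/
def Stmt_M1Cee : Prop :=
  ∀ (V : Type u) [Fintype V] [DecidableEq V] (G : SimpleGraph V) [DecidableRel G.Adj] (n D : ℕ)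
    (Q : V → V → ℤ) (T : V → ℤ), Ctx n D G Q T → NotK n D G →
    ∀ w, M1 n D G T w →
      (∀ y, G.Adj w y → Q w y = 2 * n + D - 1 → 2 * n < T y) →
      (∀ y z, y ≠ z → G.Adj w y → Q w y = 2 * n + D - 1 → G.Adj w z → Q w z = 2 * n + D - 1 →
        Q y z = 2 * n + 2 * D) → False

/-- (MZC) `M0` vertices have no `c`-partner -/
def Stmt_MZC : Prop :=
  ∀ (V : Type u) [Fintype V] [DecidableEq V] (G : SimpleGraph V) [DecidableRel G.Adj] (n D : ℕ)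
    (Q : V → V → ℤ) (T : V → ℤ), Ctx n D G Q T → NotK n D G → NB n D →
    ∀ u v, M0 n D G T u → Q u v ≠ 2 * n + 2 * D

/-- (M1W) `M1` vertices, second part -/
def Stmt_M1W : Prop :=
  ∀ (V : Type u) [Fintype V] [DecidableEq V] (G : SimpleGraph V) [DecidableRel G.Adj] (n D : ℕ)
    (Q : V → V → ℤ) (T : V → ℤ), Ctx n D G Q T → NotK n D G → NB n D →
    ∀ w, M1 n D G T w →
      (∃ y, G.Adj w y ∧ Q w y = 2 * n + D - 1 ∧ T y ≤ 2 * n) ∧
      (∀ y, G.Adj w y → Q w y = 2 * n + D - 1 → T y ≤ 2 * n →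
        ((D : ℤ) + 1) * (n + D) - 2 * n - 2 * be G Q n D w w ≤ T y ∧
        (M2 n D G T y →
          ((D : ℤ) + 1) * (n + D) - 2 * n - 2 * be G Q n D w w ≤ mu n D - 2 * al G Q n y y))

/-- (DTHREE) no `M1` vertices if `D = 3` -/
def Stmt_D3 : Prop :=
  ∀ (V : Type u) [Fintype V] [DecidableEq V] (G : SimpleGraph V) [DecidableRel G.Adj] (n D : ℕ)
    (Q : V → V → ℤ) (T : V → ℤ), Ctx n D G Q T → NotK n D G → D = 3 →
    ∀ w, ¬ M1 n D G T w

/-- (NOM1) no `M1` vertices -/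
def Stmt_NoM1 : Prop :=
  ∀ (V : Type u) [Fintype V] [DecidableEq V] (G : SimpleGraph V) [DecidableRel G.Adj] (n D : ℕ)
    (Q : V → V → ℤ) (T : V → ℤ), Ctx n D G Q T → NotK n D G → NB n D →
    ∀ w, ¬ M1 n D G T w

/-- (NOCEE) no `Cee` vertices -/
def Stmt_NoCee : Prop :=
  ∀ (V : Type u) [Fintype V] [DecidableEq V] (G : SimpleGraph V) [DecidableRel G.Adj] (n D : ℕ)
    (Q : V → V → ℤ) (T : V → ℤ), Ctx n D G Q T → NotK n D G → NB n D →
    (∀ w, ¬ M1 n D G T w) → ∀ u, T u ≤ 2 * n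

/-- (NOM0) no `M0` vertices -/
def Stmt_NoM0 : Prop :=
  ∀ (V : Type u) [Fintype V] [DecidableEq V] (G : SimpleGraph V) [DecidableRel G.Adj] (n D : ℕ)
    (Q : V → V → ℤ) (T : V → ℤ), Ctx n D G Q T →
    (∀ w, ¬ M1 n D G T w) → (∀ u, T u ≤ 2 * n) → ∀ w, ¬ M0 n D G T w

/-- (CNT) the counts when every vertex is a hub or in `M2`: `eta` is the number of hubs, `s` the
number of `M2` vertices, `p`, `q` the sums of `d_a`, `d_a ^ 2` over `M2` -/
def Stmt_Cnt : Prop :=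
  ∀ (V : Type u) [Fintype V] [DecidableEq V] (G : SimpleGraph V) [DecidableRel G.Adj] (n D : ℕ)
    (Q : V → V → ℤ) (T : V → ℤ), Ctx n D G Q T → NB n D →
    (∀ u, T u < 0 ∨ M2 n D G T u) →
    ∃ η s p q : ℤ, 0 ≤ η ∧ 0 ≤ s ∧ 0 ≤ p ∧ η + s = 2 * n + D ∧ 0 < mu n D ∧
      (n : ℤ) * (n - 1) = η * (η - 1) + 2 * p ∧
      ((n : ℤ) + D) * (n + D - 1) = s * (s - 1 - (n + ((D / 2 : ℕ) : ℤ))) + p ∧
      ((D : ℤ) - 1) * q = 2 * n * p - s * η * mu n D ∧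
      p ^ 2 ≤ s * q ∧ 2 * p ≤ s * mu n D ∧ 2 * q ≤ mu n D * p ∧ p ≤ q ∧
      (D % 2 = 1 → 2 * p ≤ (D - 1) * s)

/-- (NUM) the arithmetic contradiction -/
def Stmt_Num : Prop :=
  ∀ (n D : ℕ), 3 ≤ n → 3 ≤ D → (D : ℤ) * (D - 1) ≤ 2 * n →
    ∀ η s p q : ℤ, 0 ≤ η → 0 ≤ s → 0 ≤ p → η + s = 2 * n + D → 0 < mu n D →
      (n : ℤ) * (n - 1) = η * (η - 1) + 2 * p →
      ((n : ℤ) + D) * (n + D - 1) = s * (s - 1 - (n + ((D / 2 : ℕ) : ℤ))) + p →
      ((D : ℤ) - 1) * q = 2 * n * p - s * η * mu n D →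
      p ^ 2 ≤ s * q → 2 * p ≤ s * mu n D → 2 * q ≤ mu n D * p → p ≤ q →
      (D % 2 = 1 → 2 * p ≤ (D - 1) * s) → False

/-- (BDR) the boundary case -/
def Stmt_Bdr : Prop :=
  ∀ (V : Type u) [Fintype V] [DecidableEq V] (G : SimpleGraph V) [DecidableRel G.Adj] (n D : ℕ)
    (Q : V → V → ℤ) (T : V → ℤ), Ctx n D G Q T → NotK n D G → ¬ NB n D → False

open Classical in
/-- (CNTG) values and counts (ordered pairs of distinct vertices) for all `m, n ≥ 1` -/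
def Stmt_Cntg : Prop :=
  ∀ (V : Type u) [Fintype V] [DecidableEq V] (G : SimpleGraph V) (m n : ℕ), 1 ≤ m → 1 ≤ n →
    resSpec G = resSpec (completeBipartiteGraph (Fin m) (Fin n)) →
    Fintype.card V = m + n ∧
    (∀ u v, u ≠ v → resistance G u v = 2 / (n : ℝ) ∨
      resistance G u v = (m + n - 1 : ℝ) / (m * n) ∨ resistance G u v = 2 / (m : ℝ)) ∧
    (∀ r : ℝ, ((Finset.univ : Finset (V × V)).filter
      (fun p => p.1 ≠ p.2 ∧ resistance G p.1 p.2 = r)).card =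
        (if r = 2 / (n : ℝ) then m * (m - 1) else 0) +
        (if r = (m + n - 1 : ℝ) / (m * n) then 2 * m * n else 0) +
        (if r = 2 / (m : ℝ) then n * (n - 1) else 0))

/-- (DZERO) `K_{n,n}`, `n ≥ 1` -/
def Stmt_DZero : Prop :=
  ∀ (V : Type u) [Fintype V] [DecidableEq V] (G : SimpleGraph V) (n : ℕ), 1 ≤ n → G.Connected →
    resSpec G = resSpec (completeBipartiteGraph (Fin n) (Fin n)) →
    Nonempty (G ≃g completeBipartiteGraph (Fin n) (Fin n))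

/-- (DONE) `K_{n+1,n}`, `n ≥ 1` -/
def Stmt_DOne : Prop :=
  ∀ (V : Type u) [Fintype V] [DecidableEq V] (G : SimpleGraph V) (n : ℕ), 1 ≤ n → G.Connected →
    resSpec G = resSpec (completeBipartiteGraph (Fin (n + 1)) (Fin n)) →
    Nonempty (G ≃g completeBipartiteGraph (Fin (n + 1)) (Fin n))

/-- (STAR) `K_{m,1}` -/
def Stmt_Star : Prop :=
  ∀ (V : Type u) [Fintype V] [DecidableEq V] (G : SimpleGraph V) (m : ℕ), 1 ≤ m → G.Connected →
    resSpec G = resSpec (completeBipartiteGraph (Fin m) (Fin 1)) →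
    Nonempty (G ≃g completeBipartiteGraph (Fin m) (Fin 1))

/-- (FINAL) -/
def Stmt_Final : Prop :=
  ∀ (V : Type u) [Fintype V] [DecidableEq V] (G : SimpleGraph V) (m n : ℕ), 1 ≤ m → 1 ≤ n →
    G.Connected →
    resSpec G = resSpec (completeBipartiteGraph (Fin m) (Fin n)) →
    Nonempty (G ≃g completeBipartiteGraph (Fin m) (Fin n))

end Pool.Agent.RSM
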